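import Pool.Agent.W572.G.Map

/-!
# Density of the points over a subfield
-/

set_option autoImplicit false

namespace Pool.Agent.W572.G

open MvPolynomial Matrix Filter Topology

variable {S : Type*} [NormedField S] {N : ℕ}

/-- A common radius. -/
lemma exists_common {ι : Type*} [Finite ι] (δ : ι → ℝ) (hδ : ∀ i, 0 < δ i) (ρ : ℝ) (hρ : 0 < ρ) :
    ∃ δ₀ : ℝ, 0 < δ₀ ∧ δ₀ ≤ ρ ∧ ∀ i, δ₀ ≤ δ i := by
  have := Fintype.ofFinite ι
  rcases isEmpty_or_nonempty ι with h | h
  · exact ⟨ρ, hρ, le_rfl, fun t => (h.false t).elim⟩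
  · refine ⟨min ρ (Finset.univ.inf' Finset.univ_nonempty δ), lt_min hρ ?_, min_le_left _ _,
      fun t => (min_le_right _ _).trans (Finset.inf'_le _ (Finset.mem_univ t))⟩
    rw [Finset.lt_inf'_iff]
    exact fun t _ => hδ t

/-- Polynomial with coefficients in a subfield take values in the subfield. -/
lemma eval_mem {S : Type*} [Field S] {σ : Type*} (K : Subfield S) (P : MvPolynomial σ S)
    (hP : ∀ d, coeff d P ∈ K) (x : σ → S) (hx : ∀ l, x l ∈ K) : eval x P ∈ K := by
  rw [eval_eq]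
  exact sum_mem fun d _ => mul_mem (hP d) (prod_mem fun i _ => pow_mem (hx i) _)

theorem core [IsUltrametricDist S] [IsAlgClosed S] [CharZero S] {p : ℕ} (hp0 : (p : S) ≠ 0)
    (hp1 : ‖(p : S)‖ < 1) {F : MvPolynomial (Fin N) S} (hF : Irreducible F) {r : Fin N → S}
    (hr : eval r F = 0) (l₀ : Fin N) (hl₀ : eval r (pderiv l₀ F) ≠ 0) {m : ℕ}
    (g : Fin m → FibredSelfMap F r) (hgen : TangentGenerating F (fun i => (g i).velocity) r)
    (hJ : ∀ i l j, ‖gradRat ((g i).num l) (g i).den r j‖ ≤ 1) (hμ : ∀ i, ‖(g i).μ‖ = 1)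
    (hroot : ∀ i, ∀ ε : ℝ, 0 < ε → ∃ M : ℕ, 0 < M ∧ ‖(g i).μ ^ M - 1‖ < ε) :
    ∃ x₀ : Fin N → S, ∀ K : Subfield S, (∀ l, x₀ l ∈ K) →
      (∀ i l d, coeff d ((g i).num l) ∈ K) → (∀ i d, coeff d (g i).den ∈ K) →
      ∀ P : MvPolynomial (Fin N) S,
        (∀ x : Fin N → S, (∀ l, x l ∈ K) → eval x F = 0 → eval x P = 0) → F ∣ P := by
  classical
  have hFl : pderiv l₀ F ≠ 0 := by
    intro h
    rw [h, map_zero] at hl₀
    exact hl₀ rfl
  choose l δ hδ h1 h2 h3 h4 using fun i => map_package hp0 hp1 hr (g i) (hJ i) (hμ i) (hroot i)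
  set γ : Fin m → (Fin N → S) → (Fin N → S) := fun i => ratMap (g i).num (g i).den with hγ
  -- the polynomials whose zeros are the fixed points near `r`
  let Q : Fin m → MvPolynomial (Fin N) S := fun i => (g i).num (l i) - X (l i) * (g i).den
  have hQ : ∀ i x, eval x (g i).den ≠ 0 → (eval x (Q i) = 0 ↔ γ i x (l i) = x (l i)) := by
    intro i x hx
    simp only [Q, hγ, ratMap, map_sub, map_mul, eval_X]
    rw [div_eq_iff hx, sub_eq_zero]
  have hQF : ∀ i, ¬ F ∣ Q i := by
    intro i hdvd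
    obtain ⟨x, hx1, hx2, hx3⟩ := (g i).nontrivial
    obtain ⟨l', hl'⟩ : ∃ l', γ i x l' ≠ x l' := by
      by_contra hcon
      push Not at hcon
      exact hx3 (funext hcon)
    set P := (g i).num l' - X l' * (g i).den with hP
    have hPF : ¬ F ∣ P := by
      rintro ⟨R, hR⟩
      have h5 : eval x P = 0 := by rw [hR, map_mul, hx1, zero_mul]
      apply hl'
      simp only [hγ, ratMap]
      rw [hP, map_sub, map_mul, eval_X, sub_eq_zero] at h5
      rw [div_eq_iff hx2, h5]
    obtain ⟨y, hy1, hy2, hy3⟩ := exists_near_point (p : S) hp0 hp1 F P hF r hr l₀ hl₀ hPF (hδ i)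
    have hden := (h1 i (δ i) le_rfl y hy2 hy1).1
    have hne : γ i y ≠ y := by
      intro h5
      apply hy3
      have h6 := congrFun h5 l'
      simp only [hγ, ratMap] at h6
      rw [div_eq_iff hden] at h6
      rw [hP, map_sub, map_mul, eval_X, h6, sub_self]
    have h7 := h2 i y hy2 hy1 hne
    apply h7
    apply (hQ i y hden).mp
    obtain ⟨R, hR⟩ := hdvd
    rw [hR, map_mul, hy2, zero_mul]
  -- the frame
  have hFne : eval r (pderiv l₀ F) ≠ 0 := hl₀
  have hw : ∀ j : {j // j ≠ l₀}, ∃ D ∈ LieSubalgebra.lieSpan S (Derivation S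
      (MvPolynomial (Fin N) S) (MvPolynomial (Fin N) S)) (Set.range fun i => (g i).velocity),
      valueAt D r = fun a => eval r (pderiv l₀ F) * (Pi.single (j : Fin N) (1 : S) : Fin N → S) a -
        eval r (pderiv (j : Fin N) F) * (Pi.single l₀ (1 : S) : Fin N → S) a := by
    intro j
    apply hgen
    rw [dirDeriv]
    simp only [mul_sub, Finset.sum_sub_distrib]
    rw [Finset.sum_eq_single (j : Fin N), Finset.sum_eq_single l₀]
    · simp only [Pi.single_eq_same, mul_one]
      ring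
    · intro b _ hb
      rw [Pi.single_eq_of_ne hb]; ring
    · intro h; exact absurd (Finset.mem_univ _) h
    · intro b _ hb
      rw [Pi.single_eq_of_ne hb]; ring
    · intro h; exact absurd (Finset.mem_univ _) h
  choose W hW hWr using hw
  let A : Matrix {j // j ≠ l₀} {j // j ≠ l₀} (MvPolynomial (Fin N) S) :=
    Matrix.of fun j k => W j (X (k : Fin N))
  have hAr : eval r A.det ≠ 0 := by
    rw [RingHom.map_det]
    have h5 : (eval r).mapMatrix A = eval r (pderiv l₀ F) • (1 : Matrix _ _ S) := by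
      ext j k
      have h6 := congrFun (hWr j) (k : Fin N)
      have h7 : (eval r).mapMatrix A j k = valueAt (W j) r k := rfl
      rw [h7, h6, Matrix.smul_apply, Matrix.one_apply, Pi.single_eq_of_ne k.2, mul_zero, sub_zero,
        smul_eq_mul, Pi.single_apply]
      congr 1
      by_cases h : j = k
      · subst h; simp
      · rw [if_neg h, if_neg]
        intro h'
        exact h (Subtype.ext h'.symm)
    rw [h5, Matrix.det_smul, Matrix.det_one, mul_one]
    exact pow_ne_zero _ hFne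
  obtain ⟨ρ, hρ, hAρ⟩ := Metric.eventually_nhds_iff_ball.mp
    (((MvPolynomial.continuous_eval A.det).tendsto r).eventually_ne hAr)
  obtain ⟨δ₀, hδ₀, hδρ, hδi⟩ := exists_common δ hδ ρ hρ
  -- the starting point
  have hprod : ¬ F ∣ ∏ i, Q i := by
    intro h
    obtain ⟨i, -, hi⟩ := (hF.prime.dvd_finsetProd_iff _).mp h
    exact hQF i hi
  obtain ⟨x₀, hx₀1, hx₀2, hx₀3⟩ := exists_near_point (p : S) hp0 hp1 F _ hF r hr l₀ hl₀ hprod hδ₀
  refine ⟨x₀, fun K hK hnum hden P hP => ?_⟩
  -- the set of points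
  let T : Set (Fin N → S) := {x | (∀ l', x l' ∈ K) ∧ eval x F = 0 ∧ ‖x - r‖ < δ₀ ∧
    ∀ i, eval x (Q i) ≠ 0}
  have hx₀T : x₀ ∈ T := by
    refine ⟨hK, hx₀2, hx₀1, fun i hi => hx₀3 ?_⟩
    rw [map_prod]
    exact Finset.prod_eq_zero (Finset.mem_univ i) hi
  let I : Set (MvPolynomial (Fin N) S) := {H | ∀ x ∈ T, eval x H = 0}
  let D' : Set (Fin N → S) := {x | (∀ l', x l' ∈ K) ∧ eval x F = 0 ∧ ‖x - r‖ < δ₀}
  have hstab : ∀ i, ∀ x ∈ D', γ i x ∈ D' := by
    intro i x hx
    obtain ⟨h5, h6, h7⟩ := h1 i δ₀ (hδi i) x hx.2.1 hx.2.2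
    refine ⟨fun l' => ?_, h6, h7⟩
    exact div_mem (eval_mem K _ (hnum i l') x hx.1) (eval_mem K _ (hden i) x hx.1)
  have hclosed : ∀ i, ∀ H ∈ I, (g i).velocity H ∈ I := by
    intro i H hH x hx
    have hxδ : ‖x - r‖ < δ i := hx.2.2.1.trans_le (hδi i)
    have hxden := (h1 i (δ i) le_rfl x hx.2.1 hxδ).1
    have hne : γ i x ≠ x := by
      intro h5
      exact hx.2.2.2 i ((hQ i x hxden).mpr (congrFun h5 _))
    obtain ⟨k, hk1, hk2⟩ := h3 i x hx.2.1 hxδ hne
    -- eventually in `T`
    have h5 : Tendsto (fun a => (γ i)^[k a] x) atTop (𝓝 x) := by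
      rw [tendsto_iff_norm_sub_tendsto_zero]
      exact hk1
    have h6 : ∀ᶠ a in atTop, ∀ i', eval ((γ i)^[k a] x) (Q i') ≠ 0 := by
      rw [eventually_all]
      intro i'
      exact ((MvPolynomial.continuous_eval (Q i')).tendsto x).comp h5 |>.eventually_ne
        (hx.2.2.2 i')
    obtain ⟨a₀, ha₀⟩ := h6.exists_forall_of_atTop
    have h7 : ∀ j, (γ i)^[j] x ∈ D' := fun j =>
      mapsTo_iterate (D := D') (hstab i) j x ⟨hx.1, hx.2.1, hx.2.2.1⟩
    refine h4 i x hx.2.1 hxδ H (fun n => (γ i)^[k (n + a₀)] x) (fun n => hk2 _) ?_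
      (fun n => ⟨_, rfl⟩) (fun n => ?_)
    · exact (tendsto_add_atTop_iff_nat a₀).mpr hk1
    · rw [hH x hx]
      apply hH
      obtain ⟨h8, h9, h10⟩ := h7 (k (n + a₀))
      exact ⟨h8, h9, h10, ha₀ _ (Nat.le_add_left _ _)⟩
  -- the Lie subalgebra of derivations preserving `I`
  let L : LieSubalgebra S (Derivation S (MvPolynomial (Fin N) S) (MvPolynomial (Fin N) S)) :=
    { carrier := {D | ∀ H ∈ I, D H ∈ I}
      add_mem' := by
        intro D E hD hE H hH x hx
        rw [Derivation.add_apply, map_add, hD H hH x hx, hE H hH x hx, add_zero]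
      zero_mem' := by
        intro H hH x hx
        simp
      smul_mem' := by
        intro c D hD H hH x hx
        rw [Derivation.smul_apply, smul_eval, hD H hH x hx, mul_zero]
      lie_mem' := by
        intro D E hD hE H hH x hx
        rw [Derivation.commutator_apply, map_sub, hD _ (hE H hH) x hx, hE _ (hD H hH) x hx,
          sub_zero] }
  have hL : LieSubalgebra.lieSpan S (Derivation S (MvPolynomial (Fin N) S)
        (MvPolynomial (Fin N) S)) (Set.range (fun i => (g i).velocity)) ≤ L := by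
    rw [LieSubalgebra.lieSpan_le]
    rintro _ ⟨i, rfl⟩
    exact hclosed i
  -- the polynomials in the variables other than `l₀` in `I`
  let I' : Set (MvPolynomial {j // j ≠ l₀} S) := {G | rename Subtype.val G ∈ I}
  have hI' : ∀ G ∈ I', ∀ j, pderiv j G ∈ I' := by
    intro G hG j x hx
    have hxρ : eval x A.det ≠ 0 := hAρ x (by
      rw [Metric.mem_ball, dist_eq_norm]; exact hx.2.2.1.trans_le hδρ)
    rw [RingHom.map_det] at hxρ
    have hz : ((eval x).mapMatrix A).mulVec
        (fun k : {j // j ≠ l₀} => eval x (pderiv (k : Fin N) (rename Subtype.val G))) = 0 := by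
      funext a
      have h5 : eval x (W a (rename Subtype.val G)) = 0 := hL (hW a) _ hG x hx
      rw [derivation_eq_sum (W a), map_sum] at h5
      rw [Matrix.mulVec, dotProduct, Pi.zero_apply, ← h5]
      have h6 : pderiv l₀ (rename (Subtype.val : {j // j ≠ l₀} → Fin N) G) = 0 := by
        refine pderiv_eq_zero_of_notMem_vars ?_
        intro h6
        have h7 := vars_rename (Subtype.val : {j // j ≠ l₀} → Fin N) G h6
        rw [Finset.mem_image] at h7
        obtain ⟨i, -, hi⟩ := h7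
        exact i.2 hi
      rw [← Finset.sum_erase_add _ _ (Finset.mem_univ l₀), h6, zero_mul, map_zero, add_zero]
      refine (Finset.sum_subtype (Finset.univ.erase l₀) (p := fun j => j ≠ l₀) (by simp)
          (fun k => (eval x) (W a (X k)) * (eval x) (pderiv k
            (rename Subtype.val G)))).symm.trans ?_
      refine Finset.sum_congr rfl fun k _ => ?_
      rw [map_mul, mul_comm]
    have h8 := congrFun (Matrix.eq_zero_of_mulVec_eq_zero hxρ hz) j
    rw [pderiv_rename Subtype.val_injective] at h8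
    exact h8
  have hzero := zero_of_pderiv_closed I' (fun j => x₀ j) (fun H hH => by
    have h5 := hH x₀ hx₀T
    rw [eval_rename] at h5
    exact h5) hI'
  by_contra hFP
  obtain ⟨G, hG, A', B', hAB⟩ := exists_elim F P l₀ hF hFl hFP
  apply hG
  apply hzero
  intro x hx
  rw [hAB, map_add, map_mul, map_mul, hx.2.1, hP x hx.1 hx.2.1]
  ring

end Pool.Agent.W572.G
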