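import Pool.Agent.W572.G.Defs

/-!
# Plane sections of a hypersurface: definitions
-/

set_option autoImplicit false

namespace Pool.Agent.W572.G

open MvPolynomial

variable {S : Type*} [Field S] {N : ℕ}

/-- The Hamiltonian vector field of `F` in the coordinate plane of the variables `p`, `s`:
`(∂F/∂y_s) ∂/∂y_p - (∂F/∂y_p) ∂/∂y_s`. It is tangent to the plane sections of the hypersurface
`F = 0` on which all variables other than `y_p` and `y_s` are constant. -/
noncomputable def planeField (F : MvPolynomial (Fin N) S) (p s : Fin N) :
    Derivation S (MvPolynomial (Fin N) S) (MvPolynomial (Fin N) S) :=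
  mkDerivation S (fun l => if l = p then pderiv s F else if l = s then - pderiv p F else 0)

/-- The pair of variables `y_p`, `y_s` is *cubic* at the point `r`: the polynomial `F` has degree at
most three in these two variables jointly, so that the plane sections on which the other variables
are constant are plane cubics; and the plane section through `r` has a flex at its smooth point `r`,
with an inflectional tangent line which meets it only at `r` (in the affine plane). -/
def CubicPoint (F : MvPolynomial (Fin N) S) (p s : Fin N) (r : Fin N → S) : Prop :=
  (∀ m ∈ F.support, m p + m s ≤ 3) ∧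
    ∃ c : S, c ≠ 0 ∧ ∀ t : S, eval (r + t • valueAt (planeField F p s) r) F = c * t ^ 3

/-- The discriminant of `F` with respect to the variable `y_s` (if `F` is quadratic in `y_s`):
for `F = a y_s² + b y_s + c` it is `b² - 4 a c`. -/
noncomputable def disc (F : MvPolynomial (Fin N) S) (s : Fin N) : MvPolynomial (Fin N) S :=
  pderiv s F ^ 2 - 2 * F * pderiv s (pderiv s F)

/-- The pair of variables `y_p`, `y_s` is *quadratic* at the point `r` of the hypersurface: the
polynomial `F` has degree at most two in `y_s`, and its discriminant with respect to `y_s` has
degree at most four in `y_p`, so that the plane sections on which the other variables are constant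
are double covers of the line with at most four branch points; and the plane section through `r` is
smooth at `r` and simply ramified over the line at `r`. -/
def QuadraticPoint (F : MvPolynomial (Fin N) S) (p s : Fin N) (r : Fin N → S) : Prop :=
  (∀ m ∈ F.support, m s ≤ 2) ∧ (∀ m ∈ (disc F s).support, m p ≤ 4) ∧ eval r F = 0 ∧
    eval r (pderiv s F) = 0 ∧ eval r (pderiv p F) ≠ 0 ∧ eval r (pderiv s (pderiv s F)) ≠ 0

/-- The second derivative (Hessian form) of `F` at the point `r`, in the directions `v`, `w`. -/
noncomputable def hessian (F : MvPolynomial (Fin N) S) (r v w : Fin N → S) : S :=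
  ∑ a, ∑ b, eval r (pderiv a (pderiv b F)) * v a * w b

end Pool.Agent.W572.G
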