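import Pool.Agent.W572.G.Points
import Pool.Agent.W572.G.PlaneDefs

/-!
# The self-map attached to a pair of variables in which the degree is at most three
-/

set_option autoImplicit false

namespace Pool.Agent.W572.G

open MvPolynomial

section general

variable {S : Type*} [Field S] {N : ℕ}

/-- The restriction of `P` to the line through `y` in the direction of the value at `y` of the
vector field `D`: the polynomial `λ ↦ P(y + λ D(y))`. -/
noncomputable def lineRestrict (D : Derivation S (MvPolynomial (Fin N) S) (MvPolynomial (Fin N) S))
    (P : MvPolynomial (Fin N) S) : Polynomial (MvPolynomial (Fin N) S) :=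
  aeval (fun l => Polynomial.C (X l) + Polynomial.C (D (X l)) * Polynomial.X) P

variable (D : Derivation S (MvPolynomial (Fin N) S) (MvPolynomial (Fin N) S))

lemma lineRestrict_coeff_zero (P : MvPolynomial (Fin N) S) : (lineRestrict D P).coeff 0 = P :=
  coeff_zero_curve _ (by intro l; simp) P

lemma lineRestrict_coeff_one (P : MvPolynomial (Fin N) S) : (lineRestrict D P).coeff 1 = D P := by
  rw [lineRestrict, coeff_one_curve _ (by intro l; simp) P]
  congr 1
  apply MvPolynomial.derivation_ext
  intro l
  simp [dir, mkDerivation_X]

lemma eval_lineRestrict (P : MvPolynomial (Fin N) S) (x : Fin N → S) (t : S) :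
    ((lineRestrict D P).map (eval x)).eval t = eval (fun l => x l + eval x (D (X l)) * t) P := by
  rw [lineRestrict, eval_curve]
  congr 2
  funext l
  simp

lemma derivative_lineRestrict (P : MvPolynomial (Fin N) S) :
    Polynomial.derivative (lineRestrict D P) =
      ∑ l, Polynomial.C (D (X l)) * lineRestrict D (pderiv l P) := by
  classical
  induction P using MvPolynomial.induction_on with
  | C a =>
    have h : lineRestrict D (C a) = Polynomial.C (C a) := algHom_C _ _
    rw [h]
    simp [lineRestrict]
  | add p q hp hq =>
    simp only [lineRestrict, map_add] at *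
    rw [hp, hq, ← Finset.sum_add_distrib]
    exact Finset.sum_congr rfl fun l _ => by ring
  | mul_X p i hp =>
    have h1 : lineRestrict D (p * X i) = lineRestrict D p *
        (Polynomial.C (X i) + Polynomial.C (D (X i)) * Polynomial.X) := by
      rw [lineRestrict, map_mul, aeval_X]
      rfl
    have h2 : ∀ l, lineRestrict D (pderiv l (p * X i)) =
        lineRestrict D (pderiv l p) *
          (Polynomial.C (X i) + Polynomial.C (D (X i)) * Polynomial.X) +
        (if l = i then lineRestrict D p else 0) := by
      intro l
      rw [pderiv_mul, pderiv_X]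
      by_cases h : l = i
      · subst h
        simp [lineRestrict]
      · rw [Pi.single_eq_of_ne (Ne.symm h), mul_zero, add_zero, if_neg h, add_zero]
        simp [lineRestrict]
    have h3 : Polynomial.derivative (Polynomial.C (X i) +
        Polynomial.C (D (X i)) * Polynomial.X) = Polynomial.C (D (X i)) := by
      rw [Polynomial.derivative_add, Polynomial.derivative_C, zero_add,
        Polynomial.derivative_C_mul, Polynomial.derivative_X, mul_one]
    rw [h1, Polynomial.derivative_mul, hp, h3]
    generalize (Polynomial.C (X i) + Polynomial.C (D (X i)) * Polynomial.X :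
      Polynomial (MvPolynomial (Fin N) S)) = lin at h2
    have h4 : ∀ l, Polynomial.C (D (X l)) * lineRestrict D (pderiv l (p * X i)) =
        Polynomial.C (D (X l)) * lineRestrict D (pderiv l p) * lin +
        (if l = i then Polynomial.C (D (X i)) * lineRestrict D p else 0) := by
      intro l
      rw [h2 l, mul_add, mul_assoc]
      by_cases h : l = i
      · subst h
        rw [if_pos rfl, if_pos rfl]
      · rw [if_neg h, if_neg h, mul_zero]
    rw [Finset.sum_congr rfl fun l _ => h4 l, Finset.sum_add_distrib,
      Finset.sum_ite_eq' Finset.univ i, if_pos (Finset.mem_univ i), Finset.sum_mul,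
      mul_comm (lineRestrict D p)]

lemma lineRestrict_coeff_succ (P : MvPolynomial (Fin N) S) (j : ℕ) :
    ((j : MvPolynomial (Fin N) S) + 1) * (lineRestrict D P).coeff (j + 1) =
      ∑ l, D (X l) * (lineRestrict D (pderiv l P)).coeff j := by
  have h := congrArg (fun q => Polynomial.coeff q j) (derivative_lineRestrict D P)
  simp only [Polynomial.coeff_derivative, Polynomial.finsetSum_coeff,
    Polynomial.coeff_C_mul] at h
  rw [← h, mul_comm]

lemma pderiv_comm (i j : Fin N) (P : MvPolynomial (Fin N) S) :
    pderiv i (pderiv j P) = pderiv j (pderiv i P) := by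
  classical
  have h1 : ∀ a b : Fin N, ∀ k : Fin N, (pderiv k : Derivation S (MvPolynomial (Fin N) S)
      (MvPolynomial (Fin N) S)) ((Pi.single a (1 : MvPolynomial (Fin N) S) :
      Fin N → MvPolynomial (Fin N) S) b) = 0 := by
    intro a b k
    by_cases hab : b = a
    · subst hab; simp
    · rw [Pi.single_eq_of_ne hab, map_zero]
  have h : ⁅(pderiv i : Derivation S (MvPolynomial (Fin N) S) (MvPolynomial (Fin N) S)),
      (pderiv j : Derivation S (MvPolynomial (Fin N) S) (MvPolynomial (Fin N) S))⁆ = 0 := by
    refine MvPolynomial.derivation_ext fun l => ?_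
    rw [Derivation.commutator_apply, pderiv_X, pderiv_X, h1, h1, sub_zero]
    rfl
  have h2 := congrArg (fun E => E P) h
  simp only [Derivation.commutator_apply, Derivation.zero_apply] at h2
  exact sub_eq_zero.mp h2

section plane

variable (F : MvPolynomial (Fin N) S) {p s : Fin N}

lemma planeField_p : planeField F p s (X p) = pderiv s F := by
  rw [planeField, mkDerivation_X, if_pos rfl]

lemma planeField_s (hps : p ≠ s) : planeField F p s (X s) = - pderiv p F := by
  rw [planeField, mkDerivation_X, if_neg (Ne.symm hps), if_pos rfl]

lemma planeField_ne {l : Fin N} (h1 : l ≠ p) (h2 : l ≠ s) : planeField F p s (X l) = 0 := by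
  rw [planeField, mkDerivation_X, if_neg h1, if_neg h2]

lemma sum_plane (hps : p ≠ s) (G : Fin N → MvPolynomial (Fin N) S) :
    ∑ l, planeField F p s (X l) * G l = pderiv s F * G p - pderiv p F * G s := by
  classical
  rw [← Finset.add_sum_erase Finset.univ _ (Finset.mem_univ p),
    ← Finset.add_sum_erase (Finset.univ.erase p) _
      (Finset.mem_erase.mpr ⟨Ne.symm hps, Finset.mem_univ s⟩), planeField_p, planeField_s F hps,
    Finset.sum_eq_zero]
  · ring
  · intro l hl
    rw [Finset.mem_erase, Finset.mem_erase] at hl
    rw [planeField_ne F hl.2.1 hl.1, zero_mul]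

lemma planeField_apply (hps : p ≠ s) (P : MvPolynomial (Fin N) S) :
    planeField F p s P = pderiv s F * pderiv p P - pderiv p F * pderiv s P := by
  rw [derivation_eq_sum (planeField F p s) P, ← sum_plane F hps (fun l => pderiv l P)]
  exact Finset.sum_congr rfl fun l _ => mul_comm _ _

lemma planeField_self (hps : p ≠ s) : planeField F p s F = 0 := by
  rw [planeField_apply F hps]; ring

/-- The coefficient of `λ²` in `F(y + λ V(y))`, with `V` the vector field of the plane. -/
noncomputable def quadCoeff (F : MvPolynomial (Fin N) S) (p s : Fin N) : MvPolynomial (Fin N) S :=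
  (lineRestrict (planeField F p s) F).coeff 2

/-- The coefficient of `λ³` in `F(y + λ V(y))`, with `V` the vector field of the plane. -/
noncomputable def cubicCoeff (F : MvPolynomial (Fin N) S) (p s : Fin N) :
    MvPolynomial (Fin N) S :=
  (lineRestrict (planeField F p s) F).coeff 3

/-- The identity `V(q) = 3 c`. -/
lemma field_quadCoeff [CharZero S] (hps : p ≠ s) :
    planeField F p s (quadCoeff F p s) = 3 * cubicCoeff F p s := by
  set V := planeField F p s with hV
  have hVa : ∀ P, V P = pderiv s F * pderiv p P - pderiv p F * pderiv s P :=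
    planeField_apply F hps
  have h2 : ∀ P : MvPolynomial (Fin N) S, 2 * (lineRestrict V P).coeff 2 =
      pderiv s F * V (pderiv p P) - pderiv p F * V (pderiv s P) := by
    intro P
    have h := lineRestrict_coeff_succ V P 1
    rw [sum_plane F hps] at h
    rw [lineRestrict_coeff_one, lineRestrict_coeff_one] at h
    rw [← h]
    push_cast
    ring
  have h3 : 3 * cubicCoeff F p s = pderiv s F * (lineRestrict V (pderiv p F)).coeff 2 -
      pderiv p F * (lineRestrict V (pderiv s F)).coeff 2 := by
    have h := lineRestrict_coeff_succ V F 2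
    rw [sum_plane F hps] at h
    rw [← h, cubicCoeff]
    push_cast
    ring
  have hq : 2 * quadCoeff F p s = pderiv s F * V (pderiv p F) - pderiv p F * V (pderiv s F) :=
    h2 F
  have hq' := congrArg V hq
  have hpp := h2 (pderiv p F)
  have hss := h2 (pderiv s F)
  have h2c : (2 : MvPolynomial (Fin N) S) = C 2 := (map_ofNat C 2).symm
  have h20 : (2 : MvPolynomial (Fin N) S) ≠ 0 := by
    rw [h2c]
    intro h
    have h4 : (2 : S) = 0 := by
      rw [← C_0 (R := S)] at h
      exact C_injective _ _ h
    exact two_ne_zero h4
  have hV2 : ∀ P, V (2 * P) = 2 * V P := by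
    intro P
    rw [two_mul, map_add, two_mul]
  apply mul_left_cancel₀ h20
  rw [h3]
  rw [hV2] at hq'
  rw [hq', map_sub, Derivation.leibniz, Derivation.leibniz]
  simp only [smul_eq_mul]
  have e1 : V (V (pderiv p F)) = V (pderiv s F) * pderiv p (pderiv p F) +
      pderiv s F * V (pderiv p (pderiv p F)) - V (pderiv p F) * pderiv s (pderiv p F) -
      pderiv p F * V (pderiv s (pderiv p F)) := by
    rw [hVa (pderiv p F), map_sub, Derivation.leibniz, Derivation.leibniz]
    simp only [smul_eq_mul]
    rw [← hVa (pderiv p F)]
    ring
  have e2 : V (V (pderiv s F)) = V (pderiv s F) * pderiv p (pderiv s F) +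
      pderiv s F * V (pderiv p (pderiv s F)) - V (pderiv p F) * pderiv s (pderiv s F) -
      pderiv p F * V (pderiv s (pderiv s F)) := by
    rw [hVa (pderiv s F), map_sub, Derivation.leibniz, Derivation.leibniz]
    simp only [smul_eq_mul]
    rw [← hVa (pderiv s F)]
    ring
  rw [e1, e2]
  have hcomm : pderiv p (pderiv s F) = pderiv s (pderiv p F) := pderiv_comm p s F
  have e3 := hVa (pderiv p F)
  have e4 := hVa (pderiv s F)
  rw [hcomm] at e4 hss ⊢
  linear_combination (- pderiv s F) * hpp + pderiv p F * hss - V (pderiv s F) * e3 +
    V (pderiv p F) * e4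

end plane

/-- A point of an irreducible hypersurface outside a proper closed subset. -/
lemma exists_point [IsAlgClosed S] {F P : MvPolynomial (Fin N) S} (hF : Irreducible F)
    (hFP : ¬ F ∣ P) : ∃ x, eval x F = 0 ∧ eval x P ≠ 0 := by
  by_contra hcon
  push Not at hcon
  apply hFP
  have hrad : P ∈ (Ideal.span {F}).radical := by
    rw [← vanishingIdeal_zeroLocus_eq_radical (K := S), mem_vanishingIdeal_iff]
    intro x hx
    have hxF : eval x F = 0 := by
      have := (mem_zeroLocus_iff.mp hx) F (Ideal.mem_span_singleton_self F)
      rwa [← coe_aeval_eq_eval]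
    rw [aeval_eq_eval]
    exact hcon x hxF
  have hprime : (Ideal.span {F}).IsPrime :=
    (Ideal.span_singleton_prime hF.ne_zero).mpr hF.prime
  rw [hprime.radical, Ideal.mem_span_singleton] at hrad
  exact hrad

lemma lineRestrict_natDegree (F : MvPolynomial (Fin N) S) {p s : Fin N} (hps : p ≠ s)
    (D : Derivation S (MvPolynomial (Fin N) S) (MvPolynomial (Fin N) S))
    (hD : ∀ l, l ≠ p → l ≠ s → D (X l) = 0) {d : ℕ} (hd : ∀ m ∈ F.support, m p + m s ≤ d) :
    (lineRestrict D F).natDegree ≤ d := by
  classical
  rw [lineRestrict, aeval_def, eval₂_eq']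
  refine Polynomial.natDegree_sum_le_of_forall_le _ _ (fun m hm => ?_)
  have h1 : (algebraMap S (Polynomial (MvPolynomial (Fin N) S))) (coeff m F) =
    Polynomial.C (C (coeff m F)) := rfl
  rw [h1]
  refine (Polynomial.natDegree_C_mul_le _ _).trans ?_
  refine (Polynomial.natDegree_prod_le _ _).trans ?_
  calc ∑ l, ((Polynomial.C (X l) + Polynomial.C (D (X l)) * Polynomial.X :
          Polynomial (MvPolynomial (Fin N) S)) ^ m l).natDegree
      ≤ ∑ l, ((if l = p then m p else 0) + (if l = s then m s else 0)) := by
        refine Finset.sum_le_sum (fun l _ => ?_)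
        refine (Polynomial.natDegree_pow_le).trans ?_
        have hlin : (Polynomial.C (X l) + Polynomial.C (D (X l)) * Polynomial.X :
            Polynomial (MvPolynomial (Fin N) S)).natDegree ≤ 1 := by
          refine (Polynomial.natDegree_add_le _ _).trans (max_le ?_ ?_)
          · rw [Polynomial.natDegree_C]; exact Nat.zero_le _
          · exact (Polynomial.natDegree_C_mul_le _ _).trans Polynomial.natDegree_X_le
        by_cases h : l = p
        · subst h
          rw [if_pos rfl]
          refine le_trans ?_ (Nat.le_add_right _ _)
          calc m l * _ ≤ m l * 1 := Nat.mul_le_mul_left _ hlin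
            _ = m l := mul_one _
        · by_cases h' : l = s
          · subst h'
            rw [if_pos rfl]
            refine le_trans ?_ (Nat.le_add_left _ _)
            calc m l * _ ≤ m l * 1 := Nat.mul_le_mul_left _ hlin
              _ = m l := mul_one _
          · rw [hD l h h', Polynomial.C_0, zero_mul, add_zero, Polynomial.natDegree_C, mul_zero]
            exact Nat.zero_le _
    _ = m p + m s := by
        rw [Finset.sum_add_distrib]
        simp
    _ ≤ d := hd m hm

/-- Evaluation on the line, in terms of the first coefficients. -/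
lemma eval_line_three {F : MvPolynomial (Fin N) S} {p s : Fin N} (hps : p ≠ s)
    (hdeg : ∀ m ∈ F.support, m p + m s ≤ 3) (x : Fin N → S) (t : S) :
    eval (fun l => x l + eval x (planeField F p s (X l)) * t) F =
      eval x F + eval x (quadCoeff F p s) * t ^ 2 + eval x (cubicCoeff F p s) * t ^ 3 := by
  rw [← eval_lineRestrict]
  have h1 := lineRestrict_natDegree F hps (planeField F p s)
    (fun l h1 h2 => planeField_ne F h1 h2) hdeg
  have h2 : ((lineRestrict (planeField F p s) F).map (eval x)).natDegree < 4 :=
    lt_of_le_of_lt (Polynomial.natDegree_map_le) (by omega)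
  rw [Polynomial.eval_eq_sum_range' h2]
  simp only [Finset.sum_range_succ, Finset.sum_range_zero, Polynomial.coeff_map,
    lineRestrict_coeff_zero, lineRestrict_coeff_one, planeField_self F hps, map_zero, zero_add,
    pow_zero, mul_one, zero_mul, add_zero]
  rfl

/-- Self-maps moving only the coordinates `p` and `s`. -/
theorem plane_map {F : MvPolynomial (Fin N) S} {p s : Fin N} (hps : p ≠ s) {r : Fin N → S}
    (hgrad : eval r (pderiv s F) ≠ 0 ∨ eval r (pderiv p F) ≠ 0)
    (num : Fin N → MvPolynomial (Fin N) S) (den : MvPolynomial (Fin N) S) (μ : S)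
    (den_ne : eval r den ≠ 0) (fixes : ratMap num den r = r)
    (maps : ∀ x, eval x F = 0 → eval x den ≠ 0 → eval (ratMap num den x) F = 0)
    (nontrivial : ∃ x, eval x F = 0 ∧ eval x den ≠ 0 ∧ ratMap num den x ≠ x)
    (hnum : ∀ l, l ≠ p → l ≠ s → ∀ x, eval x (num l) = x l * eval x den)
    (multiplier : ∀ l, eval r (planeField F p s (num l)) - r l * eval r (planeField F p s den) =
      μ * (eval r den * valueAt (planeField F p s) r l))
    (μ_ne : μ ≠ 0) (μ_sum : ∀ M : ℕ, 0 < M → ∑ j ∈ Finset.range M, μ ^ j ≠ 0) :
    ∃ g : FibredSelfMap F r, g.velocity = planeField F p s := by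
  classical
  set V := planeField F p s with hV
  have hVp : eval r (V (X p)) = eval r (pderiv s F) := by rw [hV, planeField_p]
  have hVs : eval r (V (X s)) = - eval r (pderiv p F) := by
    rw [hV, planeField_s F hps, map_neg]
  refine ⟨{ num := num
            den := den
            s := N
            fib := fun a => if a = p ∨ a = s then 0 else X a
            fibDen := 1
            velocity := V
            μ := μ
            den_ne := den_ne
            fixes := fixes
            maps := maps
            nontrivial := nontrivial
            fibDen_ne := by simp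
            preserves := ?_
            tangent := by rw [hV, planeField_self F hps]; exact dvd_zero _
            tangent_fib := ?_
            curve := ?_
            velocity_ne := ?_
            multiplier := multiplier
            μ_ne := μ_ne
            μ_sum := μ_sum }, rfl⟩
  · intro x hx hxc _ _
    funext a
    by_cases ha : a = p ∨ a = s
    · simp [ratMap, ha]
    · rw [not_or] at ha
      have h1 := hnum a ha.1 ha.2 x
      simp only [ratMap, ha.1, ha.2, or_self, if_false, eval_X, map_one, div_one, h1]
      field_simp
  · intro a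
    by_cases ha : a = p ∨ a = s
    · simp [ha]
    · rw [if_neg ha]
      rw [not_or] at ha
      have h1 : V (X a) = 0 := planeField_ne F ha.1 ha.2
      rw [h1, Derivation.map_one_eq_zero]
      simp
  · intro w hw1 hw2
    have h1 : ∀ a, a ≠ p → a ≠ s → w a = 0 := by
      intro a ha hb
      have h2 := hw2 a
      rw [if_neg (by rw [not_or]; exact ⟨ha, hb⟩)] at h2
      simp only [dirDeriv, map_one, one_mul, pderiv_one, map_zero, zero_mul,
        Finset.sum_const_zero, mul_zero] at h2
      rw [Finset.sum_eq_single a] at h2
      · simpa using h2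
      · intro b _ hb'
        rw [pderiv_X_of_ne (Ne.symm hb'), map_zero, zero_mul]
      · intro h; exact absurd (Finset.mem_univ _) h
    have h2 : eval r (pderiv p F) * w p + eval r (pderiv s F) * w s = 0 := by
      rw [dirDeriv, ← Finset.add_sum_erase Finset.univ _ (Finset.mem_univ p),
        ← Finset.add_sum_erase (Finset.univ.erase p) _
          (Finset.mem_erase.mpr ⟨Ne.symm hps, Finset.mem_univ s⟩), Finset.sum_eq_zero] at hw1
      · linear_combination hw1
      · intro l hl
        rw [Finset.mem_erase, Finset.mem_erase] at hl
        rw [h1 l hl.2.1 hl.1, mul_zero]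
    have h3 : ∀ k : S, w p = k * eval r (pderiv s F) → w s = k * (- eval r (pderiv p F)) →
        w = k • valueAt V r := by
      intro k hk1 hk2
      funext l
      rw [Pi.smul_apply, smul_eq_mul, valueAt]
      by_cases hlp : l = p
      · rw [hlp, hVp]; exact hk1
      · by_cases hls : l = s
        · rw [hls, hVs]; exact hk2
        · rw [h1 l hlp hls, show V (X l) = 0 from planeField_ne F hlp hls, map_zero, mul_zero]
    rcases hgrad with h | h
    · refine ⟨w p / eval r (pderiv s F), h3 _ (by field_simp) ?_⟩
      field_simp
      linear_combination h2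
    · refine ⟨- w s / eval r (pderiv p F), h3 _ ?_ (by field_simp)⟩
      field_simp
      linear_combination h2
  · intro h
    have h1 := congrFun h p
    have h2 := congrFun h s
    simp only [valueAt, Pi.zero_apply] at h1 h2
    rw [hVp] at h1
    rw [hVs, neg_eq_zero] at h2
    exact hgrad.elim (fun h => h h1) (fun h => h h2)

/-- The self-map `x ↦ -2 x` of the plane cubics of the pair of variables `p`, `s`. -/
theorem cubic_map [IsAlgClosed S] [CharZero S] {F : MvPolynomial (Fin N) S}
    (hF : Irreducible F) {p s : Fin N} (hps : p ≠ s)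
    (hdeg : ∀ m ∈ F.support, m p + m s ≤ 3) {r : Fin N → S}
    (hq : eval r (quadCoeff F p s) = 0) (hc : eval r (cubicCoeff F p s) ≠ 0) (hr : eval r F = 0) :
    ∃ g : FibredSelfMap F r, g.velocity = planeField F p s := by
  classical
  set V := planeField F p s with hV
  set q := quadCoeff F p s with hqdef
  set c := cubicCoeff F p s with hcdef
  have hVq : V q = 3 * c := field_quadCoeff F hps
  -- the coefficient `c` vanishes with the vector field
  have hczero : ∀ x, eval x (pderiv s F) = 0 → eval x (pderiv p F) = 0 → eval x c = 0 := by
    intro x h1 h2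
    have h := lineRestrict_coeff_succ V F 2
    rw [sum_plane F hps] at h
    have h3 := congrArg (eval x) h
    rw [map_mul, map_sub, map_mul, map_mul, h1, h2] at h3
    have h4 : eval x (((2 : ℕ) : MvPolynomial (Fin N) S) + 1) ≠ 0 := by
      rw [map_add, map_natCast, map_one]
      norm_num
    have h5 : eval x ((lineRestrict V F).coeff (2 + 1)) = 0 := by
      have h6 : eval x (((2 : ℕ) : MvPolynomial (Fin N) S) + 1) *
          eval x ((lineRestrict V F).coeff (2 + 1)) = 0 := by
        rw [h3]; ring
      exact (mul_eq_zero.mp h6).resolve_left h4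
    exact h5
  have hgrad : eval r (pderiv s F) ≠ 0 ∨ eval r (pderiv p F) ≠ 0 := by
    by_contra hcon
    push Not at hcon
    exact hc (hczero r hcon.1 hcon.2)
  -- `F` divides neither `q` nor `c`
  have hFq : ¬ F ∣ q := by
    rintro ⟨R, hR⟩
    have h1 : V q = F * V R := by
      rw [hR, Derivation.leibniz, planeField_self F hps, smul_zero, add_zero, smul_eq_mul]
    have h2 := congrArg (eval r) (hVq.symm.trans h1)
    rw [map_mul, map_mul, hr, zero_mul] at h2
    rcases mul_eq_zero.mp h2 with h3 | h3
    · rw [map_ofNat] at h3
      exact three_ne_zero h3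
    · exact hc h3
  have hFc : ¬ F ∣ c := by
    rintro ⟨R, hR⟩
    apply hc
    rw [hR, map_mul, hr, zero_mul]
  have hFqc : ¬ F ∣ q * c := fun h => (hF.prime.dvd_or_dvd h).elim hFq hFc
  refine plane_map hps hgrad (fun l => c * X l - q * V (X l)) c (-2) hc ?_ ?_ ?_ ?_ ?_
    (by norm_num) ?_
  · funext l
    simp only [ratMap, map_sub, map_mul, eval_X, hq, zero_mul, sub_zero]
    field_simp
  · intro x hx hxc
    have h1 : ratMap (fun l => c * X l - q * V (X l)) c x =
        fun l => x l + eval x (V (X l)) * (- eval x q / eval x c) := by
      funext l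
      simp only [ratMap, map_sub, map_mul, eval_X]
      field_simp
      ring
    rw [h1, hV, eval_line_three hps hdeg, hx]
    rw [← hqdef, ← hcdef]
    field_simp
    ring
  · obtain ⟨x, hx1, hx2⟩ := exists_point hF hFqc
    rw [map_mul] at hx2
    have hxq := left_ne_zero_of_mul hx2
    have hxc := right_ne_zero_of_mul hx2
    refine ⟨x, hx1, hxc, fun h => ?_⟩
    have h1 : ∀ l, eval x (V (X l)) = 0 := by
      intro l
      have h2 := congrFun h l
      simp only [ratMap, map_sub, map_mul, eval_X] at h2
      rw [div_eq_iff hxc] at h2
      have h3 : eval x q * eval x (V (X l)) = 0 := by linear_combination -h2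
      exact (mul_eq_zero.mp h3).resolve_left hxq
    apply hxc
    have h2 := h1 p
    have h3 := h1 s
    rw [hV, planeField_p] at h2
    rw [hV, planeField_s F hps, map_neg, neg_eq_zero] at h3
    exact hczero x h2 h3
  · intro l hlp hls x
    have h1 : V (X l) = 0 := planeField_ne F hlp hls
    rw [h1, map_sub, map_mul, map_mul, map_zero, eval_X]
    ring
  · intro l
    have h1 : V (c * X l - q * V (X l)) = c * V (X l) + X l * V c -
        (q * V (V (X l)) + V (X l) * V q) := by
      rw [map_sub, Derivation.leibniz, Derivation.leibniz]
      simp only [smul_eq_mul]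
    rw [h1, hVq]
    simp only [map_sub, map_add, map_mul, eval_X, hq, valueAt, map_ofNat]
    ring
  · intro M hM
    have h1 : (∑ j ∈ Finset.range M, (-2 : S) ^ j) * (-2 - 1) = (-2) ^ M - 1 :=
      geom_sum_mul (-2) M
    intro h2
    rw [h2, zero_mul] at h1
    have h3 : ((-2 : ℤ) : S) ^ M = 1 := by
      push_cast
      linear_combination -h1
    have h4 : (-2 : ℤ) ^ M = 1 := by exact_mod_cast h3
    have h5 := congrArg Int.natAbs h4
    rw [Int.natAbs_pow] at h5
    have h6 : (2 : ℕ) ^ M = 1 := h5
    have := Nat.one_lt_two_pow (n := M) (by omega)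
    omega

end general

end Pool.Agent.W572.G
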