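import Pool.Agent.W572.Defs

/-!
# Hypersurfaces with self-maps preserving fibrations in curves
-/

set_option autoImplicit false

namespace Pool.Agent.W572.G

open MvPolynomial AlgebraicGeometry CategoryTheory

/-- The affine hypersurface `F = 0` over `k₀`. -/
noncomputable def hypersurface {k₀ : Type} [Field k₀] {N : ℕ} (F : MvPolynomial (Fin N) k₀) :
    Scheme.{0} :=
  Spec (.of (MvPolynomial (Fin N) k₀ ⧸ Ideal.span {F}))

/-- The structure morphism of the affine hypersurface `F = 0` over `k₀`. -/
noncomputable def hypersurfaceStr {k₀ : Type} [Field k₀] {N : ℕ}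
    (F : MvPolynomial (Fin N) k₀) : hypersurface F ⟶ Spec (.of k₀) :=
  Spec.map (CommRingCat.ofHom (algebraMap k₀ (MvPolynomial (Fin N) k₀ ⧸ Ideal.span {F})))

section

variable {S : Type*} [Field S] {N : ℕ}

/-- The derivative of the polynomial `P` at the point `x` in the direction of the vector `w`. -/
noncomputable def dirDeriv (P : MvPolynomial (Fin N) S) (x w : Fin N → S) : S :=
  ∑ l, eval x (pderiv l P) * w l

/-- The value of a polynomial vector field (a derivation of the polynomial ring) at `x`. -/
noncomputable def valueAt
    (D : Derivation S (MvPolynomial (Fin N) S) (MvPolynomial (Fin N) S)) (x : Fin N → S) :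
    Fin N → S :=
  fun l => eval x (D (X l))

/-- The value at `x` of the rational map with numerators `num` and common denominator `den`. -/
noncomputable def ratMap {κ : Type*} (num : κ → MvPolynomial (Fin N) S)
    (den : MvPolynomial (Fin N) S) (x : Fin N → S) : κ → S :=
  fun l => eval x (num l) / eval x den

/-- A rational self-map `g` of the hypersurface `F = 0`, different from the identity, together with
a rational map `π` (a fibration) and a polynomial vector field `V`, such that
* `g` is regular at the point `r` and fixes `r`;
* `g` preserves the fibration, `π ∘ g = π`, and `V` is tangent to the hypersurface and to the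
  fibres of `π`;
* `π` is regular at `r`, smooth of relative dimension one: the tangent space at `r` of the fibre
  through `r` is the line spanned by `V(r) ≠ 0`;
* `V(r)` is an eigenvector of the derivative of `g` at `r`; the eigenvalue `μ` is not zero and none
  of the sums `1 + μ + ⋯ + μ ^ (M - 1)`, `M ≥ 1`, is zero (so `μ` is `1` or not a root of unity). -/
structure FibredSelfMap (F : MvPolynomial (Fin N) S) (r : Fin N → S) where
  /-- the numerators of the coordinates of `g` -/
  num : Fin N → MvPolynomial (Fin N) S
  /-- the common denominator of the coordinates of `g` -/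
  den : MvPolynomial (Fin N) S
  /-- the number of coordinates of the fibration `π` -/
  s : ℕ
  /-- the numerators of the coordinates of the fibration `π` -/
  fib : Fin s → MvPolynomial (Fin N) S
  /-- the common denominator of the coordinates of the fibration `π` -/
  fibDen : MvPolynomial (Fin N) S
  /-- the vector field `V` -/
  velocity : Derivation S (MvPolynomial (Fin N) S) (MvPolynomial (Fin N) S)
  /-- the multiplier -/
  μ : S
  den_ne : eval r den ≠ 0
  fixes : ratMap num den r = r
  maps : ∀ x, eval x F = 0 → eval x den ≠ 0 → eval (ratMap num den x) F = 0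
  nontrivial : ∃ x, eval x F = 0 ∧ eval x den ≠ 0 ∧ ratMap num den x ≠ x
  fibDen_ne : eval r fibDen ≠ 0
  preserves : ∀ x, eval x F = 0 → eval x den ≠ 0 → eval x fibDen ≠ 0 →
    eval (ratMap num den x) fibDen ≠ 0 →
    ratMap fib fibDen (ratMap num den x) = ratMap fib fibDen x
  tangent : F ∣ velocity F
  tangent_fib : ∀ a, F ∣ fibDen * velocity (fib a) - fib a * velocity fibDen
  curve : ∀ w : Fin N → S, dirDeriv F r w = 0 →
    (∀ a, eval r fibDen * dirDeriv (fib a) r w = eval r (fib a) * dirDeriv fibDen r w) →
    ∃ c : S, w = c • valueAt velocity r
  velocity_ne : valueAt velocity r ≠ 0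
  multiplier : ∀ l, eval r (velocity (num l)) - r l * eval r (velocity den) =
    μ * (eval r den * valueAt velocity r l)
  μ_ne : μ ≠ 0
  μ_sum : ∀ M : ℕ, 0 < M → ∑ j ∈ Finset.range M, μ ^ j ≠ 0

/-- The vector fields `V i` *generate the tangent space* of the hypersurface `F = 0` at `r` under
Lie brackets: every tangent vector at `r` is the value at `r` of a member of the Lie algebra
generated by the `V i`. -/
def TangentGenerating (F : MvPolynomial (Fin N) S) {m : ℕ}
    (V : Fin m → Derivation S (MvPolynomial (Fin N) S) (MvPolynomial (Fin N) S))
    (r : Fin N → S) : Prop :=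
  ∀ w : Fin N → S, dirDeriv F r w = 0 →
    ∃ D ∈ LieSubalgebra.lieSpan S (Derivation S (MvPolynomial (Fin N) S)
      (MvPolynomial (Fin N) S)) (Set.range V), valueAt D r = w

end

end Pool.Agent.W572.G
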