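import Mathlib

/-!
# Iterates of self-maps close to the identity in an ultrametric space
-/

set_option autoImplicit false

namespace Pool.Agent.W572.G

variable {S : Type*} [NormedField S] {E : Type*} [NormedAddCommGroup E]
  [IsUltrametricDist E] [NormedSpace S E]

lemma norm_add_le' {x y : E} {c : ℝ} (hx : ‖x‖ ≤ c) (hy : ‖y‖ ≤ c) : ‖x + y‖ ≤ c :=
  (IsUltrametricDist.norm_add_le_max x y).trans (max_le hx hy)

lemma norm_sub_le' {x y : E} {c : ℝ} (hx : ‖x‖ ≤ c) (hy : ‖y‖ ≤ c) : ‖x - y‖ ≤ c := by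
  rw [sub_eq_add_neg]
  exact norm_add_le' hx (by rwa [norm_neg])

/-- isosceles triangles -/
lemma norm_eq_of_sub_lt {x y : E} (h : ‖x - y‖ < ‖y‖) : ‖x‖ = ‖y‖ := by
  apply le_antisymm
  · have : x = (x - y) + y := by abel
    rw [this]
    exact norm_add_le' h.le le_rfl
  · by_contra hcon
    push Not at hcon
    have h1 : y = x - (x - y) := by abel
    have h2 : ‖y‖ < ‖y‖ := by
      conv_lhs => rw [h1]
      rw [sub_eq_add_neg]
      refine (IsUltrametricDist.norm_add_le_max _ _).trans_lt ?_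
      rw [norm_neg]
      exact max_lt hcon h
    exact lt_irrefl _ h2

lemma mapsTo_iterate {E : Type*} {D : Set E} {h : E → E} (hD : ∀ x ∈ D, h x ∈ D) (j : ℕ) :
    ∀ x ∈ D, h^[j] x ∈ D := by
  induction j with
  | zero => intro x hx; exact hx
  | succ j ih =>
    intro x hx
    rw [Function.iterate_succ_apply']
    exact hD _ (ih x hx)

/-- A self-map `h` of `D` such that `h - 1` contracts distances by a factor `κ < |p|`: the
displacement of `h^(p^a)` is `p^a` times as long as that of `h`. -/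
theorem norm_iterate_sub {p : ℕ} {κ : ℝ} (hκ0 : 0 ≤ κ) (hp1 : ‖(p : S)‖ < 1)
    (hκ : κ < ‖(p : S)‖) (D : Set E) (a : ℕ) : ∀ (h : E → E), (∀ x ∈ D, h x ∈ D) →
    (∀ x ∈ D, ∀ y ∈ D, ‖(h x - x) - (h y - y)‖ ≤ κ * ‖x - y‖) →
    ∀ x ∈ D, ‖h^[p ^ a] x - x‖ = ‖(p : S)‖ ^ a * ‖h x - x‖ := by
  induction a with
  | zero => intro h _ _ x _; simp
  | succ a ih =>
    intro h hD hL x hx
    have hlip : ∀ x ∈ D, ∀ y ∈ D, ‖h x - h y‖ ≤ ‖x - y‖ := by
      intro x hx y hy
      have h1 : h x - h y = ((h x - x) - (h y - y)) + (x - y) := by abel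
      rw [h1]
      refine norm_add_le' ((hL x hx y hy).trans ?_) le_rfl
      calc κ * ‖x - y‖ ≤ 1 * ‖x - y‖ :=
            mul_le_mul_of_nonneg_right (hκ.le.trans hp1.le) (norm_nonneg _)
        _ = ‖x - y‖ := one_mul _
    have hDj := mapsTo_iterate hD
    have hlipj : ∀ j, ∀ x ∈ D, ∀ y ∈ D, ‖h^[j] x - h^[j] y‖ ≤ ‖x - y‖ := by
      intro j
      induction j with
      | zero => intro x _ y _; exact le_rfl
      | succ j ihj =>
        intro x hx y hy
        rw [Function.iterate_succ_apply', Function.iterate_succ_apply']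
        exact (hlip _ (hDj j x hx) _ (hDj j y hy)).trans (ihj x hx y hy)
    have hLj : ∀ j, ∀ x ∈ D, ∀ y ∈ D, ‖(h^[j] x - x) - (h^[j] y - y)‖ ≤ κ * ‖x - y‖ := by
      intro j
      induction j with
      | zero => intro x _ y _; simpa using by positivity
      | succ j ihj =>
        intro x hx y hy
        rw [Function.iterate_succ_apply', Function.iterate_succ_apply']
        have h1 : (h (h^[j] x) - x) - (h (h^[j] y) - y) =
            ((h (h^[j] x) - h^[j] x) - (h (h^[j] y) - h^[j] y)) +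
            ((h^[j] x - x) - (h^[j] y - y)) := by abel
        rw [h1]
        refine norm_add_le' ((hL _ (hDj j x hx) _ (hDj j y hy)).trans ?_) (ihj x hx y hy)
        exact mul_le_mul_of_nonneg_left (hlipj j x hx y hy) hκ0
    have hshort : ∀ j, ∀ x ∈ D, ‖h^[j] x - x‖ ≤ ‖h x - x‖ := by
      intro j
      induction j with
      | zero => intro x _; simp
      | succ j ihj =>
        intro x hx
        rw [Function.iterate_succ_apply]
        have h1 : h^[j] (h x) - x = (h^[j] (h x) - h^[j] x) + (h^[j] x - x) := by abel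
        rw [h1]
        exact norm_add_le' (hlipj j _ (hD x hx) _ hx) (ihj x hx)
    have hsum : ∀ j : ℕ, ∀ x ∈ D, ‖(h^[j] x - x) - (j : S) • (h x - x)‖ ≤ κ * ‖h x - x‖ := by
      intro j
      induction j with
      | zero => intro x _; simpa using by positivity
      | succ j ihj =>
        intro x hx
        rw [Function.iterate_succ_apply']
        have h1 : (h (h^[j] x) - x) - ((j + 1 : ℕ) : S) • (h x - x) =
            ((h (h^[j] x) - h^[j] x) - (h x - x)) + ((h^[j] x - x) - (j : S) • (h x - x)) := by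
          rw [Nat.cast_succ, add_smul, one_smul]; abel
        rw [h1]
        refine norm_add_le' ((hL _ (hDj j x hx) _ hx).trans ?_) (ihj x hx)
        exact mul_le_mul_of_nonneg_left (hshort j x hx) hκ0
    have h2 : ‖h^[p] x - x‖ = ‖(p : S)‖ * ‖h x - x‖ := by
      by_cases h0 : h x - x = 0
      · have h3 := hshort p x hx
        rw [h0, norm_zero] at h3
        rw [h0, norm_zero, mul_zero]
        exact le_antisymm h3 (norm_nonneg _)
      · rw [← norm_smul]
        apply norm_eq_of_sub_lt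
        refine (hsum p x hx).trans_lt ?_
        rw [norm_smul]
        exact mul_lt_mul_of_pos_right hκ (norm_pos_iff.mpr h0)
    have h3 := ih (h^[p]) (hDj p) (hLj p) x hx
    rw [← Function.iterate_mul, ← pow_succ'] at h3
    rw [h3, h2, pow_succ, mul_assoc]

/-- The sum `1 + μ + ⋯ + μ^(M-1)`. -/
def geo (μ : S) (M : ℕ) : S := ∑ j ∈ Finset.range M, μ ^ j

/-- Iterates of a self-map `g` of `D` with multiplier `μ`. -/
theorem iterate_estimates {D : Set E} {g : E → E} {μ : S} {η : ℝ} (hη : 0 ≤ η)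
    (hμ : ‖μ‖ ≤ 1) (hD : ∀ x ∈ D, g x ∈ D)
    (hlip : ∀ x ∈ D, ∀ y ∈ D, ‖g x - g y‖ ≤ ‖x - y‖)
    (hb : ∀ x ∈ D, ∀ y ∈ D,
      ‖((g (g x) - g x) - (g (g y) - g y)) - μ • ((g x - x) - (g y - y))‖ ≤ η * ‖x - y‖)
    (hc : ∀ x ∈ D, ‖(g (g x) - g x) - μ • (g x - x)‖ ≤ η * ‖g x - x‖) (M : ℕ) :
    (∀ x ∈ D, ∀ y ∈ D, ‖(g^[M] x - x) - (g^[M] y - y)‖ ≤ max ‖geo μ M‖ η * ‖x - y‖) ∧
    (∀ x ∈ D, ‖(g^[M] x - x) - geo μ M • (g x - x)‖ ≤ η * ‖g x - x‖) := by
  have hDj := mapsTo_iterate hD
  have hlipj : ∀ j, ∀ x ∈ D, ∀ y ∈ D, ‖g^[j] x - g^[j] y‖ ≤ ‖x - y‖ := by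
    intro j
    induction j with
    | zero => intro x _ y _; exact le_rfl
    | succ j ihj =>
      intro x hx y hy
      rw [Function.iterate_succ_apply', Function.iterate_succ_apply']
      exact (hlip _ (hDj j x hx) _ (hDj j y hy)).trans (ihj x hx y hy)
  -- the displacement along the orbit
  have hbj : ∀ j, ∀ x ∈ D, ∀ y ∈ D,
      ‖((g (g^[j] x) - g^[j] x) - (g (g^[j] y) - g^[j] y)) - μ ^ j • ((g x - x) - (g y - y))‖ ≤
        η * ‖x - y‖ := by
    intro j
    induction j with
    | zero => intro x _ y _; simpa using by positivity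
    | succ j ihj =>
      intro x hx y hy
      have h1 := hb _ (hDj j x hx) _ (hDj j y hy)
      have h2 := ihj x hx y hy
      rw [Function.iterate_succ_apply', Function.iterate_succ_apply']
      set u := (g (g (g^[j] x)) - g (g^[j] x)) - (g (g (g^[j] y)) - g (g^[j] y))
      set v := (g (g^[j] x) - g^[j] x) - (g (g^[j] y) - g^[j] y)
      set w := (g x - x) - (g y - y)
      have h3 : u - μ ^ (j + 1) • w = (u - μ • v) + μ • (v - μ ^ j • w) := by
        rw [smul_sub μ v, smul_smul, ← pow_succ']; abel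
      rw [h3]
      refine norm_add_le' (h1.trans (mul_le_mul_of_nonneg_left (hlipj j x hx y hy) hη)) ?_
      rw [norm_smul]
      calc ‖μ‖ * ‖v - μ ^ j • w‖ ≤ 1 * ‖v - μ ^ j • w‖ :=
            mul_le_mul_of_nonneg_right hμ (norm_nonneg _)
        _ ≤ η * ‖x - y‖ := by rw [one_mul]; exact h2
  have hcj : ∀ j, ∀ x ∈ D, ‖(g (g^[j] x) - g^[j] x) - μ ^ j • (g x - x)‖ ≤ η * ‖g x - x‖ := by
    intro j
    induction j with
    | zero => intro x _; simpa using by positivity
    | succ j ihj =>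
      intro x hx
      have h1 := hc _ (hDj j x hx)
      have h2 := ihj x hx
      rw [Function.iterate_succ_apply']
      set u := g (g (g^[j] x)) - g (g^[j] x)
      set v := g (g^[j] x) - g^[j] x with hv
      set w := g x - x
      have h3 : u - μ ^ (j + 1) • w = (u - μ • v) + μ • (v - μ ^ j • w) := by
        rw [smul_sub μ v, smul_smul, ← pow_succ']; abel
      rw [h3]
      have h4 : ‖v‖ ≤ ‖w‖ := by
        have h5 : v = g^[j] (g x) - g^[j] x := by
          rw [hv, ← Function.iterate_succ_apply' g j x, Function.iterate_succ_apply]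
        rw [h5]
        exact hlipj j _ (hD x hx) _ hx
      refine norm_add_le' (h1.trans (mul_le_mul_of_nonneg_left h4 hη)) ?_
      rw [norm_smul]
      calc ‖μ‖ * ‖v - μ ^ j • w‖ ≤ 1 * ‖v - μ ^ j • w‖ :=
            mul_le_mul_of_nonneg_right hμ (norm_nonneg _)
        _ ≤ η * ‖w‖ := by rw [one_mul]; exact h2
  have key1 : ∀ M : ℕ, ∀ x ∈ D, ∀ y ∈ D,
      ‖((g^[M] x - x) - (g^[M] y - y)) - geo μ M • ((g x - x) - (g y - y))‖ ≤ η * ‖x - y‖ := by
    intro M
    induction M with
    | zero => intro x _ y _; simpa [geo] using by positivity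
    | succ M ih =>
      intro x hx y hy
      rw [Function.iterate_succ_apply', Function.iterate_succ_apply', geo,
        Finset.sum_range_succ, add_smul, ← geo]
      have h1 : (g (g^[M] x) - x) - (g (g^[M] y) - y) -
          (geo μ M • ((g x - x) - (g y - y)) + μ ^ M • ((g x - x) - (g y - y))) =
          (((g^[M] x - x) - (g^[M] y - y)) - geo μ M • ((g x - x) - (g y - y))) +
          (((g (g^[M] x) - g^[M] x) - (g (g^[M] y) - g^[M] y)) -
            μ ^ M • ((g x - x) - (g y - y))) := by abel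
      rw [h1]
      exact norm_add_le' (ih x hx y hy) (hbj M x hx y hy)
  have key2 : ∀ M : ℕ, ∀ x ∈ D, ‖(g^[M] x - x) - geo μ M • (g x - x)‖ ≤ η * ‖g x - x‖ := by
    intro M
    induction M with
    | zero => intro x _; simpa [geo] using by positivity
    | succ M ih =>
      intro x hx
      rw [Function.iterate_succ_apply', geo, Finset.sum_range_succ, add_smul, ← geo]
      have h1 : (g (g^[M] x) - x) - (geo μ M • (g x - x) + μ ^ M • (g x - x)) =
          ((g^[M] x - x) - geo μ M • (g x - x)) +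
          ((g (g^[M] x) - g^[M] x) - μ ^ M • (g x - x)) := by abel
      rw [h1]
      exact norm_add_le' (ih x hx) (hcj M x hx)
  refine ⟨fun x hx y hy => ?_, key2 M⟩
  have h1 : (g^[M] x - x) - (g^[M] y - y) =
      (((g^[M] x - x) - (g^[M] y - y)) - geo μ M • ((g x - x) - (g y - y))) +
      geo μ M • ((g x - x) - (g y - y)) := by abel
  rw [h1]
  refine norm_add_le' ((key1 M x hx y hy).trans
    (mul_le_mul_of_nonneg_right (le_max_right _ _) (norm_nonneg _))) ?_
  rw [norm_smul]
  refine mul_le_mul (le_max_left _ _) ?_ (norm_nonneg _) (hη.trans (le_max_right _ _))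
  have h2 : (g x - x) - (g y - y) = (g x - g y) - (x - y) := by abel
  rw [h2]
  exact norm_sub_le' (hlip x hx y hy) le_rfl

end Pool.Agent.W572.G
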