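import Pool.Agent.W572.Density
import Pool.Agent.W572.G.NearId

/-!
# Elimination of one variable, and points of a hypersurface near a smooth point
-/

set_option autoImplicit false

namespace Pool.Agent.W572.G

open MvPolynomial

/-- The resultant without resultants. -/
lemma exists_const {R : Type*} [CommRing R] [IsDomain R] [IsGCDMonoid R] (f h : Polynomial R)
    (hf : Irreducible f) (hd : f.natDegree ≠ 0) (hfh : ¬ f ∣ h) :
    ∃ g : R, g ≠ 0 ∧ ∃ a b : Polynomial R, Polynomial.C g = a * f + b * h := by
  classical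
  have hp := hf.isPrimitive hd
  set K := FractionRing R
  have h1 : Irreducible (f.map (algebraMap R K)) :=
    (Polynomial.IsPrimitive.irreducible_iff_irreducible_map_fraction_map hp).mp hf
  have h2 : ¬ f.map (algebraMap R K) ∣ h.map (algebraMap R K) := fun h3 =>
    hfh (Polynomial.IsPrimitive.dvd_of_fraction_map_dvd_fraction_map hp h3)
  obtain ⟨a, b, hab⟩ := (Irreducible.coprime_iff_not_dvd h1).mpr h2
  obtain ⟨c, hc, hc2⟩ := IsLocalization.integerNormalization_spec (nonZeroDivisors R) a
  obtain ⟨d, hd', hd2⟩ := IsLocalization.integerNormalization_spec (nonZeroDivisors R) b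
  set a' := IsLocalization.integerNormalization (nonZeroDivisors R) a
  set b' := IsLocalization.integerNormalization (nonZeroDivisors R) b
  refine ⟨c * d, mul_ne_zero (nonZeroDivisors.ne_zero hc) (nonZeroDivisors.ne_zero hd'),
    Polynomial.C d * a', Polynomial.C c * b', ?_⟩
  have hinj : Function.Injective (Polynomial.map (algebraMap R K)) :=
    Polynomial.map_injective _ (IsFractionRing.injective R K)
  apply hinj
  simp only [Polynomial.map_add, Polynomial.map_mul, Polynomial.map_C, map_mul]
  rw [hc2, hd2, Algebra.smul_def, Algebra.smul_def, Polynomial.algebraMap_apply,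
    Polynomial.algebraMap_apply]
  linear_combination (- Polynomial.C ((algebraMap R K) c) * Polynomial.C ((algebraMap R K) d)) * hab

/-- Elimination of the variable `l₀` from `F` and `P`. -/
theorem exists_elim {S : Type*} [Field S] {σ : Type*} (F P : MvPolynomial σ S)
    (l₀ : σ) (hF : Irreducible F) (hFl : pderiv l₀ F ≠ 0) (hFP : ¬ F ∣ P) :
    ∃ G : MvPolynomial {l // l ≠ l₀} S, G ≠ 0 ∧ ∃ A B : MvPolynomial σ S,
      rename Subtype.val G = A * F + B * P := by
  classical
  set τ := {l // l ≠ l₀}
  let e₁ : MvPolynomial σ S ≃ₐ[S] MvPolynomial (Option τ) S :=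
    renameEquiv S (Equiv.optionSubtypeNe l₀).symm
  let e : MvPolynomial σ S ≃ₐ[S] Polynomial (MvPolynomial τ S) :=
    e₁.trans (optionEquivLeft S τ)
  have he : ∀ G : MvPolynomial τ S, e (rename Subtype.val G) = Polynomial.C G := by
    intro G
    have h1 : (e : MvPolynomial σ S →ₐ[S] Polynomial (MvPolynomial τ S)).comp
        (rename (Subtype.val : τ → σ)) = (Algebra.ofId (MvPolynomial τ S)
          (Polynomial (MvPolynomial τ S))).restrictScalars S := by
      apply MvPolynomial.algHom_ext
      intro i
      have h2 : (Equiv.optionSubtypeNe l₀).symm (i : σ) = some i := by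
        rw [Equiv.symm_apply_eq]
        simp
      simp only [e, e₁, AlgEquiv.coe_trans, AlgHom.comp_apply, AlgEquiv.coe_toAlgHom,
        rename_X, Function.comp_apply, renameEquiv_apply, h2, optionEquivLeft_X_some]
      rfl
    exact congrArg (fun φ => φ G) (congrArg DFunLike.coe h1)
  have h1 : Irreducible (e F) := (MulEquiv.irreducible_iff e).mpr hF
  have h2 : ¬ e F ∣ e P := fun h => hFP ((map_dvd_iff e).mp h)
  have h3 : (e F).natDegree ≠ 0 := by
    intro h4
    obtain ⟨G, hG⟩ := Polynomial.natDegree_eq_zero.mp h4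
    apply hFl
    have h5 : F = rename Subtype.val G := by
      apply e.injective
      rw [he, hG]
    rw [h5]
    refine pderiv_eq_zero_of_notMem_vars ?_
    intro h6
    have h7 := vars_rename (Subtype.val : τ → σ) G h6
    rw [Finset.mem_image] at h7
    obtain ⟨i, -, hi⟩ := h7
    exact i.2 hi
  obtain ⟨g, hg, a, b, hab⟩ := exists_const (e F) (e P) h1 h3 h2
  refine ⟨g, hg, e.symm a, e.symm b, ?_⟩
  apply e.injective
  rw [he, hab]
  simp

lemma eval_rename_update {S : Type*} [Field S] {σ : Type*} [DecidableEq σ] {l₀ : σ}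
    (G : MvPolynomial {l // l ≠ l₀} S) (x : σ → S) (t : S) :
    eval (Function.update x l₀ t) (rename Subtype.val G) = eval x (rename Subtype.val G) := by
  rw [eval_rename, eval_rename]
  congr 2
  funext i
  simp [Function.comp_apply, Function.update_of_ne i.2]

section near

variable {S : Type*} [NormedField S] [IsUltrametricDist S]

/-- A root near a point where the value is small compared with the derivative. -/
lemma exists_root_near [IsAlgClosed S] (f : Polynomial S) (t : S)
    (h' : f.derivative.eval t ≠ 0) :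
    ∃ α : S, f.eval α = 0 ∧ ‖α - t‖ * ‖f.derivative.eval t‖ ≤ ‖f.eval t‖ := by
  classical
  by_cases h0 : f.eval t = 0
  · exact ⟨t, h0, by simp⟩
  · have h1 := (IsAlgClosed.splits f).eval_derivative_div_eval_of_ne_zero h0
    by_contra hcon
    push Not at hcon
    have hpos : 0 < ‖f.derivative.eval t / f.eval t‖ :=
      norm_pos_iff.mpr (div_ne_zero h' h0)
    have hf0 : f ≠ 0 := by
      rintro rfl
      exact h0 (by simp)
    have h2 : ∀ α ∈ f.roots, ‖1 / (t - α)‖ < ‖f.derivative.eval t / f.eval t‖ := by
      intro α hα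
      have h3 := hcon α (Polynomial.isRoot_of_mem_roots hα)
      have h4 : t ≠ α := by
        rintro rfl
        exact h0 (Polynomial.isRoot_of_mem_roots hα)
      have h5 : 0 < ‖t - α‖ := norm_pos_iff.mpr (sub_ne_zero.mpr h4)
      rw [norm_div, norm_one, norm_div, div_lt_div_iff₀ h5 (norm_pos_iff.mpr h0), one_mul,
        norm_sub_rev t α, mul_comm]
      exact h3
    have h3 : ∀ s : Multiset S, (∀ α ∈ s, ‖1 / (t - α)‖ < ‖f.derivative.eval t / f.eval t‖) →
        ‖(s.map fun α => 1 / (t - α)).sum‖ < ‖f.derivative.eval t / f.eval t‖ := by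
      intro s
      induction s using Multiset.induction_on with
      | empty => intro _; simpa using hpos
      | cons a s ih =>
        intro hs
        rw [Multiset.map_cons, Multiset.sum_cons]
        refine (IsUltrametricDist.norm_add_le_max _ _).trans_lt (max_lt
          (hs a (Multiset.mem_cons_self a s)) (ih fun α hα => hs α (Multiset.mem_cons_of_mem hα)))
    have h4 := h3 f.roots h2
    rw [← h1] at h4
    exact lt_irrefl _ h4

omit [IsUltrametricDist S] in
/-- Nonzero polynomials do not vanish identically on balls. -/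
lemma exists_ball_ne [Infinite S] {σ : Type*} [Fintype σ] (c : S) (hc0 : c ≠ 0) (hc1 : ‖c‖ < 1)
    (P : MvPolynomial σ S) (hP : P ≠ 0) (r : σ → S) {δ : ℝ} (hδ : 0 < δ) :
    ∃ x : σ → S, ‖x - r‖ < δ ∧ eval x P ≠ 0 := by
  classical
  -- an infinite set of scalars of small norm
  have hinf : {a : S | ‖a‖ < δ}.Infinite := by
    obtain ⟨m, hm⟩ : ∃ m : ℕ, ‖c‖ ^ m < δ :=
      ((tendsto_pow_atTop_nhds_zero_of_lt_one (norm_nonneg _) hc1).eventually
        (gt_mem_nhds hδ)).exists
    have h1 : (Set.range fun k : ℕ => c ^ (m + k)).Infinite := by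
      apply Set.infinite_range_of_injective
      intro k k' hk
      have h2 : ‖c‖ ^ (m + k) = ‖c‖ ^ (m + k') := by
        rw [← norm_pow, ← norm_pow]
        exact congrArg _ hk
      have h3 := (pow_right_injective₀ (norm_pos_iff.mpr hc0) hc1.ne) h2
      simpa using h3
    refine h1.mono ?_
    rintro _ ⟨k, rfl⟩
    rw [Set.mem_ofPred_eq, norm_pow]
    refine lt_of_le_of_lt ?_ hm
    exact pow_le_pow_of_le_one (norm_nonneg _) hc1.le (Nat.le_add_right _ _)
  by_contra hcon
  push Not at hcon
  apply hP
  refine MvPolynomial.funext_set (fun j : σ => {a : S | ‖a - r j‖ < δ}) (fun j => ?_) ?_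
  · have h1 : (fun a => a + r j) '' {a : S | ‖a‖ < δ} ⊆ {a : S | ‖a - r j‖ < δ} := by
      rintro _ ⟨a, ha, rfl⟩
      simpa using ha
    exact (hinf.image (add_left_injective (r j)).injOn).mono h1
  · intro x hx
    rw [map_zero]
    apply hcon
    rw [pi_norm_lt_iff hδ]
    intro j
    exact hx j (Set.mem_univ j)

open Filter Topology in
/-- Points of an irreducible hypersurface near a smooth point, outside a proper closed subset. -/
theorem exists_near_point [IsAlgClosed S] [CharZero S] {σ : Type*} [Fintype σ]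
    (c : S) (hc0 : c ≠ 0) (hc1 : ‖c‖ < 1) (F P : MvPolynomial σ S) (hF : Irreducible F)
    (r : σ → S) (hr : eval r F = 0) (l₀ : σ) (hl₀ : eval r (pderiv l₀ F) ≠ 0) (hFP : ¬ F ∣ P)
    {δ : ℝ} (hδ : 0 < δ) : ∃ x : σ → S, ‖x - r‖ < δ ∧ eval x F = 0 ∧ eval x P ≠ 0 := by
  classical
  have hFl : pderiv l₀ F ≠ 0 := by
    intro h
    rw [h, map_zero] at hl₀
    exact hl₀ rfl
  obtain ⟨G, hG, A, B, hAB⟩ := exists_elim F P l₀ hF hFl hFP
  have hpos : 0 < ‖eval r (pderiv l₀ F)‖ := norm_pos_iff.mpr hl₀
  -- continuity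
  have h1 : ∀ᶠ y in 𝓝 r, ‖eval y F‖ < δ * ‖eval r (pderiv l₀ F)‖ := by
    have hc : Continuous (fun y : σ → S => ‖eval y F‖) := (MvPolynomial.continuous_eval F).norm
    refine (hc.tendsto r).eventually (gt_mem_nhds ?_)
    rw [hr, norm_zero]; positivity
  have h2 : ∀ᶠ y in 𝓝 r, ‖eval y (pderiv l₀ F) - eval r (pderiv l₀ F)‖ <
      ‖eval r (pderiv l₀ F)‖ := by
    have hc : Continuous (fun y : σ → S => ‖eval y (pderiv l₀ F) - eval r (pderiv l₀ F)‖) :=
      ((MvPolynomial.continuous_eval _).sub continuous_const).norm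
    refine (hc.tendsto r).eventually (gt_mem_nhds ?_)
    rw [sub_self, norm_zero]; exact hpos
  obtain ⟨ρ, hρ, h3⟩ := Metric.eventually_nhds_iff_ball.mp (h1.and h2)
  have hG' : rename Subtype.val G ≠ 0 := by
    intro h
    exact hG (rename_injective _ Subtype.val_injective (by rw [h, map_zero]))
  obtain ⟨y, hy, hyG⟩ := exists_ball_ne c hc0 hc1 _ hG' r (lt_min hρ hδ)
  set y' := Function.update y l₀ (r l₀) with hy'
  have hy'n : ‖y' - r‖ < min ρ δ := by
    rw [pi_norm_lt_iff (lt_min hρ hδ)]
    intro l
    by_cases h : l = l₀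
    · subst h
      rw [hy', Pi.sub_apply, Function.update_self, sub_self, norm_zero]
      exact lt_min hρ hδ
    · rw [hy', Pi.sub_apply, Function.update_of_ne h]
      exact (norm_le_pi_norm (y - r) l).trans_lt hy
  obtain ⟨h4, h5⟩ := h3 y' (by
    rw [Metric.mem_ball, dist_eq_norm]; exact hy'n.trans_le (min_le_left _ _))
  have h6 : ‖eval y' (pderiv l₀ F)‖ = ‖eval r (pderiv l₀ F)‖ := norm_eq_of_sub_lt h5
  -- the line through `y'` parallel to the axis
  let lam : σ → Polynomial (MvPolynomial σ S) :=
    fun l => Polynomial.C (X l) + if l = l₀ then Polynomial.X else 0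
  have hlam0 : ∀ l, (lam l).coeff 0 = X l := by
    intro l
    simp only [lam]
    split_ifs <;> simp
  have hdir : dir lam = pderiv l₀ := by
    apply MvPolynomial.derivation_ext
    intro l
    rw [dir, mkDerivation_X, pderiv_X]
    simp only [lam]
    rw [Polynomial.coeff_add, Polynomial.coeff_C]
    by_cases h : l = l₀
    · subst h; simp
    · simp [h]
  set f : Polynomial S := ((aeval lam) F).map (eval y') with hf
  have hf0 : f.eval 0 = eval y' F := by
    rw [← Polynomial.coeff_zero_eq_eval_zero, hf, Polynomial.coeff_map,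
      coeff_zero_curve lam hlam0]
  have hf1 : f.derivative.eval 0 = eval y' (pderiv l₀ F) := by
    rw [← Polynomial.coeff_zero_eq_eval_zero, Polynomial.coeff_derivative, hf,
      Polynomial.coeff_map, zero_add, coeff_one_curve lam hlam0, hdir]
    simp
  obtain ⟨α, hα, hα2⟩ := exists_root_near f 0 (by
    rw [hf1]; intro h; rw [h, norm_zero] at h6; exact hpos.ne h6)
  rw [hf0, hf1, h6, sub_zero] at hα2
  have hαδ : ‖α‖ < δ := by
    by_contra hcon
    push Not at hcon
    have h7 : δ * ‖eval r (pderiv l₀ F)‖ ≤ ‖α‖ * ‖eval r (pderiv l₀ F)‖ :=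
      mul_le_mul_of_nonneg_right hcon hpos.le
    linarith
  have hpt : (fun l => ((lam l).map (eval y')).eval α) = Function.update y l₀ (r l₀ + α) := by
    funext l
    simp only [lam]
    by_cases h : l = l₀
    · subst h
      simp [hy']
    · simp [h, hy', Function.update_of_ne h]
  have hroot : eval (Function.update y l₀ (r l₀ + α)) F = 0 := by
    rw [← hpt, ← eval_curve]
    exact hα
  refine ⟨Function.update y l₀ (r l₀ + α), ?_, hroot, fun hP => hyG ?_⟩
  · rw [pi_norm_lt_iff hδ]
    intro l
    by_cases h : l = l₀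
    · subst h
      rw [Pi.sub_apply, Function.update_self, add_sub_cancel_left]
      exact hαδ
    · rw [Pi.sub_apply, Function.update_of_ne h]
      exact (norm_le_pi_norm (y - r) l).trans_lt (hy.trans_le (min_le_right _ _))
  · rw [← eval_rename_update G y (r l₀ + α), hAB, map_add, map_mul, map_mul, hroot, hP]
    ring

end near

end Pool.Agent.W572.G
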