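import Pool.Agent.W572.G.Local

/-!
# Functions vanishing along the orbits have zero derivative along the fibres
-/

set_option autoImplicit false

namespace Pool.Agent.W572.G

open Matrix Filter Topology

variable {S : Type*} [NormedField S] [IsUltrametricDist S] {σ : Type*} [Fintype σ]

/-- Points near `r`: the bound of `system_bound` persists. -/
lemma near_bound {τ : Type*} [Finite τ] (hS : Small S) (B : τ → (σ → S) → S) (β : τ → σ → S)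
    (r : σ → S) (hB : ∀ t, SD (B t) (β t) r) (l : σ)
    (hinj : ∀ w : σ → S, (∀ t, β t ⬝ᵥ w = 0) → w l = 0 → w = 0) :
    ∃ C : ℝ, 0 < C ∧ ∃ δ : ℝ, 0 < δ ∧ ∀ x : σ → S, ‖x - r‖ < δ → ∀ b : τ → σ → S,
      (∀ t, SD (B t) (b t) x) → ∀ (w : σ → S) (c : ℝ), 0 ≤ c → (∀ t, ‖b t ⬝ᵥ w‖ ≤ c) →
        ‖w l‖ ≤ c → ‖w‖ ≤ C * c := by
  classical
  obtain ⟨C, hC, hCb⟩ := system_bound β l hinj
  have hη : 0 < 1 / (2 * C) := by positivity
  choose δ hδ h1 using fun t => SD_near hS (hB t) hη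
  obtain ⟨ρ, hρ, h2⟩ : ∃ ρ : ℝ, 0 < ρ ∧ ∀ t, ρ ≤ δ t := by
    have := Fintype.ofFinite τ
    rcases isEmpty_or_nonempty τ with h | h
    · exact ⟨1, one_pos, fun t => (h.false t).elim⟩
    · refine ⟨Finset.univ.inf' Finset.univ_nonempty δ, ?_,
        fun t => Finset.inf'_le _ (Finset.mem_univ t)⟩
      rw [Finset.lt_inf'_iff]
      exact fun t _ => hδ t
  refine ⟨C, hC, ρ, hρ, fun x hx b hb w c hc h3 h4 => ?_⟩
  have h5 : ∀ t, ‖β t ⬝ᵥ w‖ ≤ max c (1 / (2 * C) * ‖w‖) := by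
    intro t
    have h6 := h1 t x (hx.trans_le (h2 t)) (b t) (hb t) w
    have h7 : β t ⬝ᵥ w = (β t ⬝ᵥ w - b t ⬝ᵥ w) + b t ⬝ᵥ w := by ring
    rw [h7]
    exact norm_add_le' (h6.trans (le_max_right _ _)) ((h3 t).trans (le_max_left _ _))
  have h6 := hCb w _ (hc.trans (le_max_left _ _)) h5 (h4.trans (le_max_left _ _))
  rcases le_total c (1 / (2 * C) * ‖w‖) with h7 | h7
  · rw [max_eq_right h7] at h6
    have h8 : C * (1 / (2 * C) * ‖w‖) = ‖w‖ / 2 := by field_simp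
    rw [h8] at h6
    have h9 := norm_nonneg w
    have h10 : ‖w‖ = 0 := by linarith
    rw [h10]; positivity
  · rwa [max_eq_left h7] at h6

theorem limit_dot {τ : Type*} [Finite τ] {x : σ → S} (B : τ → (σ → S) → S) (β : τ → σ → S)
    (hB : ∀ t, SD (B t) (β t) x) (l : σ) (C : ℝ) (hC0 : 0 < C)
    (hC : ∀ (w : σ → S) (c : ℝ), 0 ≤ c → (∀ t, ‖β t ⬝ᵥ w‖ ≤ c) → ‖w l‖ ≤ c → ‖w‖ ≤ C * c)
    (v : σ → S) (hv : ∀ t, β t ⬝ᵥ v = 0) (f : (σ → S) → S) (a : σ → S) (hf : SD f a x)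
    (y : ℕ → σ → S) (hy0 : ∀ n, y n ≠ x)
    (hy : Tendsto (fun n => ‖y n - x‖) atTop (𝓝 0))
    (hBy : ∀ n t, B t (y n) = B t x) (hfy : ∀ n, f (y n) = f x) : a ⬝ᵥ v = 0 := by
  classical
  by_contra hne
  have hpos : 0 < ‖a ⬝ᵥ v‖ := norm_pos_iff.mpr hne
  set K : ℝ := max (‖a‖ * C) 1 * ‖v l‖ * C with hK
  have hK0 : 0 ≤ K := by positivity
  obtain ⟨η, hη, hη1, hη2⟩ : ∃ η : ℝ, 0 < η ∧ C * η ≤ 1 / 2 ∧ K * η < ‖a ⬝ᵥ v‖ := by
    refine ⟨min (1 / (2 * C)) (‖a ⬝ᵥ v‖ / (2 * (K + 1))), by positivity, ?_, ?_⟩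
    · calc C * min (1 / (2 * C)) (‖a ⬝ᵥ v‖ / (2 * (K + 1))) ≤ C * (1 / (2 * C)) :=
            mul_le_mul_of_nonneg_left (min_le_left _ _) hC0.le
        _ = 1 / 2 := by field_simp
    · calc K * min (1 / (2 * C)) (‖a ⬝ᵥ v‖ / (2 * (K + 1)))
          ≤ K * (‖a ⬝ᵥ v‖ / (2 * (K + 1))) := mul_le_mul_of_nonneg_left (min_le_right _ _) hK0
        _ = (K / (K + 1)) * (‖a ⬝ᵥ v‖ / 2) := by field_simp
        _ ≤ 1 * (‖a ⬝ᵥ v‖ / 2) := by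
            refine mul_le_mul_of_nonneg_right ?_ (by positivity)
            rw [div_le_one (by positivity)]; linarith
        _ < ‖a ⬝ᵥ v‖ := by linarith
  obtain ⟨δ₁, hδ₁, h1⟩ := SD_family hB hη
  obtain ⟨δ₂, hδ₂, h2⟩ := hf η hη
  obtain ⟨n, hn⟩ := (hy.eventually (gt_mem_nhds (lt_min hδ₁ hδ₂))).exists
  set u : σ → S := y n - x with hu
  have hx0 : ‖x - x‖ = 0 := by simp
  have hu0 : u ≠ 0 := sub_ne_zero.mpr (hy0 n)
  have hupos : 0 < ‖u‖ := norm_pos_iff.mpr hu0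
  have h3 : ∀ t, ‖β t ⬝ᵥ u‖ ≤ η * ‖u‖ := by
    intro t
    have h4 := h1 (y n) x (hn.trans_le (min_le_left _ _)) (by rw [hx0]; exact hδ₁) t
    rwa [hBy n t, sub_self, zero_sub, norm_neg] at h4
  have h4 : ‖a ⬝ᵥ u‖ ≤ η * ‖u‖ := by
    have h5 := h2 (y n) x (hn.trans_le (min_le_right _ _)) (by rw [hx0]; exact hδ₂)
    rwa [hfy n, sub_self, zero_sub, norm_neg] at h5
  -- the coordinate `l` dominates
  have h5 : ‖u‖ ≤ C * ‖u l‖ := by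
    have h6 := hC u (max (η * ‖u‖) ‖u l‖) (by positivity)
      (fun t => (h3 t).trans (le_max_left _ _)) (le_max_right _ _)
    rcases le_total (η * ‖u‖) ‖u l‖ with h7 | h7
    · rwa [max_eq_right h7] at h6
    · rw [max_eq_left h7, ← mul_assoc] at h6
      have h8 : C * η * ‖u‖ ≤ 1 / 2 * ‖u‖ := mul_le_mul_of_nonneg_right hη1 hupos.le
      linarith
  have hul : 0 < ‖u l‖ := by
    by_contra hcon
    have h6 : ‖u l‖ = 0 := le_antisymm (not_lt.mp hcon) (norm_nonneg _)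
    rw [h6, mul_zero] at h5
    linarith
  set z : σ → S := u l • v - v l • u with hz
  have hzl : z l = 0 := by simp [hz, mul_comm]
  have hzn : ‖z‖ ≤ C * (‖v l‖ * (η * ‖u‖)) := by
    refine hC z _ (by positivity) (fun t => ?_) (by rw [hzl, norm_zero]; positivity)
    rw [hz, dotProduct_sub, dotProduct_smul, dotProduct_smul, hv, smul_zero, zero_sub, norm_neg,
      norm_smul]
    exact mul_le_mul_of_nonneg_left (h3 t) (norm_nonneg _)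
  have h6 : ‖u l‖ * ‖a ⬝ᵥ v‖ ≤ max (‖a‖ * C) 1 * ‖v l‖ * (η * ‖u‖) := by
    rw [← norm_mul]
    have h7 : u l * (a ⬝ᵥ v) = a ⬝ᵥ z + v l * (a ⬝ᵥ u) := by
      rw [hz, dotProduct_sub, dotProduct_smul, dotProduct_smul, smul_eq_mul, smul_eq_mul]
      ring
    rw [h7]
    refine norm_add_le' ?_ ?_
    · refine (dot_le (le_refl ‖a‖) hzn).trans ?_
      calc ‖a‖ * (C * (‖v l‖ * (η * ‖u‖))) = (‖a‖ * C) * ‖v l‖ * (η * ‖u‖) := by ring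
        _ ≤ max (‖a‖ * C) 1 * ‖v l‖ * (η * ‖u‖) := by
            have := le_max_left (‖a‖ * C) 1
            gcongr
    · rw [norm_mul]
      calc ‖v l‖ * ‖a ⬝ᵥ u‖ ≤ ‖v l‖ * (η * ‖u‖) :=
            mul_le_mul_of_nonneg_left h4 (norm_nonneg _)
        _ = 1 * ‖v l‖ * (η * ‖u‖) := by ring
        _ ≤ max (‖a‖ * C) 1 * ‖v l‖ * (η * ‖u‖) := by
            have := le_max_right (‖a‖ * C) 1
            gcongr
  have h7 : ‖u l‖ * ‖a ⬝ᵥ v‖ ≤ ‖u l‖ * (K * η) := by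
    refine h6.trans ?_
    calc max (‖a‖ * C) 1 * ‖v l‖ * (η * ‖u‖)
        ≤ max (‖a‖ * C) 1 * ‖v l‖ * (η * (C * ‖u l‖)) := by gcongr
      _ = ‖u l‖ * (K * η) := by rw [hK]; ring
  have h8 := le_of_mul_le_mul_left h7 hul
  linarith

/-- Iterates returning to a point which is not fixed. -/
theorem exists_seq {p : ℕ} (hp0 : (p : S) ≠ 0) (hp1 : ‖(p : S)‖ < 1) {D : Set (σ → S)}
    {g : (σ → S) → (σ → S)} {μ : S} {η : ℝ} (hη : 0 ≤ η) (hμ : ‖μ‖ ≤ 1)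
    (hD : ∀ x ∈ D, g x ∈ D) (hlip : ∀ x ∈ D, ∀ y ∈ D, ‖g x - g y‖ ≤ ‖x - y‖)
    (hb : ∀ x ∈ D, ∀ y ∈ D,
      ‖((g (g x) - g x) - (g (g y) - g y)) - μ • ((g x - x) - (g y - y))‖ ≤ η * ‖x - y‖)
    (hc : ∀ x ∈ D, ‖(g (g x) - g x) - μ • (g x - x)‖ ≤ η * ‖g x - x‖)
    (M : ℕ) (h1 : η < ‖(p : S)‖) (h2 : ‖geo μ M‖ < ‖(p : S)‖) (h3 : η < ‖geo μ M‖)
    {x : σ → S} (hx : x ∈ D) (hgx : g x ≠ x) :
    ∃ k : ℕ → ℕ, Tendsto (fun a => ‖g^[k a] x - x‖) atTop (𝓝 0) ∧ ∀ a, g^[k a] x ≠ x := by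
  obtain ⟨hL, hM⟩ := iterate_estimates hη hμ hD hlip hb hc M
  have hκ : max ‖geo μ M‖ η < ‖(p : S)‖ := max_lt h2 h1
  have hw : 0 < ‖g x - x‖ := norm_pos_iff.mpr (sub_ne_zero.mpr hgx)
  have h4 : ‖g^[M] x - x‖ = ‖geo μ M‖ * ‖g x - x‖ := by
    rw [← norm_smul]
    apply norm_eq_of_sub_lt
    refine (hM x hx).trans_lt ?_
    rw [norm_smul]
    exact mul_lt_mul_of_pos_right h3 hw
  have h5 := norm_iterate_sub (S := S) (hη.trans (le_max_right _ _)) hp1 hκ D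
  have h6 : ∀ a, ‖g^[M * p ^ a] x - x‖ = ‖(p : S)‖ ^ a * (‖geo μ M‖ * ‖g x - x‖) := by
    intro a
    rw [Function.iterate_mul, h5 a _ (mapsTo_iterate hD M) hL x hx, h4]
  refine ⟨fun a => M * p ^ a, ?_, fun a ha => ?_⟩
  · simp_rw [h6]
    have h7 := (tendsto_pow_atTop_nhds_zero_of_lt_one (norm_nonneg (p : S)) hp1).mul_const
      (‖geo μ M‖ * ‖g x - x‖)
    rwa [zero_mul] at h7
  · have h7 := h6 a
    simp only at ha
    rw [ha, sub_self, norm_zero] at h7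
    have h8 : 0 < ‖(p : S)‖ := norm_pos_iff.mpr hp0
    have h9 : 0 < ‖geo μ M‖ := hη.trans_lt h3
    have : 0 < ‖(p : S)‖ ^ a * (‖geo μ M‖ * ‖g x - x‖) := by positivity
    linarith

end Pool.Agent.W572.G
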