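import Pool.Agent.W572.G.SD

/-!
# Local estimates for a self-map preserving a fibration in curves
-/

set_option autoImplicit false

namespace Pool.Agent.W572.G

open Matrix

variable {S : Type*} [NormedField S] [IsUltrametricDist S] {σ : Type*} [Fintype σ]

lemma dot_le {a w : σ → S} {A c : ℝ} (ha : ‖a‖ ≤ A) (hw : ‖w‖ ≤ c) : ‖a ⬝ᵥ w‖ ≤ A * c := by
  have hA : 0 ≤ A := (norm_nonneg _).trans ha
  have hc : 0 ≤ c := (norm_nonneg _).trans hw
  refine IsUltrametricDist.norm_sum_le_of_forall_le_of_nonneg (by positivity) fun j _ => ?_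
  rw [norm_mul]
  exact mul_le_mul ((norm_le_pi_norm a j).trans ha) ((norm_le_pi_norm w j).trans hw)
    (norm_nonneg _) hA

lemma linear_bound {τ : Type*} [Finite τ] (Λ : (τ → S) →ₗ[S] (σ → S)) :
    ∃ C : ℝ, 0 < C ∧ ∀ (u : τ → S) (c : ℝ), 0 ≤ c → (∀ t, ‖u t‖ ≤ c) → ‖Λ u‖ ≤ C * c := by
  classical
  have := Fintype.ofFinite τ
  obtain ⟨C, hC⟩ := (Set.finite_range (fun t => ‖Λ (Pi.single t 1)‖)).bddAbove
  refine ⟨max C 0 + 1, by positivity, fun u c hc hu => ?_⟩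
  have h1 : u = ∑ t, u t • (Pi.single t 1 : τ → S) := by
    funext t
    simp [Finset.sum_apply, Pi.single_apply]
  rw [h1, map_sum]
  refine IsUltrametricDist.norm_sum_le_of_forall_le_of_nonneg (by positivity) fun t _ => ?_
  rw [map_smul, norm_smul, mul_comm]
  refine mul_le_mul ?_ (hu t) (norm_nonneg _) (by positivity)
  have h2 : ‖Λ (Pi.single t 1)‖ ≤ C := hC ⟨t, rfl⟩
  have := le_max_left C 0
  linarith

/-- An injective system of linear equations bounds the norm. -/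
lemma system_bound {τ : Type*} [Finite τ] (β : τ → σ → S) (l : σ)
    (hinj : ∀ w : σ → S, (∀ t, β t ⬝ᵥ w = 0) → w l = 0 → w = 0) :
    ∃ C : ℝ, 0 < C ∧ ∀ (w : σ → S) (c : ℝ), 0 ≤ c → (∀ t, ‖β t ⬝ᵥ w‖ ≤ c) → ‖w l‖ ≤ c →
      ‖w‖ ≤ C * c := by
  classical
  let T : (σ → S) →ₗ[S] (Option τ → S) :=
    { toFun := fun w o => o.elim (w l) (fun t => β t ⬝ᵥ w)
      map_add' := by
        intro w w'
        funext o
        cases o with
        | none => rfl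
        | some t => simp [dotProduct_add]
      map_smul' := by
        intro c w
        funext o
        cases o with
        | none => rfl
        | some t => simp [dotProduct_smul] }
  have hT : T.ker = ⊥ := by
    rw [LinearMap.ker_eq_bot']
    intro w hw
    exact hinj w (fun t => congrFun hw (some t)) (congrFun hw none)
  obtain ⟨Λ, hΛ⟩ := T.exists_leftInverse_of_injective hT
  obtain ⟨C, hC, h1⟩ := linear_bound Λ
  refine ⟨C, hC, fun w c hc h2 h3 => ?_⟩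
  have h4 : Λ (T w) = w := congrFun (congrArg DFunLike.coe hΛ) w
  rw [← h4]
  refine h1 _ c hc fun o => ?_
  cases o with
  | none => exact h3
  | some t => exact h2 t

/-- gradients at nearby points are close -/
lemma SD_near (hS : Small S) {f : (σ → S) → S} {a r : σ → S} (hf : SD f a r) {η : ℝ}
    (hη : 0 < η) : ∃ δ : ℝ, 0 < δ ∧ ∀ x : σ → S, ‖x - r‖ < δ → ∀ b : σ → S, SD f b x →
      ∀ w : σ → S, ‖a ⬝ᵥ w - b ⬝ᵥ w‖ ≤ η * ‖w‖ := by
  obtain ⟨δ, hδ, h1⟩ := hf η hη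
  refine ⟨δ, hδ, fun x hx b hb w => ?_⟩
  obtain ⟨ρ, hρ, h2⟩ := hb η hη
  obtain ⟨c, hc0, hc1⟩ := hS
  -- a small multiple of `w`
  obtain ⟨m, hm⟩ : ∃ m : ℕ, ‖c‖ ^ m * ‖w‖ < min ρ δ := by
    have h3 : Filter.Tendsto (fun m : ℕ => ‖c‖ ^ m * ‖w‖) Filter.atTop (nhds (0 * ‖w‖)) :=
      (tendsto_pow_atTop_nhds_zero_of_lt_one (norm_nonneg _) hc1).mul_const _
    rw [zero_mul] at h3
    exact (h3.eventually (gt_mem_nhds (lt_min hρ hδ))).exists
  set u : σ → S := c ^ m • w with hu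
  have hun : ‖u‖ < min ρ δ := by rw [hu, norm_smul, norm_pow]; exact hm
  have h3 := h1 (x + u) x (by
    have : x + u - r = (x - r) + u := by abel
    rw [this]
    refine (IsUltrametricDist.norm_add_le_max _ _).trans_lt (max_lt hx ?_)
    exact hun.trans_le (min_le_right _ _)) hx
  have h4 := h2 (x + u) x (by
    have : x + u - x = u := by abel
    rw [this]
    exact hun.trans_le (min_le_left _ _)) (by simpa using hρ)
  have h5 : x + u - x = u := by abel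
  rw [h5] at h3 h4
  have h6 : ‖a ⬝ᵥ u - b ⬝ᵥ u‖ ≤ η * ‖u‖ := by
    have h7 : a ⬝ᵥ u - b ⬝ᵥ u = (f (x + u) - f x - b ⬝ᵥ u) - (f (x + u) - f x - a ⬝ᵥ u) := by
      ring
    rw [h7]
    exact norm_sub_le' h4 h3
  rw [hu, dotProduct_smul, dotProduct_smul, ← smul_sub, norm_smul, norm_smul] at h6
  have h8 : 0 < ‖c ^ m‖ := norm_pos_iff.mpr (pow_ne_zero _ hc0)
  have h9 : ‖c ^ m‖ * ‖a ⬝ᵥ w - b ⬝ᵥ w‖ ≤ ‖c ^ m‖ * (η * ‖w‖) := by
    calc _ ≤ _ := h6
      _ = _ := by ring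
  exact le_of_mul_le_mul_left h9 h8

/-- finite families of strictly differentiable functions -/
lemma SD_family {τ : Type*} [Finite τ] {B : τ → (σ → S) → S} {β : τ → σ → S} {r : σ → S}
    (hB : ∀ t, SD (B t) (β t) r) {η : ℝ} (hη : 0 < η) :
    ∃ δ : ℝ, 0 < δ ∧ ∀ y z : σ → S, ‖y - r‖ < δ → ‖z - r‖ < δ → ∀ t,
      ‖B t y - B t z - β t ⬝ᵥ (y - z)‖ ≤ η * ‖y - z‖ := by
  classical
  have := Fintype.ofFinite τ
  choose δ hδ h1 using fun t => hB t η hη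
  obtain ⟨ρ, hρ, h2⟩ : ∃ ρ : ℝ, 0 < ρ ∧ ∀ t, ρ ≤ δ t := by
    rcases isEmpty_or_nonempty τ with h | h
    · exact ⟨1, one_pos, fun t => (h.false t).elim⟩
    · refine ⟨Finset.univ.inf' Finset.univ_nonempty δ, ?_, fun t => Finset.inf'_le _ (Finset.mem_univ t)⟩
      rw [Finset.lt_inf'_iff]
      exact fun t _ => hδ t
  exact ⟨ρ, hρ, fun y z hy hz t => h1 t y z (hy.trans_le (h2 t)) (hz.trans_le (h2 t))⟩

/-- The local estimates. -/
theorem local_estimates {τ : Type*} [Finite τ] (D₀ : Set (σ → S)) (g : (σ → S) → (σ → S))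
    (r : σ → S) (hr : r ∈ D₀) (hgr : g r = r) (J : Matrix σ σ S)
    (hg : ∀ l, SD (fun y => g y l) (J l) r) (hJ : ∀ l, ‖J l‖ ≤ 1)
    (B : τ → (σ → S) → S) (β : τ → σ → S) (hB : ∀ t, SD (B t) (β t) r)
    (v : σ → S) (l : σ) (hvl : v l ≠ 0) (hβv : ∀ t, β t ⬝ᵥ v = 0) (μ : S) (hμ : ‖μ‖ ≤ 1)
    (hJv : J *ᵥ v = μ • v)
    (hinj : ∀ w : σ → S, (∀ t, β t ⬝ᵥ w = 0) → w l = 0 → w = 0)
    (ρ : ℝ) (hρ : 0 < ρ) (hD : ∀ x ∈ D₀, ‖x - r‖ < ρ → g x ∈ D₀ ∧ ∀ t, B t (g x) = B t x)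
    (η : ℝ) (hη : 0 < η) (hη1 : η ≤ 1) :
    ∃ δ : ℝ, 0 < δ ∧ δ ≤ ρ ∧ ∀ D : Set (σ → S), ∀ δ' : ℝ, δ' ≤ δ →
      D = {x | x ∈ D₀ ∧ ‖x - r‖ < δ'} →
      (∀ x ∈ D, g x ∈ D) ∧ (∀ x ∈ D, ∀ y ∈ D, ‖g x - g y‖ ≤ ‖x - y‖) ∧
      (∀ x ∈ D, ∀ y ∈ D,
        ‖((g (g x) - g x) - (g (g y) - g y)) - μ • ((g x - x) - (g y - y))‖ ≤ η * ‖x - y‖) ∧
      (∀ x ∈ D, ‖(g (g x) - g x) - μ • (g x - x)‖ ≤ η * ‖g x - x‖) ∧
      (∀ x ∈ D, g x l = x l → g x = x) := by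
  classical
  obtain ⟨C, hC, hCb⟩ := system_bound β l hinj
  -- the small parameter
  set θ : ℝ := η / (2 * max C 1) with hθ
  have hm : 1 ≤ max C 1 := le_max_right _ _
  have hθ0 : 0 < θ := by positivity
  have hθη : θ ≤ η := by
    rw [hθ, div_le_iff₀ (by positivity)]
    nlinarith
  have hCθ : C * θ ≤ η / 2 := by
    have h1 : C ≤ max C 1 := le_max_left _ _
    have h2 : max C 1 * θ = η / 2 := by rw [hθ]; field_simp
    rw [← h2]
    exact mul_le_mul_of_nonneg_right h1 hθ0.le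
  obtain ⟨δ₁, hδ₁, h1⟩ := SD_family hg hθ0
  obtain ⟨δ₂, hδ₂, h2⟩ := SD_family hB hθ0
  have hJw : ∀ w : σ → S, ‖J *ᵥ w‖ ≤ ‖w‖ := by
    intro w
    rw [pi_norm_le_iff_of_nonneg (norm_nonneg _)]
    intro l'
    have := dot_le (hJ l') (le_refl ‖w‖)
    rwa [one_mul] at this
  have hvec : ∀ y z : σ → S, ‖y - r‖ < δ₁ → ‖z - r‖ < δ₁ →
      ‖g y - g z - J *ᵥ (y - z)‖ ≤ θ * ‖y - z‖ := by
    intro y z hy hz
    rw [pi_norm_le_iff_of_nonneg (by positivity)]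
    intro l'
    exact h1 y z hy hz l'
  have hcl : ∀ w : σ → S, ∀ c : ℝ, 0 ≤ c → (∀ t, ‖β t ⬝ᵥ w‖ ≤ c) →
      ‖J *ᵥ w - μ • w‖ ≤ C * c := by
    intro w c hc h3
    set z : σ → S := w - (w l / v l) • v with hz
    have hzl : z l = 0 := by
      rw [hz, Pi.sub_apply, Pi.smul_apply, smul_eq_mul, div_mul_cancel₀ _ hvl, sub_self]
    have hzn : ‖z‖ ≤ C * c := by
      refine hCb z c hc (fun t => ?_) (by rw [hzl, norm_zero]; exact hc)
      rw [hz, dotProduct_sub, dotProduct_smul, hβv, smul_zero, sub_zero]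
      exact h3 t
    have h4 : J *ᵥ w - μ • w = J *ᵥ z - μ • z := by
      rw [hz, mulVec_sub, mulVec_smul, hJv, smul_sub, smul_smul, smul_smul, mul_comm μ]
      abel
    rw [h4]
    refine norm_sub_le' ((hJw z).trans hzn) ?_
    rw [norm_smul]
    calc ‖μ‖ * ‖z‖ ≤ 1 * ‖z‖ := mul_le_mul_of_nonneg_right hμ (norm_nonneg _)
      _ ≤ C * c := by rw [one_mul]; exact hzn
  have hlip : ∀ y z : σ → S, ‖y - r‖ < δ₁ → ‖z - r‖ < δ₁ → ‖g y - g z‖ ≤ ‖y - z‖ := by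
    intro y z hy hz
    have h3 : g y - g z = (g y - g z - J *ᵥ (y - z)) + J *ᵥ (y - z) := by abel
    rw [h3]
    refine norm_add_le' ((hvec y z hy hz).trans ?_) (hJw _)
    calc θ * ‖y - z‖ ≤ 1 * ‖y - z‖ :=
          mul_le_mul_of_nonneg_right (hθη.trans hη1) (norm_nonneg _)
      _ = _ := one_mul _
  refine ⟨min ρ (min δ₁ δ₂), lt_min hρ (lt_min hδ₁ hδ₂), min_le_left _ _, ?_⟩
  rintro D δ' hδ' rfl
  have hρ' : ∀ x : σ → S, ‖x - r‖ < δ' → ‖x - r‖ < ρ := fun x hx =>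
    (hx.trans_le hδ').trans_le (min_le_left _ _)
  have hδ₁' : ∀ x : σ → S, ‖x - r‖ < δ' → ‖x - r‖ < δ₁ := fun x hx =>
    (hx.trans_le hδ').trans_le ((min_le_right _ _).trans (min_le_left _ _))
  have hδ₂' : ∀ x : σ → S, ‖x - r‖ < δ' → ‖x - r‖ < δ₂ := fun x hx =>
    (hx.trans_le hδ').trans_le ((min_le_right _ _).trans (min_le_right _ _))
  have hst : ∀ x : σ → S, ‖x - r‖ < δ' → ‖g x - r‖ < δ' := by
    intro x hx
    have h3 := hlip x r (hδ₁' x hx) (by simpa using hδ₁)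
    rw [hgr] at h3
    exact h3.trans_lt hx
  refine ⟨fun x hx => ⟨(hD x hx.1 (hρ' x hx.2)).1, hst x hx.2⟩,
    fun x hx y hy => hlip x y (hδ₁' x hx.2) (hδ₁' y hy.2), fun x hx y hy => ?_,
    fun x hx => ?_, fun x hx hxl => ?_⟩
  · -- second differences
    have hx' := hst x hx.2
    have hy' := hst y hy.2
    set w := (g x - x) - (g y - y) with hw
    have h3 : ∀ t, ‖β t ⬝ᵥ w‖ ≤ θ * ‖x - y‖ := by
      intro t
      have h4 := h2 (g x) (g y) (hδ₂' _ hx') (hδ₂' _ hy') t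
      have h5 := h2 x y (hδ₂' _ hx.2) (hδ₂' _ hy.2) t
      rw [(hD x hx.1 (hρ' x hx.2)).2 t, (hD y hy.1 (hρ' y hy.2)).2 t] at h4
      have h6 : β t ⬝ᵥ w = (B t x - B t y - β t ⬝ᵥ (x - y)) -
          (B t x - B t y - β t ⬝ᵥ (g x - g y)) := by
        have : w = (g x - g y) - (x - y) := by rw [hw]; abel
        rw [this, dotProduct_sub]; ring
      rw [h6]
      refine norm_sub_le' h5 (h4.trans ?_)
      exact mul_le_mul_of_nonneg_left (hlip x y (hδ₁' x hx.2) (hδ₁' y hy.2)) hθ0.le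
    have h7 : ((g (g x) - g x) - (g (g y) - g y)) - μ • w =
        ((g (g x) - g (g y) - J *ᵥ (g x - g y)) - (g x - g y - J *ᵥ (x - y))) +
        (J *ᵥ w - μ • w) := by
      have : w = (g x - g y) - (x - y) := by rw [hw]; abel
      rw [show J *ᵥ w = J *ᵥ (g x - g y) - J *ᵥ (x - y) by rw [this, mulVec_sub]]
      abel
    rw [h7]
    refine norm_add_le' (norm_sub_le' ?_ ?_) ?_
    · refine (hvec _ _ (hδ₁' _ hx') (hδ₁' _ hy')).trans ?_
      exact mul_le_mul hθη (hlip x y (hδ₁' x hx.2) (hδ₁' y hy.2)) (norm_nonneg _) hη.le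
    · refine (hvec _ _ (hδ₁' _ hx.2) (hδ₁' _ hy.2)).trans ?_
      exact mul_le_mul_of_nonneg_right hθη (norm_nonneg _)
    · refine (hcl w _ (by positivity) h3).trans ?_
      rw [← mul_assoc]
      refine mul_le_mul_of_nonneg_right (hCθ.trans (by linarith)) (norm_nonneg _)
  · have hx' := hst x hx.2
    set w := g x - x with hw
    have h3 : ∀ t, ‖β t ⬝ᵥ w‖ ≤ θ * ‖w‖ := by
      intro t
      have h4 := h2 (g x) x (hδ₂' _ hx') (hδ₂' _ hx.2) t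
      rw [(hD x hx.1 (hρ' x hx.2)).2 t, sub_self, zero_sub, norm_neg] at h4
      exact h4
    have h7 : (g (g x) - g x) - μ • w = (g (g x) - g x - J *ᵥ (g x - x)) + (J *ᵥ w - μ • w) := by
      rw [← hw]; abel
    rw [h7]
    refine norm_add_le' ?_ ?_
    · refine (hvec _ _ (hδ₁' _ hx') (hδ₁' _ hx.2)).trans ?_
      exact mul_le_mul_of_nonneg_right hθη (norm_nonneg _)
    · refine (hcl w _ (by positivity) h3).trans ?_
      rw [← mul_assoc]
      exact mul_le_mul_of_nonneg_right (hCθ.trans (by linarith)) (norm_nonneg _)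
  · have hx' := hst x hx.2
    set w := g x - x with hw
    have h3 : ∀ t, ‖β t ⬝ᵥ w‖ ≤ θ * ‖w‖ := by
      intro t
      have h4 := h2 (g x) x (hδ₂' _ hx') (hδ₂' _ hx.2) t
      rw [(hD x hx.1 (hρ' x hx.2)).2 t, sub_self, zero_sub, norm_neg] at h4
      exact h4
    have h4 : w l = 0 := by rw [hw, Pi.sub_apply, hxl, sub_self]
    have h5 := hCb w (θ * ‖w‖) (by positivity) h3 (by rw [h4, norm_zero]; positivity)
    have h6 : ‖w‖ ≤ (1 / 2) * ‖w‖ := by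
      calc ‖w‖ ≤ C * (θ * ‖w‖) := h5
        _ = (C * θ) * ‖w‖ := by ring
        _ ≤ (1 / 2) * ‖w‖ :=
          mul_le_mul_of_nonneg_right (hCθ.trans (by linarith)) (norm_nonneg _)
    have h7 : ‖w‖ = 0 := by
      have := norm_nonneg w
      linarith
    exact sub_eq_zero.mp (norm_eq_zero.mp h7)

end Pool.Agent.W572.G
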