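import Pool.Agent.W572.G.Limit
import Pool.Agent.W572.G.Elim
import Pool.Agent.W572.G.Defs

/-!
# The orbits of one fibred self-map
-/

set_option autoImplicit false

namespace Pool.Agent.W572.G

open MvPolynomial Matrix Filter Topology

variable {S : Type*} [NormedField S] [IsUltrametricDist S] {N : ℕ}

omit [IsUltrametricDist S] in
lemma gradRat_dot (P Q : MvPolynomial (Fin N) S) (x w : Fin N → S) :
    gradRat P Q x ⬝ᵥ w = (eval x Q * dirDeriv P x w - eval x P * dirDeriv Q x w) /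
      (eval x Q) ^ 2 := by
  simp only [gradRat, dotProduct, dirDeriv, Finset.mul_sum]
  rw [← Finset.sum_sub_distrib, Finset.sum_div]
  refine Finset.sum_congr rfl fun j _ => ?_
  ring

omit [IsUltrametricDist S] in
lemma dirDeriv_valueAt (D : Derivation S (MvPolynomial (Fin N) S) (MvPolynomial (Fin N) S))
    (P : MvPolynomial (Fin N) S) (x : Fin N → S) :
    dirDeriv P x (valueAt D x) = eval x (D P) := by
  rw [derivation_eq_sum D P, map_sum]
  exact Finset.sum_congr rfl fun l _ => by rw [map_mul]; rfl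

theorem map_package [IsAlgClosed S] [CharZero S] {p : ℕ} (hp0 : (p : S) ≠ 0)
    (hp1 : ‖(p : S)‖ < 1) {F : MvPolynomial (Fin N) S} {r : Fin N → S}
    (hr : eval r F = 0) (g : FibredSelfMap F r)
    (hJ : ∀ l j, ‖gradRat (g.num l) g.den r j‖ ≤ 1) (hμ : ‖g.μ‖ = 1)
    (hroot : ∀ ε : ℝ, 0 < ε → ∃ M : ℕ, 0 < M ∧ ‖g.μ ^ M - 1‖ < ε) :
    ∃ (l : Fin N) (δ : ℝ), 0 < δ ∧
      (∀ δ' ≤ δ, ∀ x, eval x F = 0 → ‖x - r‖ < δ' → eval x g.den ≠ 0 ∧
        eval (ratMap g.num g.den x) F = 0 ∧ ‖ratMap g.num g.den x - r‖ < δ') ∧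
      (∀ x, eval x F = 0 → ‖x - r‖ < δ → ratMap g.num g.den x ≠ x →
        ratMap g.num g.den x l ≠ x l) ∧
      (∀ x, eval x F = 0 → ‖x - r‖ < δ → ratMap g.num g.den x ≠ x →
        ∃ k : ℕ → ℕ, Tendsto (fun a => ‖(ratMap g.num g.den)^[k a] x - x‖) atTop (𝓝 0) ∧
          ∀ a, (ratMap g.num g.den)^[k a] x ≠ x) ∧
      (∀ x, eval x F = 0 → ‖x - r‖ < δ → ∀ (H : MvPolynomial (Fin N) S) (y : ℕ → Fin N → S),
        (∀ n, y n ≠ x) → Tendsto (fun n => ‖y n - x‖) atTop (𝓝 0) →
        (∀ n, ∃ j, y n = (ratMap g.num g.den)^[j] x) → (∀ n, eval (y n) H = eval x H) →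
        eval x (g.velocity H) = 0) := by
  classical
  have hS : Small S := ⟨p, hp0, hp1⟩
  set γ : (Fin N → S) → (Fin N → S) := ratMap g.num g.den with hγ
  set v := valueAt g.velocity r with hv
  obtain ⟨l, hl⟩ : ∃ l, v l ≠ 0 := by
    by_contra hcon
    push Not at hcon
    exact g.velocity_ne (funext hcon)
  -- the invariants
  let B : Option (Fin g.s) → (Fin N → S) → S := fun t y => t.elim (eval y F)
    (fun a => eval y (g.fib a) / eval y g.fibDen)
  let β : (Fin N → S) → Option (Fin g.s) → Fin N → S := fun x t =>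
    t.elim (fun j => eval x (pderiv j F)) (fun a => gradRat (g.fib a) g.fibDen x)
  have hB : ∀ x, eval x g.fibDen ≠ 0 → ∀ t, SD (B t) (β x t) x := by
    intro x hx t
    cases t with
    | none => exact SD_poly hS F x
    | some a => exact SD_rat hS (g.fib a) g.fibDen x hx
  have hβ : ∀ x, ∀ w, β x none ⬝ᵥ w = dirDeriv F x w := fun x w => rfl
  have hβs : ∀ x, ∀ a, ∀ w, β x (some a) ⬝ᵥ w = (eval x g.fibDen * dirDeriv (g.fib a) x w -
      eval x (g.fib a) * dirDeriv g.fibDen x w) / (eval x g.fibDen) ^ 2 :=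
    fun x a w => gradRat_dot _ _ _ _
  have htan : ∀ x, eval x F = 0 → ∀ t, β x t ⬝ᵥ valueAt g.velocity x = 0 := by
    intro x hx t
    cases t with
    | none =>
      rw [hβ, dirDeriv_valueAt]
      obtain ⟨Q, hQ⟩ := g.tangent
      rw [hQ, map_mul, hx, zero_mul]
    | some a =>
      rw [hβs, dirDeriv_valueAt, dirDeriv_valueAt]
      obtain ⟨Q, hQ⟩ := g.tangent_fib a
      have h1 : eval x g.fibDen * eval x (g.velocity (g.fib a)) -
          eval x (g.fib a) * eval x (g.velocity g.fibDen) = 0 := by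
        have h2 := congrArg (eval x) hQ
        rw [map_sub, map_mul, map_mul, map_mul, hx, zero_mul] at h2
        exact h2
      rw [h1, zero_div]
  have hinj : ∀ w : Fin N → S, (∀ t, β r t ⬝ᵥ w = 0) → w l = 0 → w = 0 := by
    intro w hw hwl
    obtain ⟨c, hc⟩ := g.curve w (by rw [← hβ]; exact hw none) (fun a => by
      have h1 := hw (some a)
      rw [hβs, div_eq_zero_iff] at h1
      rcases h1 with h1 | h1
      · exact sub_eq_zero.mp h1
      · exact absurd h1 (pow_ne_zero _ g.fibDen_ne))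
    have h2 : c * v l = 0 := by
      have := congrFun hc l
      rw [hwl] at this
      exact this.symm
    rcases mul_eq_zero.mp h2 with h3 | h3
    · rw [hc, h3, zero_smul]
    · exact absurd h3 hl
  -- the derivative
  let J : Matrix (Fin N) (Fin N) S := Matrix.of fun l' j => gradRat (g.num l') g.den r j
  have hgSD : ∀ l', SD (fun y => γ y l') (J l') r := fun l' => SD_rat hS (g.num l') g.den r g.den_ne
  have hJ1 : ∀ l', ‖J l'‖ ≤ 1 := by
    intro l'
    rw [pi_norm_le_iff_of_nonneg zero_le_one]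
    exact fun j => hJ l' j
  have hJv : J *ᵥ v = g.μ • v := by
    funext l'
    have h1 : (J *ᵥ v) l' = gradRat (g.num l') g.den r ⬝ᵥ v := rfl
    have h2 : eval r (g.num l') = r l' * eval r g.den := by
      have := congrFun g.fixes l'
      rw [ratMap, div_eq_iff g.den_ne] at this
      exact this
    rw [h1, gradRat_dot, hv, dirDeriv_valueAt, dirDeriv_valueAt, h2, Pi.smul_apply, smul_eq_mul,
      div_eq_iff (pow_ne_zero _ g.den_ne)]
    have h3 := g.multiplier l'
    linear_combination (eval r g.den) * h3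
  -- continuity
  have hnear : ∃ ρ : ℝ, 0 < ρ ∧ ∀ x, ‖x - r‖ < ρ → eval x g.den ≠ 0 ∧ eval x g.fibDen ≠ 0 ∧
      eval (γ x) g.fibDen ≠ 0 := by
    have h1 : ∀ᶠ x in 𝓝 r, eval x g.den ≠ 0 :=
      ((MvPolynomial.continuous_eval g.den).tendsto r).eventually_ne g.den_ne
    have h2 : ∀ᶠ x in 𝓝 r, eval x g.fibDen ≠ 0 :=
      ((MvPolynomial.continuous_eval g.fibDen).tendsto r).eventually_ne g.fibDen_ne
    have h3 : ContinuousAt γ r := by
      rw [continuousAt_pi]
      intro l'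
      exact (MvPolynomial.continuous_eval (g.num l')).continuousAt.div
        (MvPolynomial.continuous_eval g.den).continuousAt g.den_ne
    have h4 : ∀ᶠ x in 𝓝 r, eval (γ x) g.fibDen ≠ 0 := by
      have h5 : ContinuousAt (fun x => eval (γ x) g.fibDen) r := by
        refine ContinuousAt.comp (g := fun y => eval y g.fibDen) ?_ h3
        exact (MvPolynomial.continuous_eval g.fibDen).continuousAt
      refine h5.tendsto.eventually_ne ?_
      rw [hγ, g.fixes]
      exact g.fibDen_ne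
    obtain ⟨ρ, hρ, h5⟩ := Metric.eventually_nhds_iff_ball.mp (h1.and (h2.and h4))
    exact ⟨ρ, hρ, fun x hx => h5 x (by rwa [Metric.mem_ball, dist_eq_norm])⟩
  obtain ⟨ρ, hρ, hρ'⟩ := hnear
  have hD : ∀ x ∈ {x | eval x F = 0}, ‖x - r‖ < ρ →
      γ x ∈ {x | eval x F = 0} ∧ ∀ t, B t (γ x) = B t x := by
    intro x hx hxr
    obtain ⟨h1, h2, h3⟩ := hρ' x hxr
    refine ⟨g.maps x hx h1, fun t => ?_⟩
    cases t with
    | none =>
      change eval (γ x) F = eval x F
      rw [show eval x F = 0 from hx]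
      exact g.maps x hx h1
    | some a => exact congrFun (g.preserves x hx h1 h2 h3) a
  -- the exponent `M`
  have hppos : 0 < ‖(p : S)‖ := norm_pos_iff.mpr hp0
  obtain ⟨M, hM0, hM1⟩ : ∃ M : ℕ, 0 < ‖geo g.μ M‖ ∧ ‖geo g.μ M‖ < ‖(p : S)‖ := by
    by_cases h1 : g.μ = 1
    · refine ⟨p ^ 2, ?_, ?_⟩
      · rw [geo, h1]
        simp only [one_pow, Finset.sum_const, Finset.card_range, nsmul_eq_mul, mul_one]
        rw [Nat.cast_pow, norm_pow]
        positivity
      · rw [geo, h1]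
        simp only [one_pow, Finset.sum_const, Finset.card_range, nsmul_eq_mul, mul_one]
        rw [Nat.cast_pow, norm_pow, pow_two]
        nlinarith
    · have h2 : 0 < ‖g.μ - 1‖ := norm_pos_iff.mpr (sub_ne_zero.mpr h1)
      obtain ⟨M, hM, h3⟩ := hroot (‖(p : S)‖ * ‖g.μ - 1‖) (by positivity)
      refine ⟨M, norm_pos_iff.mpr (g.μ_sum M hM), ?_⟩
      have h4 : geo g.μ M * (g.μ - 1) = g.μ ^ M - 1 := by
        rw [geo]
        exact geom_sum_mul g.μ M
      rw [← h4, norm_mul] at h3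
      exact lt_of_mul_lt_mul_right h3 h2.le
  set η : ℝ := ‖geo g.μ M‖ / 2 with hη
  have hη0 : 0 < η := by positivity
  have hη1 : η < ‖geo g.μ M‖ := by linarith
  have hη2 : η < ‖(p : S)‖ := hη1.trans hM1
  obtain ⟨δ₁, hδ₁, hδρ, hloc⟩ := local_estimates {x | eval x F = 0} γ r hr
    g.fixes J hgSD hJ1 B (β r) (hB r g.fibDen_ne) v l hl (htan r hr) g.μ hμ.le hJv hinj ρ hρ hD η
    hη0 (by linarith)
  obtain ⟨C, hC, δ₂, hδ₂, hbd⟩ := near_bound hS B (β r) r (hB r g.fibDen_ne) l hinj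
  refine ⟨l, min δ₁ δ₂, lt_min hδ₁ hδ₂, ?_, ?_, ?_, ?_⟩
  · intro δ' hδ' x hx hxr
    obtain ⟨h1, -, -, -, -⟩ := hloc _ δ' (hδ'.trans (min_le_left _ _)) rfl
    obtain ⟨h2, h3⟩ := h1 x ⟨hx, hxr⟩
    exact ⟨(hρ' x (hxr.trans_le ((hδ'.trans (min_le_left _ _)).trans hδρ))).1, h2, h3⟩
  · intro x hx hxr hne heq
    obtain ⟨-, -, -, -, h1⟩ := hloc _ _ (min_le_left _ _) rfl
    exact hne (h1 x ⟨hx, hxr⟩ heq)
  · intro x hx hxr hne
    obtain ⟨h1, h2, h3, h4, -⟩ := hloc _ _ (min_le_left _ _) rfl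
    exact exists_seq hp0 hp1 hη0.le hμ.le h1 h2 h3 h4 M hη2 hM1 hη1 ⟨hx, hxr⟩ hne
  · intro x hx hxr H y hy0 hy hyj hyH
    obtain ⟨h1, -, -, -, -⟩ := hloc _ (min δ₁ δ₂) (min_le_left _ _) rfl
    have hxρ : ‖x - r‖ < ρ := hxr.trans_le ((min_le_left _ _).trans hδρ)
    have hB' := hB x (hρ' x hxρ).2.1
    have hinv : ∀ (j : ℕ) (t : Option (Fin g.s)), B t (γ^[j] x) = B t x := by
      intro j
      induction j with
      | zero => intro t; rfl
      | succ j ih =>
        intro t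
        rw [Function.iterate_succ_apply']
        have h2 := mapsTo_iterate h1 j x ⟨hx, hxr⟩
        rw [(hD _ h2.1 (h2.2.trans_le ((min_le_left _ _).trans hδρ))).2 t, ih t]
    have h2 := limit_dot B (β x) hB' l C hC
      (hbd x (hxr.trans_le (min_le_right _ _)) (β x) hB') (valueAt g.velocity x) (htan x hx)
      (fun y => eval y H) _ (SD_poly hS H x) y hy0 hy (fun n t => by
        obtain ⟨j, hj⟩ := hyj n
        rw [hj]
        exact hinv j t) hyH
    rw [← dirDeriv_valueAt]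
    exact h2

end Pool.Agent.W572.G
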