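import Pool.Agent.W572.G.Pairs

/-!
# Explicit cases
-/

set_option autoImplicit false

namespace Pool.Agent.W572.G

open MvPolynomial AlgebraicGeometry CategoryTheory

section

variable {S : Type*} [Field S] {N : ℕ}

lemma eval_axis (F : MvPolynomial (Fin N) S) (l : Fin N) (u : S) (D : ℕ)
    (hdeg : ∀ m ∈ F.support, m l ≤ D) :
    MvPolynomial.eval (Pi.single l u) F =
      ∑ k ∈ Finset.range (D + 1), coeff (Finsupp.single l k) F * u ^ k := by
  classical
  rw [eval_eq']
  have h1 : ∀ d : Fin N →₀ ℕ, ∏ i, (Pi.single l u : Fin N → S) i ^ d i =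
      if d = Finsupp.single l (d l) then u ^ d l else 0 := by
    intro d
    split_ifs with h
    · rw [Finset.prod_eq_single l, Pi.single_eq_same]
      · intro b _ hb
        rw [h, Finsupp.single_eq_of_ne hb, pow_zero]
      · intro h; exact absurd (Finset.mem_univ _) h
    · obtain ⟨i, hi⟩ : ∃ i, d i ≠ Finsupp.single l (d l) i := by
        by_contra hcon
        push Not at hcon
        exact h (Finsupp.ext hcon)
      have hil : i ≠ l := by
        intro h2
        apply hi
        rw [h2, Finsupp.single_eq_same]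
      rw [Finsupp.single_eq_of_ne hil] at hi
      apply Finset.prod_eq_zero (Finset.mem_univ i)
      rw [Pi.single_eq_of_ne hil, zero_pow hi]
  rw [Finset.sum_congr rfl fun d _ => by rw [h1 d]]
  simp only [mul_ite, mul_zero]
  rw [← Finset.sum_filter]
  symm
  rw [← Finset.sum_filter_of_ne (p := fun k => coeff (Finsupp.single l k) F ≠ 0)
    (fun k _ h => left_ne_zero_of_mul h)]
  refine Finset.sum_nbij' (fun k => Finsupp.single l k) (fun d => d l) ?_ ?_ ?_ ?_ ?_
  · intro k hk
    rw [Finset.mem_filter] at hk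
    rw [Finset.mem_filter, mem_support_iff]
    exact ⟨hk.2, by rw [Finsupp.single_eq_same]⟩
  · intro d hd
    rw [Finset.mem_filter] at hd
    rw [Finset.mem_filter, Finset.mem_range]
    refine ⟨Nat.lt_succ_of_le (hdeg d hd.1), ?_⟩
    rw [← hd.2]
    exact mem_support_iff.mp hd.1
  · intro k _
    exact Finsupp.single_eq_same
  · intro d hd
    rw [Finset.mem_filter] at hd
    exact hd.2.symm
  · intro k _
    rw [Finsupp.single_eq_same]

lemma eval_zero_pderiv (F : MvPolynomial (Fin N) S) (l : Fin N) :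
    MvPolynomial.eval 0 (pderiv l F) = coeff (Finsupp.single l 1) F := by
  rw [MvPolynomial.eval_zero, constantCoeff_eq, coeff_pderiv]
  simp

lemma eval_zero_pderiv₂ (F : MvPolynomial (Fin N) S) {i j : Fin N} (hij : i ≠ j) :
    MvPolynomial.eval 0 (pderiv i (pderiv j F)) =
      coeff (Finsupp.single i 1 + Finsupp.single j 1) F := by
  rw [MvPolynomial.eval_zero, constantCoeff_eq, coeff_pderiv, coeff_pderiv]
  simp [Finsupp.single_eq_of_ne (Ne.symm hij)]

/-- The Hessian of a point in terms of the tangent vectors. -/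
lemma hessian_single (F : MvPolynomial (Fin N) S) (r : Fin N → S) (i j : Fin N) (a b : S) :
    hessian F r (Pi.single i a) (Pi.single j b) =
      MvPolynomial.eval r (pderiv i (pderiv j F)) * a * b := by
  classical
  rw [hessian, Finset.sum_eq_single i, Finset.sum_eq_single j, Pi.single_eq_same,
    Pi.single_eq_same]
  · intro c _ hc
    rw [Pi.single_eq_of_ne hc, mul_zero]
  · intro h; exact absurd (Finset.mem_univ _) h
  · intro c _ hc
    refine Finset.sum_eq_zero fun d _ => ?_
    rw [Pi.single_eq_of_ne hc, mul_zero, zero_mul]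
  · intro h; exact absurd (Finset.mem_univ _) h

lemma valueAt_plane_zero (F : MvPolynomial (Fin N) S) {p s : Fin N} (hps : p ≠ s)
    (h : coeff (Finsupp.single p 1) F = 0) :
    valueAt (planeField F p s) 0 = Pi.single p (coeff (Finsupp.single s 1) F) := by
  classical
  funext l
  rw [valueAt]
  by_cases hlp : l = p
  · rw [hlp, planeField_p, eval_zero_pderiv, Pi.single_eq_same]
  · rw [Pi.single_eq_of_ne hlp]
    by_cases hls : l = s
    · rw [hls, planeField_s F hps, map_neg, eval_zero_pderiv, h, neg_zero]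
    · rw [planeField_ne F hlp hls, map_zero]

lemma cubicPoint_zero (F : MvPolynomial (Fin N) S) {p s : Fin N} (hps : p ≠ s)
    (hdeg : ∀ m ∈ F.support, m p + m s ≤ 3) (h0 : coeff 0 F = 0)
    (h1 : coeff (Finsupp.single p 1) F = 0) (h2 : coeff (Finsupp.single p 2) F = 0)
    (h3 : coeff (Finsupp.single p 3) F ≠ 0) (hs : coeff (Finsupp.single s 1) F ≠ 0) :
    CubicPoint F p s 0 := by
  classical
  refine ⟨hdeg, coeff (Finsupp.single p 3) F * coeff (Finsupp.single s 1) F ^ 3,
    mul_ne_zero h3 (pow_ne_zero _ hs), fun t => ?_⟩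
  rw [valueAt_plane_zero F hps h1, zero_add, ← Pi.single_smul, smul_eq_mul,
    eval_axis F p _ 3 (fun m hm => le_trans (Nat.le_add_right _ _) (hdeg m hm))]
  simp only [Finset.sum_range_succ, Finset.sum_range_zero, Finsupp.single_zero, h0, h1, h2]
  ring

end

/-- The theorem for connected systems of pairs of variables. -/
theorem main_hessian (k₀ : Type) [Field k₀] [NumberField k₀] (N m : ℕ)
    (F : MvPolynomial (Fin N) k₀)
    (hF : Irreducible (map (algebraMap k₀ (AlgebraicClosure k₀)) F))
    (r : Fin N → AlgebraicClosure k₀)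
    (p s : Fin m → Fin N) (hm : 0 < m) (hps : ∀ i, p i ≠ s i)
    (hcov : ∀ l, ∃ i, l = p i ∨ l = s i)
    (hpt : ∀ i, CubicPoint (map (algebraMap k₀ (AlgebraicClosure k₀)) F) (p i) (s i) r ∨
      QuadraticPoint (map (algebraMap k₀ (AlgebraicClosure k₀)) F) (p i) (s i) r)
    (hconn : ∀ i j, Relation.ReflTransGen (fun a b =>
      hessian (map (algebraMap k₀ (AlgebraicClosure k₀)) F) r
      (valueAt (planeField (map (algebraMap k₀ (AlgebraicClosure k₀)) F) (p a) (s a)) r)
      (valueAt (planeField (map (algebraMap k₀ (AlgebraicClosure k₀)) F) (p b) (s b)) r) ≠ 0) i j)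
    (X : Scheme.{0}) (sX : X ⟶ Spec (.of k₀))
    (f : (hypersurface F).PartialMap X) (hf : IsDominant f.hom)
    (hfk : f.hom ≫ sX = f.domain.ι ≫ hypersurfaceStr F) :
    PotentiallyDense sX :=
  main_pairs k₀ N m F hF r p s hm hps hpt
    (tangentGenerating_of_hessian _ hm p s hps hcov r
      (fun i => (pair_map hF (hps i) (hpt i)).1.2) hconn) X sX f hf hfk

/-- The theorem for hypersurfaces of multidegree `(3, …, 3)` in products of planes, in normal
form. -/
theorem main_planes (k₀ : Type) [Field k₀] [NumberField k₀] (N m : ℕ)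
    (F : MvPolynomial (Fin N) k₀)
    (hF : Irreducible (map (algebraMap k₀ (AlgebraicClosure k₀)) F))
    (p s : Fin m → Fin N) (hm : 0 < m) (hps : ∀ i, p i ≠ s i)
    (hcov : ∀ l, ∃ i, l = p i ∨ l = s i)
    (hdeg : ∀ i, ∀ d ∈ F.support, d (p i) + d (s i) ≤ 3)
    (h0 : coeff 0 F = 0) (h1 : ∀ i, coeff (Finsupp.single (p i) 1) F = 0)
    (h2 : ∀ i, coeff (Finsupp.single (p i) 2) F = 0)
    (h3 : ∀ i, coeff (Finsupp.single (p i) 3) F ≠ 0)
    (hs : ∀ i, coeff (Finsupp.single (s i) 1) F ≠ 0)
    (hconn : ∀ i j, Relation.ReflTransGen (fun a b =>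
      coeff (Finsupp.single (p a) 1 + Finsupp.single (p b) 1) F ≠ 0) i j)
    (X : Scheme.{0}) (sX : X ⟶ Spec (.of k₀))
    (f : (hypersurface F).PartialMap X) (hf : IsDominant f.hom)
    (hfk : f.hom ≫ sX = f.domain.ι ≫ hypersurfaceStr F) :
    PotentiallyDense sX := by
  set F' := map (algebraMap k₀ (AlgebraicClosure k₀)) F with hF'
  have hinj : Function.Injective (algebraMap k₀ (AlgebraicClosure k₀)) :=
    (algebraMap k₀ (AlgebraicClosure k₀)).injective
  have hc : ∀ d, coeff d F' = algebraMap k₀ (AlgebraicClosure k₀) (coeff d F) := fun d =>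
    coeff_map _ _ _
  have hc0 : ∀ d, coeff d F = 0 → coeff d F' = 0 := by
    intro d h
    rw [hc, h, map_zero]
  have hc1 : ∀ d, coeff d F ≠ 0 → coeff d F' ≠ 0 := by
    intro d h
    rw [hc]
    exact (map_ne_zero_iff _ hinj).mpr h
  have hdeg' : ∀ i, ∀ d ∈ F'.support, d (p i) + d (s i) ≤ 3 := by
    intro i d hd
    apply hdeg i d
    rw [mem_support_iff] at hd ⊢
    intro h
    exact hd (hc0 d h)
  refine main_hessian k₀ N m F hF 0 p s hm hps hcov
    (fun i => Or.inl (cubicPoint_zero F' (hps i) (hdeg' i) (hc0 _ h0) (hc0 _ (h1 i))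
      (hc0 _ (h2 i)) (hc1 _ (h3 i)) (hc1 _ (hs i)))) (fun i j => ?_) X sX f hf hfk
  refine Relation.ReflTransGen.mono ?_ i j (hconn i j)
  intro a b hab
  have hne : p a ≠ p b := by
    intro h
    rw [h, ← Finsupp.single_add] at hab
    exact hab (h2 b)
  rw [valueAt_plane_zero F' (hps a) (hc0 _ (h1 a)), valueAt_plane_zero F' (hps b) (hc0 _ (h1 b)),
    hessian_single, eval_zero_pderiv₂ F' hne]
  exact mul_ne_zero (mul_ne_zero (hc1 _ hab) (hc1 _ (hs a))) (hc1 _ (hs b))

end Pool.Agent.W572.G
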