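import Pool.Agent.W572.G.Quad

/-!
# Potential density from the plane sections in pairs of variables
-/

set_option autoImplicit false

namespace Pool.Agent.W572.G

open MvPolynomial AlgebraicGeometry CategoryTheory

section

variable {S : Type*} [Field S] {N : ℕ}

lemma CubicPoint.eval_eq [CharZero S] {F : MvPolynomial (Fin N) S} {p s : Fin N} (hps : p ≠ s)
    {r : Fin N → S} (h : CubicPoint F p s r) :
    eval r F = 0 ∧ eval r (quadCoeff F p s) = 0 ∧ eval r (cubicCoeff F p s) ≠ 0 := by
  obtain ⟨hdeg, c, hc, hline⟩ := h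
  have h1 : ∀ t : S, eval r F + eval r (quadCoeff F p s) * t ^ 2 +
      eval r (cubicCoeff F p s) * t ^ 3 = c * t ^ 3 := by
    intro t
    rw [← eval_line_three hps hdeg r t, ← hline t]
    congr 2
    funext l
    simp only [Pi.add_apply, Pi.smul_apply, smul_eq_mul, valueAt]
    ring
  have e0 := h1 0
  have e1 := h1 1
  have e2 := h1 (-1)
  have hF : eval r F = 0 := by linear_combination e0
  have h2 : 2 * eval r (quadCoeff F p s) = 0 := by linear_combination e1 + e2 - 2 * hF
  have hq : eval r (quadCoeff F p s) = 0 := (mul_eq_zero.mp h2).resolve_left two_ne_zero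
  have hc' : eval r (cubicCoeff F p s) = c := by linear_combination e1 - hF - hq
  exact ⟨hF, hq, by rw [hc']; exact hc⟩

lemma CubicPoint.grad [CharZero S] {F : MvPolynomial (Fin N) S} {p s : Fin N} (hps : p ≠ s)
    {r : Fin N → S} (h : CubicPoint F p s r) :
    eval r (pderiv s F) ≠ 0 ∨ eval r (pderiv p F) ≠ 0 := by
  by_contra hcon
  push Not at hcon
  obtain ⟨hdeg, c, hc, hline⟩ := h
  have h0 : valueAt (planeField F p s) r = 0 := by
    funext l
    rw [valueAt]
    by_cases hlp : l = p
    · rw [hlp, planeField_p, hcon.1]; rfl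
    · by_cases hls : l = s
      · rw [hls, planeField_s F hps, map_neg, hcon.2, neg_zero]; rfl
      · rw [planeField_ne F hlp hls, map_zero]; rfl
  rw [h0] at hline
  have e0 := hline 0
  have e1 := hline 1
  simp only [smul_zero, add_zero] at e0 e1
  rw [e0] at e1
  apply hc
  linear_combination -e1

/-- The self-map attached to a pair of variables. -/
theorem pair_map [IsAlgClosed S] [CharZero S] {F : MvPolynomial (Fin N) S}
    (hF : Irreducible F) {p s : Fin N} (hps : p ≠ s) {r : Fin N → S}
    (h : CubicPoint F p s r ∨ QuadraticPoint F p s r) :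
    (eval r F = 0 ∧ (eval r (pderiv s F) ≠ 0 ∨ eval r (pderiv p F) ≠ 0)) ∧
      ∃ g : FibredSelfMap F r, g.velocity = planeField F p s := by
  rcases h with h | h
  · obtain ⟨h1, h2, h3⟩ := h.eval_eq hps
    exact ⟨⟨h1, h.grad hps⟩, cubic_map hF hps h.1 h2 h3 h1⟩
  · obtain ⟨h1, h2, h3, h4, h5, h6⟩ := h
    exact ⟨⟨h3, Or.inr h5⟩, quad_map hF hps h1 h2 h3 h4 h5 h6⟩

/-- The value of vector fields at a point, as a linear map. -/
noncomputable def valueAtLinear (r : Fin N → S) :
    Derivation S (MvPolynomial (Fin N) S) (MvPolynomial (Fin N) S) →ₗ[S] (Fin N → S) where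
  toFun D := valueAt D r
  map_add' D E := by
    funext l
    simp [valueAt]
  map_smul' a D := by
    funext l
    simp [valueAt]

lemma eval_planeField (F : MvPolynomial (Fin N) S) {p s : Fin N} (hps : p ≠ s) (r : Fin N → S)
    (P : MvPolynomial (Fin N) S) : eval r (planeField F p s P) =
      ∑ a, eval r (pderiv a P) * valueAt (planeField F p s) r a := by
  rw [planeField_apply F hps, ← sum_plane F hps (fun l => pderiv l P), map_sum]
  refine Finset.sum_congr rfl fun l _ => ?_
  rw [map_mul, valueAt, mul_comm]

lemma hessian_comm (F : MvPolynomial (Fin N) S) (r v w : Fin N → S) :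
    hessian F r v w = hessian F r w v := by
  rw [hessian, hessian, Finset.sum_comm]
  refine Finset.sum_congr rfl fun a _ => Finset.sum_congr rfl fun b _ => ?_
  rw [pderiv_comm]
  ring

lemma hessian_plane (F : MvPolynomial (Fin N) S) {p s p' s' : Fin N} (hps : p ≠ s)
    (hps' : p' ≠ s') (r : Fin N → S) :
    hessian F r (valueAt (planeField F p s) r) (valueAt (planeField F p' s') r) =
      eval r (pderiv s' F) * eval r (planeField F p s (pderiv p' F)) -
        eval r (pderiv p' F) * eval r (planeField F p s (pderiv s' F)) := by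
  have h1 : ∀ a, ∑ b, eval r (pderiv a (pderiv b F)) * valueAt (planeField F p s) r a *
      valueAt (planeField F p' s') r b =
      eval r (pderiv s' F * (pderiv a (pderiv p' F)) - pderiv p' F * (pderiv a (pderiv s' F))) *
        valueAt (planeField F p s) r a := by
    intro a
    rw [← sum_plane F hps' (fun l => pderiv a (pderiv l F)), map_sum, Finset.sum_mul]
    refine Finset.sum_congr rfl fun b _ => ?_
    rw [map_mul, valueAt, valueAt]
    ring
  rw [hessian, Finset.sum_congr rfl fun a _ => h1 a, eval_planeField F hps,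
    eval_planeField F hps, Finset.mul_sum, Finset.mul_sum, ← Finset.sum_sub_distrib]
  refine Finset.sum_congr rfl fun a _ => ?_
  rw [map_sub, map_mul, map_mul]
  ring

/-- The fields of a connected system of pairs of variables generate the tangent space. -/
theorem tangentGenerating_of_hessian [CharZero S] (F : MvPolynomial (Fin N) S) {m : ℕ}
    (hm : 0 < m) (p s : Fin m → Fin N) (hps : ∀ i, p i ≠ s i) (hcov : ∀ l, ∃ i, l = p i ∨ l = s i)
    (r : Fin N → S) (hgrad : ∀ i, eval r (pderiv (s i) F) ≠ 0 ∨ eval r (pderiv (p i) F) ≠ 0)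
    (hconn : ∀ i j, Relation.ReflTransGen (fun a b => hessian F r
      (valueAt (planeField F (p a) (s a)) r) (valueAt (planeField F (p b) (s b)) r) ≠ 0) i j) :
    TangentGenerating F (fun i => planeField F (p i) (s i)) r := by
  classical
  intro w hw
  set L := LieSubalgebra.lieSpan S (Derivation S (MvPolynomial (Fin N) S)
      (MvPolynomial (Fin N) S)) (Set.range fun i => planeField F (p i) (s i)) with hL
  by_contra hcon
  have hwn : w ∉ L.toSubmodule.map (valueAtLinear r) := by
    intro h
    obtain ⟨D, hD, hDw⟩ := Submodule.mem_map.mp h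
    exact hcon ⟨D, hD, hDw⟩
  obtain ⟨φ, hφ1, hφ2⟩ := Submodule.exists_le_ker_of_notMem hwn
  have hφL : ∀ D ∈ L, φ (valueAt D r) = 0 := by
    intro D hD
    exact hφ2 (Submodule.mem_map_of_mem (f := valueAtLinear r) hD)
  -- the coefficients of the functional
  set ell : Fin N → S := fun l => φ (Pi.single l 1) with hell
  have hφ : ∀ v, φ v = ∑ l, v l * ell l := by
    intro v
    conv_lhs => rw [← Finset.univ_sum_single v]
    rw [map_sum]
    refine Finset.sum_congr rfl fun l _ => ?_
    have h1 : (Pi.single l (v l) : Fin N → S) = v l • Pi.single l 1 := by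
      rw [← Pi.single_smul, smul_eq_mul, mul_one]
    rw [h1, map_smul, smul_eq_mul]
  have hmem : ∀ i, planeField F (p i) (s i) ∈ L := fun i =>
    LieSubalgebra.subset_lieSpan ⟨i, rfl⟩
  have hplane : ∀ i (G : Fin N → S), ∑ l, valueAt (planeField F (p i) (s i)) r l * G l =
      eval r (pderiv (s i) F) * G (p i) - eval r (pderiv (p i) F) * G (s i) := by
    intro i G
    have h1 := congrArg (eval r) (sum_plane F (hps i) (fun l => C (G l)))
    rw [map_sum, map_sub, map_mul, map_mul, eval_C, eval_C] at h1
    rw [← h1]
    refine Finset.sum_congr rfl fun l _ => ?_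
    rw [map_mul, eval_C, valueAt]
  have hlam : ∀ i, ∃ lam : S, ell (p i) = lam * eval r (pderiv (p i) F) ∧
      ell (s i) = lam * eval r (pderiv (s i) F) := by
    intro i
    have h1 := hφL _ (hmem i)
    rw [hφ, hplane i] at h1
    rcases hgrad i with h | h
    · refine ⟨ell (s i) / eval r (pderiv (s i) F), ?_, by field_simp⟩
      field_simp
      linear_combination h1
    · refine ⟨ell (p i) / eval r (pderiv (p i) F), by field_simp, ?_⟩
      field_simp
      linear_combination -h1
  choose lam hlp hls using hlam
  -- the value of the functional on the second order operators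
  have hsecond : ∀ i j, ∑ l, eval r (planeField F (p i) (s i) (planeField F (p j) (s j) (X l))) *
      ell l = - lam j * hessian F r (valueAt (planeField F (p i) (s i)) r)
        (valueAt (planeField F (p j) (s j)) r) := by
    intro i j
    have h1 : ∑ l, eval r (planeField F (p i) (s i) (planeField F (p j) (s j) (X l))) * ell l =
        eval r (planeField F (p i) (s i) (∑ l, planeField F (p j) (s j) (X l) * C (ell l))) := by
      rw [map_sum, map_sum]
      refine Finset.sum_congr rfl fun l _ => ?_
      have h2 : planeField F (p i) (s i) (C (ell l)) = 0 := by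
        rw [← algebraMap_eq, Derivation.map_algebraMap]
      rw [Derivation.leibniz, h2, smul_zero, zero_add, smul_eq_mul, map_mul, eval_C, mul_comm]
    have h3 : ∀ P : MvPolynomial (Fin N) S, ∀ a : S,
        planeField F (p i) (s i) (P * C a) = planeField F (p i) (s i) P * C a := by
      intro P a
      have h2 : planeField F (p i) (s i) (C a) = 0 := by
        rw [← algebraMap_eq, Derivation.map_algebraMap]
      rw [Derivation.leibniz, h2, smul_zero, zero_add, smul_eq_mul, mul_comm]
    rw [h1, sum_plane F (hps j) (fun l => C (ell l)), map_sub, h3, h3, map_sub, map_mul, map_mul,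
      eval_C, eval_C, hlp, hls, hessian_plane F (hps i) (hps j)]
    ring
  have hbr : ∀ i j, (lam i - lam j) * hessian F r (valueAt (planeField F (p i) (s i)) r)
      (valueAt (planeField F (p j) (s j)) r) = 0 := by
    intro i j
    have h1 := hφL _ (LieSubalgebra.lie_mem L (hmem i) (hmem j))
    rw [hφ] at h1
    have h2 : ∀ l, valueAt ⁅planeField F (p i) (s i), planeField F (p j) (s j)⁆ r l * ell l =
        eval r (planeField F (p i) (s i) (planeField F (p j) (s j) (X l))) * ell l -
        eval r (planeField F (p j) (s j) (planeField F (p i) (s i) (X l))) * ell l := by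
      intro l
      rw [valueAt, Derivation.commutator_apply, map_sub, sub_mul]
    rw [Finset.sum_congr rfl fun l _ => h2 l, Finset.sum_sub_distrib, hsecond, hsecond,
      hessian_comm F r (valueAt (planeField F (p j) (s j)) r)] at h1
    linear_combination h1
  have hlameq : ∀ i j, lam i = lam j := by
    intro i j
    induction hconn i j with
    | refl => rfl
    | tail _ h ih =>
      rw [ih]
      exact sub_eq_zero.mp ((mul_eq_zero.mp (hbr _ _)).resolve_right h)
  have hell' : ∀ l, ell l = lam ⟨0, hm⟩ * eval r (pderiv l F) := by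
    intro l
    obtain ⟨i, hi | hi⟩ := hcov l
    · rw [hi, hlp i, hlameq i ⟨0, hm⟩]
    · rw [hi, hls i, hlameq i ⟨0, hm⟩]
  apply hφ1
  rw [hφ]
  have h1 : ∑ l, w l * ell l = lam ⟨0, hm⟩ * dirDeriv F r w := by
    rw [dirDeriv, Finset.mul_sum]
    refine Finset.sum_congr rfl fun l _ => ?_
    rw [hell']
    ring
  rw [h1, hw, mul_zero]

end

/-- The general theorem for plane sections in pairs of variables. -/
theorem main_pairs (k₀ : Type) [Field k₀] [NumberField k₀] (N m : ℕ)
    (F : MvPolynomial (Fin N) k₀)
    (hF : Irreducible (map (algebraMap k₀ (AlgebraicClosure k₀)) F))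
    (r : Fin N → AlgebraicClosure k₀)
    (p s : Fin m → Fin N) (hm : 0 < m) (hps : ∀ i, p i ≠ s i)
    (hpt : ∀ i, CubicPoint (map (algebraMap k₀ (AlgebraicClosure k₀)) F) (p i) (s i) r ∨
      QuadraticPoint (map (algebraMap k₀ (AlgebraicClosure k₀)) F) (p i) (s i) r)
    (hgen : TangentGenerating (map (algebraMap k₀ (AlgebraicClosure k₀)) F)
      (fun i => planeField (map (algebraMap k₀ (AlgebraicClosure k₀)) F) (p i) (s i)) r)
    (X : Scheme.{0}) (sX : X ⟶ Spec (.of k₀))
    (f : (hypersurface F).PartialMap X) (hf : IsDominant f.hom)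
    (hfk : f.hom ≫ sX = f.domain.ι ≫ hypersurfaceStr F) :
    PotentiallyDense sX := by
  have hmap : ∀ P : MvPolynomial (Fin N) k₀, aeval r P =
      eval r (map (algebraMap k₀ (AlgebraicClosure k₀)) P) := by
    intro P
    rw [MvPolynomial.eval_map, aeval_def]
  have hall := fun i => pair_map hF (hps i) (hpt i)
  choose g hg using fun i => (hall i).2
  refine Pool.Agent.W572.G.main k₀ F hF r ?_ ?_ g ?_ sX f hf hfk
  · rw [hmap]
    exact (hall ⟨0, hm⟩).1.1
  · rcases (hall ⟨0, hm⟩).1.2 with h | h
    · exact ⟨s ⟨0, hm⟩, by rw [hmap, ← pderiv_map]; exact h⟩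
    · exact ⟨p ⟨0, hm⟩, by rw [hmap, ← pderiv_map]; exact h⟩
  · have h1 : (fun i => (g i).velocity) =
        fun i => planeField (map (algebraMap k₀ (AlgebraicClosure k₀)) F) (p i) (s i) :=
      funext hg
    rw [h1]
    exact hgen

end Pool.Agent.W572.G
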