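import Pool.Agent.W572.NormQ
import Pool.Agent.W572.G.NearId

/-!
# Choice of the place, and powers close to one
-/

set_option autoImplicit false

namespace Pool.Agent.W572.G

open Polynomial

/-- Integral elements have norm at most one. -/
lemma norm_le_one_of_isIntegral {S : Type*} [NormedField S] [IsUltrametricDist S] {x : S}
    (hx : IsIntegral ℤ x) : ‖x‖ ≤ 1 := by
  obtain ⟨f, hf, hfx⟩ := hx
  by_contra hcon
  push Not at hcon
  have h0 : f.natDegree ≠ 0 := by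
    intro h
    rw [Polynomial.eq_one_of_monic_natDegree_zero hf h, eval₂_one] at hfx
    exact one_ne_zero hfx
  obtain ⟨n, hn⟩ := Nat.exists_eq_succ_of_ne_zero h0
  rw [eval₂_eq_sum_range, hn, Finset.sum_range_succ] at hfx
  have h1 : f.coeff (n + 1) = 1 := by
    have := hf.coeff_natDegree
    rwa [hn] at this
  rw [h1, map_one, one_mul] at hfx
  have h2 : ‖x ^ (n + 1)‖ ≤ ‖x‖ ^ n := by
    rw [eq_neg_of_add_eq_zero_right hfx, norm_neg]
    refine IsUltrametricDist.norm_sum_le_of_forall_le_of_nonneg (by positivity) fun i hi => ?_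
    rw [norm_mul, norm_pow]
    have h3 : ‖(algebraMap ℤ S) (f.coeff i)‖ ≤ 1 := by
      rw [eq_intCast]
      exact IsUltrametricDist.norm_intCast_le_one S _
    calc _ ≤ 1 * ‖x‖ ^ i := mul_le_mul_of_nonneg_right h3 (by positivity)
      _ = ‖x‖ ^ i := one_mul _
      _ ≤ ‖x‖ ^ n := pow_le_pow_right₀ hcon.le (by
          have := Finset.mem_range.mp hi
          omega)
  rw [norm_pow, pow_succ] at h2
  have h3 : 0 < ‖x‖ ^ n := by positivity
  nlinarith

section powers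

variable {S : Type*} [NormedField S] [IsUltrametricDist S]

lemma norm_pow_sub_one_le {z : S} {c : ℝ} (hz : ‖z‖ ≤ 1) (h : ‖z - 1‖ ≤ c) (hc : 0 ≤ c)
    (k : ℕ) : ‖z ^ k - 1‖ ≤ c := by
  induction k with
  | zero => simpa using hc
  | succ k ih =>
    have h1 : z ^ (k + 1) - 1 = z * (z ^ k - 1) + (z - 1) := by ring
    rw [h1]
    refine norm_add_le' ?_ h
    rw [norm_mul]
    calc ‖z‖ * ‖z ^ k - 1‖ ≤ 1 * ‖z ^ k - 1‖ := mul_le_mul_of_nonneg_right hz (norm_nonneg _)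
      _ ≤ c := by rw [one_mul]; exact ih

lemma norm_pow_p_sub_one_le {p : ℕ} {z : S} (hz : ‖z‖ ≤ 1) (h : ‖z - 1‖ ≤ ‖(p : S)‖) :
    ‖z ^ p - 1‖ ≤ ‖(p : S)‖ * ‖z - 1‖ := by
  have h1 : (∑ i ∈ Finset.range p, z ^ i) * (z - 1) = z ^ p - 1 := geom_sum_mul z p
  rw [← h1, norm_mul]
  refine mul_le_mul_of_nonneg_right ?_ (norm_nonneg _)
  have h2 : ∑ i ∈ Finset.range p, z ^ i = (∑ i ∈ Finset.range p, (z ^ i - 1)) + (p : S) := by
    rw [Finset.sum_sub_distrib]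
    simp
  rw [h2]
  refine norm_add_le' ?_ le_rfl
  exact IsUltrametricDist.norm_sum_le_of_forall_le_of_nonneg (norm_nonneg _)
    fun i _ => norm_pow_sub_one_le hz h (norm_nonneg _) i

lemma exists_pow_near {p : ℕ} (hp : 0 < p) (hp1 : ‖(p : S)‖ < 1) {z : S} (hz : ‖z‖ ≤ 1)
    (h : ‖z - 1‖ ≤ ‖(p : S)‖) (ε : ℝ) (hε : 0 < ε) : ∃ M : ℕ, 0 < M ∧ ‖z ^ M - 1‖ < ε := by
  have h1 : ∀ t : ℕ, ‖z ^ (p ^ t) - 1‖ ≤ ‖(p : S)‖ ^ (t + 1) := by
    intro t
    induction t with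
    | zero => simpa using h
    | succ t ih =>
      rw [pow_succ p t, pow_mul]
      have h2 : ‖z ^ p ^ t - 1‖ ≤ ‖(p : S)‖ := by
        refine ih.trans ?_
        calc ‖(p : S)‖ ^ (t + 1) ≤ ‖(p : S)‖ ^ 1 :=
              pow_le_pow_of_le_one (norm_nonneg _) hp1.le (by omega)
          _ = _ := pow_one _
      refine (norm_pow_p_sub_one_le (by rw [norm_pow]; exact pow_le_one₀ (norm_nonneg _) hz)
        h2).trans ?_
      rw [pow_succ' _ (t + 1)]
      exact mul_le_mul_of_nonneg_left ih (norm_nonneg _)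
  obtain ⟨t, ht⟩ := ((tendsto_pow_atTop_nhds_zero_of_lt_one (norm_nonneg (p : S)) hp1).eventually
    (gt_mem_nhds hε)).exists
  refine ⟨p ^ t, by positivity, (h1 t).trans_lt ?_⟩
  refine lt_of_le_of_lt ?_ ht
  exact pow_le_pow_of_le_one (norm_nonneg _) hp1.le (by omega)

/-- A `p`-adic unit which is algebraic has powers close to one. -/
theorem exists_pow_near_one {p : ℕ} (hp : p.Prime) (hp1 : ‖(p : S)‖ < 1)
    (hunit : ∀ n : ℤ, ¬ (p : ℤ) ∣ n → ‖(n : S)‖ = 1) {μ : S} (hμ : ‖μ‖ = 1) {n : ℤ}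
    (hn : ¬ (p : ℤ) ∣ n) (hint : IsIntegral ℤ ((n : S) * μ)) (ε : ℝ) (hε : 0 < ε) :
    ∃ M : ℕ, 0 < M ∧ ‖μ ^ M - 1‖ < ε := by
  classical
  have : Fact p.Prime := ⟨hp⟩
  set ν : S := (n : S) * μ with hν
  have hν1 : ‖ν‖ = 1 := by rw [hν, norm_mul, hunit n hn, hμ, one_mul]
  obtain ⟨f, hf, hfν⟩ := hint
  -- pigeonhole in a finite ring
  have hfm : (f.map (Int.castRingHom (ZMod p))).Monic := hf.map _
  have : Module.Finite (ZMod p) (AdjoinRoot (f.map (Int.castRingHom (ZMod p)))) :=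
    hfm.finite_adjoinRoot
  have : Finite (AdjoinRoot (f.map (Int.castRingHom (ZMod p)))) :=
    Module.finite_of_finite (ZMod p)
  obtain ⟨a, b, hab, h1⟩ : ∃ a b : ℕ, a < b ∧
      AdjoinRoot.mk (f.map (Int.castRingHom (ZMod p))) (X ^ b) =
      AdjoinRoot.mk (f.map (Int.castRingHom (ZMod p))) (X ^ a) := by
    obtain ⟨a, b, hab, h1⟩ := Finite.exists_ne_map_eq_of_infinite
      (fun k : ℕ => AdjoinRoot.mk (f.map (Int.castRingHom (ZMod p))) (X ^ k))
    rcases lt_or_gt_of_ne hab with h | h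
    · exact ⟨a, b, h, h1.symm⟩
    · exact ⟨b, a, h, h1⟩
  rw [AdjoinRoot.mk_eq_mk] at h1
  obtain ⟨q', hq'⟩ := h1
  obtain ⟨q, rfl⟩ := Polynomial.map_surjective (Int.castRingHom (ZMod p))
    (ZMod.ringHom_surjective _) q'
  have h2 : C (p : ℤ) ∣ X ^ b - X ^ a - f * q := by
    rw [C_dvd_iff_dvd_coeff]
    intro i
    have h3 := congrArg (fun r => Polynomial.coeff r i) hq'
    have h4 : ((X ^ b - X ^ a - f * q : ℤ[X]).map (Int.castRingHom (ZMod p))).coeff i = 0 := by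
      rw [Polynomial.map_sub, Polynomial.map_sub, Polynomial.map_pow, Polynomial.map_pow,
        Polynomial.map_X, Polynomial.map_mul, hq', sub_self, coeff_zero]
    rw [coeff_map] at h4
    exact (ZMod.intCast_zmod_eq_zero_iff_dvd _ p).mp h4
  obtain ⟨w, hw⟩ := h2
  have h3 : ν ^ b - ν ^ a = (p : S) * eval₂ (algebraMap ℤ S) ν w := by
    have h4 := congrArg (eval₂ (algebraMap ℤ S) ν) hw
    rw [eval₂_sub, eval₂_sub, eval₂_pow, eval₂_pow, eval₂_X, eval₂_mul, hfν, zero_mul, sub_zero,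
      eval₂_mul, eval₂_C] at h4
    simpa using h4
  have h4 : ‖eval₂ (algebraMap ℤ S) ν w‖ ≤ 1 := by
    rw [eval₂_eq_sum_range]
    refine IsUltrametricDist.norm_sum_le_of_forall_le_of_nonneg zero_le_one fun i _ => ?_
    rw [norm_mul, norm_pow, hν1, one_pow, mul_one, eq_intCast]
    exact IsUltrametricDist.norm_intCast_le_one S _
  have h5 : ‖ν ^ (b - a) - 1‖ ≤ ‖(p : S)‖ := by
    have h6 : ν ^ b - ν ^ a = ν ^ a * (ν ^ (b - a) - 1) := by
      rw [mul_sub, ← pow_add, mul_one]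
      congr 2
      omega
    have h7 : ‖ν ^ b - ν ^ a‖ = ‖ν ^ (b - a) - 1‖ := by
      rw [h6, norm_mul, norm_pow, hν1, one_pow, one_mul]
    rw [← h7, h3, norm_mul]
    exact mul_le_of_le_one_right (norm_nonneg _) h4
  have h6 : ‖(n : S) ^ (p - 1) - 1‖ ≤ ‖(p : S)‖ := by
    have hcop : IsCoprime n (p : ℤ) := by
      rw [isCoprime_comm]
      exact (Prime.coprime_iff_not_dvd (Nat.prime_iff_prime_int.mp hp)).mpr hn
    have h7 := (Int.ModEq.pow_card_sub_one_eq_one hp hcop).symm.dvd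
    obtain ⟨c, hc⟩ := h7
    have h8 : (n : S) ^ (p - 1) - 1 = (p : S) * (c : S) := by
      have := congrArg (Int.cast : ℤ → S) hc
      push_cast at this
      exact this
    rw [h8, norm_mul]
    exact mul_le_of_le_one_right (norm_nonneg _) (IsUltrametricDist.norm_intCast_le_one S _)
  have hn1 : ‖(n : S)‖ = 1 := hunit n hn
  set M := (b - a) * (p - 1) with hM
  have hM0 : 0 < M := Nat.mul_pos (by omega) (by have := hp.two_le; omega)
  have h7 : ‖ν ^ M - 1‖ ≤ ‖(p : S)‖ := by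
    rw [hM, pow_mul]
    exact norm_pow_sub_one_le (by rw [norm_pow, hν1, one_pow]) h5 (norm_nonneg _) _
  have h8 : ‖(n : S) ^ M - 1‖ ≤ ‖(p : S)‖ := by
    rw [hM, mul_comm, pow_mul]
    exact norm_pow_sub_one_le (by rw [norm_pow, hn1, one_pow]) h6 (norm_nonneg _) _
  have h9 : ‖μ ^ M - 1‖ ≤ ‖(p : S)‖ := by
    have hn0 : (n : S) ≠ 0 := by
      intro h
      rw [h, norm_zero] at hn1
      exact zero_ne_one hn1
    have h10 : (n : S) ^ M * (μ ^ M - 1) = (ν ^ M - 1) - ((n : S) ^ M - 1) := by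
      rw [hν, mul_pow]; ring
    have h11 : ‖(n : S) ^ M * (μ ^ M - 1)‖ = ‖μ ^ M - 1‖ := by
      rw [norm_mul, norm_pow, hn1, one_pow, one_mul]
    rw [← h11, h10]
    exact norm_sub_le' h7 h8
  obtain ⟨M', hM', h10⟩ := exists_pow_near hp.pos hp1 (z := μ ^ M)
    (by rw [norm_pow, hμ, one_pow]) h9 ε hε
  exact ⟨M * M', Nat.mul_pos hM0 hM', by rw [pow_mul]; exact h10⟩

end powers

/-- A place at which finitely many algebraic numbers are integral. -/
theorem exists_place (k₀ : Type) [Field k₀] [NumberField k₀] (A : Set (AlgebraicClosure k₀))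
    (hA : A.Finite) : ∃ p : ℕ, p.Prime ∧ ∀ a ∈ A, ∃ n : ℤ, ¬ (p : ℤ) ∣ n ∧
      IsIntegral ℤ ((n : AlgebraicClosure k₀) * a) := by
  classical
  have : Algebra.IsAlgebraic ℚ k₀ := Algebra.IsAlgebraic.of_finite ℚ k₀
  have : Algebra.IsAlgebraic ℚ (AlgebraicClosure k₀) := Algebra.IsAlgebraic.trans ℚ k₀ _
  have : Algebra.IsAlgebraic ℤ (AlgebraicClosure k₀) :=
    (IsFractionRing.comap_isAlgebraic_iff (A := ℤ) (K := ℚ)).mpr inferInstance
  have h1 : ∀ a : AlgebraicClosure k₀, ∃ n : ℤ, n ≠ 0 ∧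
      IsIntegral ℤ ((n : AlgebraicClosure k₀) * a) := by
    intro a
    obtain ⟨n, hn, h⟩ := (Algebra.IsAlgebraic.isAlgebraic (R := ℤ) a).exists_integral_multiple
    refine ⟨n, hn, ?_⟩
    rwa [zsmul_eq_mul] at h
  choose n hn hint using h1
  obtain ⟨p, hp1, hp2⟩ := Nat.exists_infinite_primes
    ((∏ a ∈ hA.toFinset, (n a).natAbs) + 1)
  refine ⟨p, hp2, fun a ha => ⟨n a, fun hdvd => ?_, hint a⟩⟩
  have h2 : (n a).natAbs ≤ ∏ a ∈ hA.toFinset, (n a).natAbs :=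
    Nat.le_of_dvd (Finset.prod_pos fun b _ => Int.natAbs_pos.mpr (hn b))
      (Finset.dvd_prod_of_mem _ (hA.mem_toFinset.mpr ha))
  have h3 : p ≤ (n a).natAbs := Nat.le_of_dvd (Int.natAbs_pos.mpr (hn a))
    (Int.natCast_dvd.mp hdvd)
  omega

end Pool.Agent.W572.G
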