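import Pool.Agent.W572.G.Core
import Pool.Agent.W572.G.Place
import Pool.Agent.W572.Wrap

/-!
# Potential density of the hypersurface
-/

set_option autoImplicit false

namespace Pool.Agent.W572.G

open MvPolynomial AlgebraicGeometry CategoryTheory

lemma norm_prime_padicAlgCl (p : ℕ) [Fact p.Prime] : ‖((p : ℕ) : PadicAlgCl p)‖ = (p : ℝ)⁻¹ := by
  have h1 : ((p : ℕ) : PadicAlgCl p) = algebraMap ℚ_[p] (PadicAlgCl p) ((p : ℕ) : ℚ_[p]) :=
    (map_natCast (algebraMap ℚ_[p] (PadicAlgCl p)) p).symm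
  rw [h1]
  exact (PadicAlgCl.norm_extends p _).trans Padic.norm_p

lemma norm_int_padicAlgCl (p : ℕ) [Fact p.Prime] (n : ℤ) (hn : ¬ (p : ℤ) ∣ n) :
    ‖(n : PadicAlgCl p)‖ = 1 := by
  have h1 : (n : PadicAlgCl p) = algebraMap ℚ_[p] (PadicAlgCl p) (n : ℚ_[p]) :=
    (map_intCast (algebraMap ℚ_[p] (PadicAlgCl p)) n).symm
  rw [h1]
  refine (PadicAlgCl.norm_extends p _).trans ?_
  apply le_antisymm (IsUltrametricDist.norm_intCast_le_one ℚ_[p] n)
  by_contra hcon
  push Not at hcon
  exact hn (Padic.norm_intCast_lt_one_iff.mp hcon)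

/-- The density statement over an algebraic closure of a number field. -/
theorem dense_points (k₀ : Type) [Field k₀] [NumberField k₀] {N m : ℕ}
    (F : MvPolynomial (Fin N) (AlgebraicClosure k₀)) (hF : Irreducible F)
    (r : Fin N → AlgebraicClosure k₀) (hr : eval r F = 0) (l₀ : Fin N)
    (hl₀ : eval r (pderiv l₀ F) ≠ 0) (g : Fin m → FibredSelfMap F r)
    (hgen : TangentGenerating F (fun i => (g i).velocity) r) :
    ∃ L : IntermediateField k₀ (AlgebraicClosure k₀), FiniteDimensional k₀ L ∧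
      ∀ P : MvPolynomial (Fin N) (AlgebraicClosure k₀),
        (∀ x : Fin N → AlgebraicClosure k₀, (∀ l, x l ∈ L) → eval x F = 0 → eval x P = 0) →
          F ∣ P := by
  classical
  -- the elements which have to be integral
  let B₁ : Set (AlgebraicClosure k₀) := ⋃ i : Fin m, ⋃ l : Fin N, ⋃ j : Fin N,
    {(eval r (g i).den * eval r (pderiv j ((g i).num l)) -
      eval r ((g i).num l) * eval r (pderiv j (g i).den)) / (eval r (g i).den) ^ 2}
  let B₂ : Set (AlgebraicClosure k₀) := ⋃ i : Fin m, {(g i).μ, (g i).μ⁻¹}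
  have hB : (B₁ ∪ B₂).Finite := by
    refine Set.Finite.union ?_ ?_
    · exact Set.finite_iUnion fun i => Set.finite_iUnion fun l => Set.finite_iUnion fun j =>
        Set.finite_singleton _
    · exact Set.finite_iUnion fun i => (Set.finite_singleton _).insert _
  obtain ⟨p, hp, hint⟩ := exists_place k₀ _ hB
  have : Fact p.Prime := ⟨hp⟩
  have hcore : ∃ x₀ : Fin N → AlgebraicClosure k₀, ∀ K : Subfield (AlgebraicClosure k₀),
      (∀ l, x₀ l ∈ K) → (∀ i l d, coeff d ((g i).num l) ∈ K) → (∀ i d, coeff d (g i).den ∈ K) →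
      ∀ P : MvPolynomial (Fin N) (AlgebraicClosure k₀),
        (∀ x : Fin N → AlgebraicClosure k₀, (∀ l, x l ∈ K) → eval x F = 0 → eval x P = 0) →
          F ∣ P := by
    obtain ⟨ι⟩ := exists_embedding p k₀
    letI : NormedField (AlgebraicClosure k₀) := NormedField.induced _ _ ι ι.injective
    have hn : ∀ x : AlgebraicClosure k₀, ‖x‖ = ‖ι x‖ := fun x => rfl
    have : IsUltrametricDist (AlgebraicClosure k₀) :=
      IsUltrametricDist.isUltrametricDist_of_forall_norm_add_le_max_norm (fun x y => by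
        rw [hn, hn, hn, map_add]; exact PadicAlgCl.isNonarchimedean p _ _)
    have hp0 : ((p : ℕ) : AlgebraicClosure k₀) ≠ 0 := by exact_mod_cast hp.ne_zero
    have hp1 : ‖((p : ℕ) : AlgebraicClosure k₀)‖ < 1 := by
      rw [hn, map_natCast, norm_prime_padicAlgCl]
      exact inv_lt_one_of_one_lt₀ (by exact_mod_cast hp.one_lt)
    have hunit : ∀ n : ℤ, ¬ (p : ℤ) ∣ n → ‖(n : AlgebraicClosure k₀)‖ = 1 := by
      intro n hn'
      rw [hn, map_intCast]
      exact norm_int_padicAlgCl p n hn'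
    have hle : ∀ a ∈ B₁ ∪ B₂, ‖a‖ ≤ 1 := by
      intro a ha
      obtain ⟨n, hn1, hn2⟩ := hint a ha
      have h1 := norm_le_one_of_isIntegral hn2
      rwa [norm_mul, hunit n hn1, one_mul] at h1
    have hμ : ∀ i, ‖(g i).μ‖ = 1 := by
      intro i
      have h1 : ‖(g i).μ‖ ≤ 1 := hle _ (Or.inr (Set.mem_iUnion.mpr ⟨i, Or.inl rfl⟩))
      have h2 : ‖(g i).μ⁻¹‖ ≤ 1 := hle _ (Or.inr (Set.mem_iUnion.mpr ⟨i, Or.inr rfl⟩))
      have h3 : ‖(g i).μ‖ * ‖(g i).μ⁻¹‖ = 1 := by
        rw [← norm_mul, mul_inv_cancel₀ (g i).μ_ne, norm_one]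
      have h4 := norm_nonneg (g i).μ
      nlinarith
    refine core hp0 hp1 hF hr l₀ hl₀ g hgen ?_ hμ ?_
    · intro i l j
      apply hle
      left
      simp only [B₁, Set.mem_iUnion]
      exact ⟨i, l, j, rfl⟩
    · intro i ε hε
      obtain ⟨n, hn1, hn2⟩ := hint (g i).μ (Or.inr (Set.mem_iUnion.mpr ⟨i, Or.inl rfl⟩))
      exact exists_pow_near_one hp hp1 hunit (hμ i) hn1 hn2 ε hε
  obtain ⟨x₀, hx₀⟩ := hcore
  -- the number field
  let A₁ : Set (AlgebraicClosure k₀) := Set.range x₀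
  let A₂ : Set (AlgebraicClosure k₀) := ⋃ i : Fin m, ⋃ l : Fin N,
    (((g i).num l).coeffs : Set (AlgebraicClosure k₀))
  let A₃ : Set (AlgebraicClosure k₀) := ⋃ i : Fin m,
    ((g i).den.coeffs : Set (AlgebraicClosure k₀))
  let A : Set (AlgebraicClosure k₀) := A₁ ∪ (A₂ ∪ A₃)
  have hA : A.Finite := by
    refine (Set.finite_range x₀).union (Set.Finite.union ?_ ?_)
    · exact Set.finite_iUnion fun i => Set.finite_iUnion fun l => Finset.finite_toSet _
    · exact Set.finite_iUnion fun i => Finset.finite_toSet _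
  have : Finite A := hA
  refine ⟨IntermediateField.adjoin k₀ A, ?_, ?_⟩
  · exact IntermediateField.finiteDimensional_adjoin
      (fun x _ => Algebra.IsIntegral.isIntegral x)
  · intro P hP
    have hsub : A ⊆ IntermediateField.adjoin k₀ A := IntermediateField.subset_adjoin _ _
    have hcoef : ∀ Q : MvPolynomial (Fin N) (AlgebraicClosure k₀),
        ((Q.coeffs : Set (AlgebraicClosure k₀)) ⊆ A) →
        ∀ d, coeff d Q ∈ (IntermediateField.adjoin k₀ A).toSubfield := by
      intro Q hQ d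
      by_cases hd : coeff d Q = 0
      · rw [hd]; exact Subfield.zero_mem _
      · exact hsub (hQ (MvPolynomial.coeff_mem_coeffs d hd))
    refine hx₀ (IntermediateField.adjoin k₀ A).toSubfield (fun l => hsub (Or.inl ⟨l, rfl⟩)) ?_ ?_
      P hP
    · intro i l
      refine hcoef _ fun a ha => Or.inr (Or.inl ?_)
      simp only [A₂, Set.mem_iUnion]
      exact ⟨i, l, ha⟩
    · intro i
      refine hcoef _ fun a ha => Or.inr (Or.inr ?_)
      simp only [A₃, Set.mem_iUnion]
      exact ⟨i, ha⟩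

/-- Descent of divisibility. -/
lemma dvd_descent {k S : Type*} [Field k] [Field S] [Algebra k S] {σ : Type*}
    (F P : MvPolynomial σ k) (h : map (algebraMap k S) F ∣ map (algebraMap k S) P) : F ∣ P := by
  classical
  obtain ⟨Q, hQ⟩ := h
  obtain ⟨ρ, hρ⟩ := (Algebra.linearMap k S).exists_leftInverse_of_injective
    (LinearMap.ker_eq_bot.mpr (algebraMap k S).injective)
  have hρ1 : ∀ a : k, ρ (algebraMap k S a) = a := fun a =>
    congrFun (congrArg DFunLike.coe hρ) a
  let Q' : MvPolynomial σ k := ∑ b ∈ Q.support, monomial b (ρ (coeff b Q))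
  have hQ' : ∀ b, coeff b Q' = ρ (coeff b Q) := by
    intro b
    simp only [Q', coeff_sum, coeff_monomial]
    rw [Finset.sum_ite_eq' Q.support b]
    split_ifs with hb
    · rfl
    · rw [notMem_support_iff.mp hb, map_zero]
  refine ⟨Q', ?_⟩
  ext d
  rw [coeff_mul]
  have h1 := congrArg (fun R => ρ (coeff d R)) hQ
  simp only [coeff_map, hρ1, coeff_mul, map_sum] at h1
  rw [h1]
  refine Finset.sum_congr rfl fun x _ => ?_
  rw [hQ', ← Algebra.smul_def, map_smul, smul_eq_mul]

/-- The main theorem. -/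
theorem main (k₀ : Type) [Field k₀] [NumberField k₀] {N m : ℕ}
    (F : MvPolynomial (Fin N) k₀)
    (hF : Irreducible (map (algebraMap k₀ (AlgebraicClosure k₀)) F))
    (r : Fin N → AlgebraicClosure k₀) (hr : aeval r F = 0)
    (hsm : ∃ l, aeval r (pderiv l F) ≠ 0)
    (g : Fin m → FibredSelfMap (map (algebraMap k₀ (AlgebraicClosure k₀)) F) r)
    (hgen : TangentGenerating (map (algebraMap k₀ (AlgebraicClosure k₀)) F)
      (fun i => (g i).velocity) r)
    {X : Scheme.{0}} (sX : X ⟶ Spec (.of k₀))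
    (f : (hypersurface F).PartialMap X) (hf : IsDominant f.hom)
    (hfk : f.hom ≫ sX = f.domain.ι ≫ hypersurfaceStr F) : PotentiallyDense sX := by
  classical
  obtain ⟨l₀, hl₀⟩ := hsm
  obtain ⟨L, hL, hLd⟩ := dense_points k₀ (map (algebraMap k₀ (AlgebraicClosure k₀)) F) hF r
    (by rw [MvPolynomial.eval_map, ← aeval_def, hr]) l₀
    (by rw [pderiv_map, MvPolynomial.eval_map, ← aeval_def]; exact hl₀) g hgen
  have := hL
  let f' : (Spec (.of (MvPolynomial (Fin N) k₀ ⧸ Ideal.span {F}))).PartialMap X := f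
  have hf' : IsDominant f'.hom := hf
  refine potentiallyDense_of_partialMap (MvPolynomial (Fin N) k₀ ⧸ Ideal.span {F}) L ?_ sX f' hfk
  intro G₀ hG₀
  obtain ⟨G, rfl⟩ := Ideal.Quotient.mk_surjective G₀
  have hFG : ¬ F ∣ G := by
    intro h
    exact hG₀ (Ideal.Quotient.eq_zero_iff_mem.mpr (Ideal.mem_span_singleton.mpr h))
  obtain ⟨x, hx1, hx2, hx3⟩ : ∃ x : Fin N → AlgebraicClosure k₀, (∀ l, x l ∈ L) ∧
      eval x (map (algebraMap k₀ (AlgebraicClosure k₀)) F) = 0 ∧
      eval x (map (algebraMap k₀ (AlgebraicClosure k₀)) G) ≠ 0 := by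
    by_contra hcon
    push Not at hcon
    exact hFG (dvd_descent F G (hLd _ hcon))
  let x' : Fin N → L := fun l => ⟨x l, hx1 l⟩
  have hev : ∀ H : MvPolynomial (Fin N) k₀, algebraMap L (AlgebraicClosure k₀) (aeval x' H) =
      eval x (map (algebraMap k₀ (AlgebraicClosure k₀)) H) := by
    intro H
    rw [MvPolynomial.eval_map, ← aeval_def, ← aeval_algebraMap_apply]
    rfl
  have hF0 : ∀ a ∈ Ideal.span {F}, aeval x' a = 0 := by
    intro a ha
    obtain ⟨b, rfl⟩ := Ideal.mem_span_singleton.mp ha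
    have h1 : aeval x' F = 0 := by
      apply (algebraMap L (AlgebraicClosure k₀)).injective
      rw [hev, hx2, map_zero]
    rw [map_mul, h1, zero_mul]
  refine ⟨Ideal.Quotient.liftₐ _ (aeval x') hF0, ?_⟩
  rw [Ideal.Quotient.liftₐ_apply]
  change aeval x' G ≠ 0
  intro h
  apply hx3
  rw [← hev, h, map_zero]

end Pool.Agent.W572.G
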