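import Pool.Agent.W572.G.Cubic

/-!
# The self-map attached to a pair of variables `p`, `s` with `F` quadratic in `y_s`, with
discriminant of degree at most four in `y_p`
-/

set_option autoImplicit false

namespace Pool.Agent.W572.G

open MvPolynomial

variable {S : Type*} [Field S] {N : ℕ}

lemma pderiv_support {P : MvPolynomial (Fin N) S} {s : Fin N} {k : ℕ}
    (h : ∀ m ∈ P.support, m s ≤ k + 1) : ∀ m ∈ (pderiv s P).support, m s ≤ k := by
  intro m hm
  rw [mem_support_iff, coeff_pderiv] at hm
  have h1 := h _ (mem_support_iff.mpr (left_ne_zero_of_mul hm))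
  simp only [Finsupp.coe_add, Pi.add_apply, Finsupp.single_eq_same] at h1
  omega

lemma pderiv_eq_zero {P : MvPolynomial (Fin N) S} {s : Fin N}
    (h : ∀ m ∈ P.support, m s ≤ 0) : pderiv s P = 0 := by
  ext m
  rw [coeff_pderiv, coeff_zero]
  by_cases h1 : coeff (m + Finsupp.single s 1) P = 0
  · rw [h1, zero_mul]
  · have h2 := h _ (mem_support_iff.mpr h1)
    simp only [Finsupp.coe_add, Pi.add_apply, Finsupp.single_eq_same] at h2
    omega

lemma pderiv_three {F : MvPolynomial (Fin N) S} {s : Fin N} (h : ∀ m ∈ F.support, m s ≤ 2) :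
    pderiv s (pderiv s (pderiv s F)) = 0 :=
  pderiv_eq_zero (pderiv_support (pderiv_support h))

lemma shift_point (x : Fin N → S) (p : Fin N) (t : S) :
    (fun l => x l + eval x (pderiv p (X l : MvPolynomial (Fin N) S)) * t) =
      Function.update x p (x p + t) := by
  classical
  funext l
  rw [pderiv_X]
  by_cases h : l = p
  · subst h; simp
  · rw [Pi.single_eq_of_ne h, map_zero, zero_mul, add_zero, Function.update_of_ne h]

lemma eval_shift (P : MvPolynomial (Fin N) S) (x : Fin N → S) (p : Fin N) (t : S) :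
    eval (Function.update x p (x p + t)) P =
      ((lineRestrict (pderiv p) P).map (eval x)).eval t := by
  rw [eval_lineRestrict, shift_point]

lemma derivative_shift (P : MvPolynomial (Fin N) S) (s : Fin N) :
    Polynomial.derivative (lineRestrict (pderiv s) P) = lineRestrict (pderiv s) (pderiv s P) := by
  classical
  rw [derivative_lineRestrict, Finset.sum_eq_single s]
  · rw [pderiv_X_self, Polynomial.C_1, one_mul]
  · intro b _ hb
    rw [pderiv_X_of_ne hb, Polynomial.C_0, zero_mul]
  · intro h; exact absurd (Finset.mem_univ _) h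

lemma lineRestrict_const [CharZero S] {P : MvPolynomial (Fin N) S} {s : Fin N}
    (h : pderiv s P = 0) : lineRestrict (pderiv s) P = Polynomial.C P := by
  have h1 : Polynomial.derivative (lineRestrict (pderiv s) P) = 0 := by
    rw [derivative_shift, h]
    simp [lineRestrict]
  have h2 := Polynomial.derivative_eq_zero.mp h1
  rw [Polynomial.eq_C_of_natDegree_eq_zero h2, lineRestrict_coeff_zero]

lemma eval_shift_const [CharZero S] {P : MvPolynomial (Fin N) S} {s : Fin N}
    (h : pderiv s P = 0) (x : Fin N → S) (t : S) :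
    eval (Function.update x s (x s + t)) P = eval x P := by
  rw [eval_shift, lineRestrict_const h]
  simp

lemma eval_shift_affine [CharZero S] {P : MvPolynomial (Fin N) S} {s : Fin N}
    (h : pderiv s (pderiv s P) = 0) (x : Fin N → S) (t : S) :
    eval (Function.update x s (x s + t)) P = eval x P + t * eval x (pderiv s P) := by
  have h1 : Polynomial.derivative (lineRestrict (pderiv s) P -
      Polynomial.C (pderiv s P) * Polynomial.X) = 0 := by
    rw [Polynomial.derivative_sub, derivative_shift, lineRestrict_const h,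
      Polynomial.derivative_C_mul, Polynomial.derivative_X, mul_one, sub_self]
  have h2 := Polynomial.eq_C_of_natDegree_eq_zero
    (Polynomial.derivative_eq_zero.mp h1)
  rw [Polynomial.coeff_sub, lineRestrict_coeff_zero, Polynomial.coeff_C_mul,
    Polynomial.coeff_X_zero, mul_zero, sub_zero] at h2
  rw [eval_shift, sub_eq_iff_eq_add.mp h2]
  simp only [Polynomial.map_add, Polynomial.map_mul, Polynomial.map_C, Polynomial.map_X,
    Polynomial.eval_add, Polynomial.eval_mul, Polynomial.eval_C, Polynomial.eval_X]
  ring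

lemma eval_shift_four {P : MvPolynomial (Fin N) S} {p s : Fin N} (hps : p ≠ s)
    (h : ∀ m ∈ P.support, m p + m s ≤ 4) (x : Fin N → S) (t : S) :
    eval (Function.update x p (x p + t)) P = eval x P + eval x (pderiv p P) * t +
      eval x ((lineRestrict (pderiv p) P).coeff 2) * t ^ 2 +
      eval x ((lineRestrict (pderiv p) P).coeff 3) * t ^ 3 +
      eval x ((lineRestrict (pderiv p) P).coeff 4) * t ^ 4 := by
  rw [eval_shift]
  have h1 := lineRestrict_natDegree P hps (pderiv p)
    (fun l h1 _ => pderiv_X_of_ne h1) h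
  have h2 : ((lineRestrict (pderiv p) P).map (eval x)).natDegree < 5 :=
    lt_of_le_of_lt (Polynomial.natDegree_map_le) (by omega)
  rw [Polynomial.eval_eq_sum_range' h2]
  simp only [Finset.sum_range_succ, Finset.sum_range_zero, Polynomial.coeff_map,
    lineRestrict_coeff_zero, lineRestrict_coeff_one, zero_add, pow_zero, mul_one, pow_one]

/-- Clearing denominators in `Q(y + (Δ ν / n) e_p)`. -/
lemma exists_clear (Q Δ ν n : MvPolynomial (Fin N) S) (p : Fin N) :
    ∃ k₀ : ℕ, ∀ K, k₀ ≤ K → ∃ Z : MvPolynomial (Fin N) S, ∀ x, eval x n ≠ 0 →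
      eval (Function.update x p (x p + eval x (Δ * ν) / eval x n)) Q * eval x n ^ K =
        eval x (Q * n ^ K + Δ * Z) := by
  classical
  refine ⟨(lineRestrict (pderiv p) Q).natDegree, fun K hK => ?_⟩
  refine ⟨∑ j ∈ Finset.range K, (lineRestrict (pderiv p) Q).coeff (j + 1) * Δ ^ j * ν ^ (j + 1) *
    n ^ (K - (j + 1)), fun x hx => ?_⟩
  rw [eval_shift]
  have h2 : ((lineRestrict (pderiv p) Q).map (eval x)).natDegree < K + 1 :=
    lt_of_le_of_lt (Polynomial.natDegree_map_le) (by omega)
  have hR : eval x (Q * n ^ K + Δ * ∑ j ∈ Finset.range K, (lineRestrict (pderiv p) Q).coeff (j + 1) *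
      Δ ^ j * ν ^ (j + 1) * n ^ (K - (j + 1))) =
      (∑ j ∈ Finset.range K, eval x (Δ * ((lineRestrict (pderiv p) Q).coeff (j + 1) *
      Δ ^ j * ν ^ (j + 1) * n ^ (K - (j + 1))))) + eval x Q * eval x n ^ K := by
    rw [Finset.mul_sum, map_add, map_sum, map_mul, map_pow, add_comm]
  rw [hR, Polynomial.eval_eq_sum_range' h2, Finset.sum_range_succ', add_mul, Finset.sum_mul]
  refine congrArg₂ (· + ·) (Finset.sum_congr rfl fun j hj => ?_) ?_
  rotate_left
  · simp only [Polynomial.coeff_map, lineRestrict_coeff_zero, pow_zero, mul_one]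
  · beta_reduce
    have hj' : j < K := Finset.mem_range.mp hj
    have h3 : eval x n ^ K = eval x n ^ (K - (j + 1)) * eval x n ^ (j + 1) := by
      rw [← pow_add]
      congr 1
      omega
    rw [h3, Polynomial.coeff_map]
    simp only [map_mul, map_pow]
    rw [div_pow, mul_pow]
    field_simp
    ring

/-- The self-map `x ↦ 3 x` of the double covers of the pair of variables `p`, `s`. -/
theorem quad_map [IsAlgClosed S] [CharZero S] {F : MvPolynomial (Fin N) S}
    (hF : Irreducible F) {p s : Fin N} (hps : p ≠ s)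
    (hdeg : ∀ m ∈ F.support, m s ≤ 2) (hdisc : ∀ m ∈ (disc F s).support, m p ≤ 4)
    {r : Fin N → S} (hr : eval r F = 0) (hrs : eval r (pderiv s F) = 0)
    (hrp : eval r (pderiv p F) ≠ 0) (hrss : eval r (pderiv s (pderiv s F)) ≠ 0) :
    ∃ g : FibredSelfMap F r, g.velocity = planeField F p s := by
  classical
  set V := planeField F p s with hV
  have hVa : ∀ P, V P = pderiv s F * pderiv p P - pderiv p F * pderiv s P :=
    planeField_apply F hps
  set W := pderiv s F with hW
  set A := pderiv s W with hA
  set Δ := disc F s with hΔ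
  have hΔdef : Δ = W ^ 2 - 2 * F * A := rfl
  have hA0 : pderiv s A = 0 := pderiv_three hdeg
  have h2 : (pderiv s : Derivation S (MvPolynomial (Fin N) S) (MvPolynomial (Fin N) S)) 2 = 0 := by
    have : (2 : MvPolynomial (Fin N) S) = C 2 := (map_ofNat C 2).symm
    rw [this, pderiv_C]
  have h2p : (pderiv p : Derivation S (MvPolynomial (Fin N) S) (MvPolynomial (Fin N) S)) 2 = 0 := by
    have : (2 : MvPolynomial (Fin N) S) = C 2 := (map_ofNat C 2).symm
    rw [this, pderiv_C]
  have hΔs : pderiv s Δ = 0 := by
    rw [hΔdef, map_sub, pderiv_mul, pderiv_mul, pderiv_pow, h2, hA0, ← hW, ← hA]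
    push_cast
    ring
  have hΔsupp : ∀ m ∈ Δ.support, m p + m s ≤ 4 := by
    intro m hm
    have h3 : m s = 0 := by
      by_contra hne
      have h4 := congrArg (coeff (m - Finsupp.single s 1)) hΔs
      rw [coeff_pderiv, coeff_zero] at h4
      have h5 : m - Finsupp.single s 1 + Finsupp.single s 1 = m := by
        apply tsub_add_cancel_of_le
        rw [Finsupp.single_le_iff]
        omega
      rw [h5] at h4
      rcases mul_eq_zero.mp h4 with h6 | h6
      · exact (mem_support_iff.mp hm) h6
      · exact Nat.cast_add_one_ne_zero _ h6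
    have := hdisc m hm
    omega
  have hWr : eval r W = 0 := hrs
  have hΔr : eval r Δ = 0 := by
    rw [hΔdef, map_sub, map_mul, map_mul, map_pow, hWr, hr]; ring
  -- the coefficients of the discriminant
  set d1 := pderiv p Δ with hd1
  set d2 := (lineRestrict (pderiv p) Δ).coeff 2 with hd2
  set d3 := (lineRestrict (pderiv p) Δ).coeff 3 with hd3
  set d4 := (lineRestrict (pderiv p) Δ).coeff 4 with hd4
  set e := 4 * Δ * d2 - d1 ^ 2 with he
  set n1 := d1 * e - 8 * Δ ^ 2 * d3 with hn1
  set n2 := e ^ 2 - 64 * Δ ^ 3 * d4 with hn2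
  have hd1r : eval r d1 ≠ 0 := by
    have h3 : eval r d1 = - 2 * eval r (pderiv p F) * eval r A := by
      rw [hd1, hΔdef, map_sub, pderiv_mul, pderiv_mul, pderiv_pow, h2p]
      simp only [map_sub, map_add, map_mul, map_pow, hWr, hr, map_ofNat]
      ring
    rw [h3]
    exact mul_ne_zero (mul_ne_zero (by norm_num) hrp) hrss
  have her : eval r e = - (eval r d1) ^ 2 := by
    rw [he]; simp only [map_sub, map_mul, map_pow, hΔr]; ring
  have hn1r : eval r n1 = - (eval r d1) ^ 3 := by
    rw [hn1]; simp only [map_sub, map_mul, map_pow, hΔr, her]; ring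
  have hn2r : eval r n2 = (eval r d1) ^ 4 := by
    rw [hn2]; simp only [map_sub, map_mul, map_pow, hΔr, her]; ring
  have hn2r0 : eval r n2 ≠ 0 := by rw [hn2r]; exact pow_ne_zero _ hd1r
  obtain ⟨k₁, hk₁⟩ := exists_clear W Δ (-8 * n1) n2 p
  obtain ⟨k₂, hk₂⟩ := exists_clear A Δ (-8 * n1) n2 p
  set K := k₁ + k₂ with hK
  obtain ⟨ZW, hZW⟩ := hk₁ (K + 2) (by omega)
  obtain ⟨ZA, hZA⟩ := hk₂ (K + 2) (by omega)
  set Wh := W * n2 ^ (K + 2) + Δ * ZW with hWh
  set Ah := A * n2 ^ (K + 2) + Δ * ZA with hAh
  set cc := n2 ^ 2 - 4 * d1 * n1 * n2 + 8 * e * n1 ^ 2 with hcc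
  set Mm := - W * cc * n2 ^ K - Wh with hMm
  have hAhr : eval r Ah = eval r A * eval r n2 ^ (K + 2) := by
    rw [hAh]; simp only [map_add, map_mul, map_pow, hΔr]; ring
  have hWhr : eval r Wh = 0 := by
    rw [hWh]; simp only [map_add, map_mul, map_pow, hΔr, hWr]; ring
  have hMmr : eval r Mm = 0 := by
    rw [hMm]; simp only [map_sub, map_mul, map_neg, hWhr, hWr]; ring
  have hden : eval r (n2 * Ah) ≠ 0 := by
    rw [map_mul, hAhr]
    exact mul_ne_zero hn2r0 (mul_ne_zero hrss (pow_ne_zero _ hn2r0))
  let num : Fin N → MvPolynomial (Fin N) S := fun l =>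
    if l = p then X p * (n2 * Ah) + (Δ * (-8 * n1)) * Ah
    else if l = s then X s * (n2 * Ah) + Mm * n2 else X l * (n2 * Ah)
  have hnp : num p = X p * (n2 * Ah) + (Δ * (-8 * n1)) * Ah := if_pos rfl
  have hns : num s = X s * (n2 * Ah) + Mm * n2 := by
    simp only [num]; rw [if_neg (Ne.symm hps)]; simp
  have hnl : ∀ l, l ≠ p → l ≠ s → num l = X l * (n2 * Ah) := by
    intro l h3 h4
    simp only [num]; rw [if_neg h3, if_neg h4]
  -- the point
  have hpt : ∀ x, eval x (n2 * Ah) ≠ 0 → ratMap num (n2 * Ah) x =
      Function.update (Function.update x p (x p + eval x (Δ * (-8 * n1)) / eval x n2)) s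
        (x s + eval x Mm / eval x Ah) := by
    intro x hx
    rw [map_mul] at hx
    have hx1 := left_ne_zero_of_mul hx
    have hx2 := right_ne_zero_of_mul hx
    funext l
    by_cases hls : l = s
    · rw [hls, Function.update_self, ratMap, hns]
      simp only [map_add, map_mul, eval_X]
      field_simp
    · rw [Function.update_of_ne hls]
      by_cases hlp : l = p
      · rw [hlp, Function.update_self, ratMap, hnp]
        simp only [map_add, map_mul, eval_X]
        field_simp
      · rw [Function.update_of_ne hlp, ratMap, hnl l hlp hls]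
        simp only [map_mul, eval_X]
        field_simp
  have hVF : V F = 0 := planeField_self F hps
  have hVWr : eval r (V W) = - eval r (pderiv p F) * eval r A := by
    rw [hVa, map_sub, map_mul, map_mul, hWr]; ring
  -- divisibility
  have hFW : ¬ F ∣ W := by
    rintro ⟨R, hR⟩
    have h3 : V W = F * V R := by
      rw [hR, Derivation.leibniz, hVF, smul_zero, add_zero, smul_eq_mul]
    have h4 := congrArg (eval r) h3
    rw [hVWr, map_mul, hr, zero_mul] at h4
    exact (mul_ne_zero (neg_ne_zero.mpr hrp) hrss) h4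
  have hFn1 : ¬ F ∣ n1 := by
    rintro ⟨R, hR⟩
    have h3 : eval r n1 = 0 := by rw [hR, map_mul, hr, zero_mul]
    rw [hn1r] at h3
    exact (neg_ne_zero.mpr (pow_ne_zero 3 hd1r)) h3
  have hFden : ¬ F ∣ n2 * Ah := by
    rintro ⟨R, hR⟩
    apply hden
    rw [hR, map_mul, hr, zero_mul]
  have hFall : ¬ F ∣ W * n1 * (n2 * Ah) := fun h =>
    (hF.prime.dvd_or_dvd h).elim (fun h => (hF.prime.dvd_or_dvd h).elim hFW hFn1) hFden
  refine plane_map hps (Or.inr hrp) num (n2 * Ah) 3 hden ?_ ?_ ?_ ?_ ?_ (by norm_num) ?_
  · rw [hpt r hden]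
    have h3 : eval r (Δ * (-8 * n1)) = 0 := by rw [map_mul, hΔr, zero_mul]
    rw [h3, hMmr, zero_div, zero_div, add_zero, add_zero, Function.update_eq_self,
      Function.update_eq_self]
  · intro x hx hxd
    rw [hpt x hxd]
    rw [map_mul] at hxd
    have hx1 := left_ne_zero_of_mul hxd
    have hx2 := right_ne_zero_of_mul hxd
    set t := eval x (Δ * (-8 * n1)) / eval x n2 with ht
    set x1 := Function.update x p (x p + t) with hx1def
    set μ' := eval x Mm / eval x Ah with hμ'
    have hx1s : x1 s = x s := by rw [hx1def, Function.update_of_ne (Ne.symm hps)]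
    rw [← hx1s]
    have hW1 : eval x1 W * eval x n2 ^ (K + 2) = eval x Wh := hZW x hx1
    have hA1 : eval x1 A * eval x n2 ^ (K + 2) = eval x Ah := hZA x hx1
    have hn0 : eval x n2 ^ (K + 2) ≠ 0 := pow_ne_zero _ hx1
    have hA1' : eval x1 A = eval x Ah / eval x n2 ^ (K + 2) := by
      rw [eq_div_iff hn0]; exact hA1
    have hW1' : eval x1 W = eval x Wh / eval x n2 ^ (K + 2) := by
      rw [eq_div_iff hn0]; exact hW1
    have hA1ne : eval x1 A ≠ 0 := by rw [hA1']; exact div_ne_zero hx2 hn0
    set x2 := Function.update x1 s (x1 s + μ') with hx2def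
    have hA2 : eval x2 A = eval x1 A := eval_shift_const hA0 x1 μ'
    have hΔ2 : eval x2 Δ = eval x1 Δ := eval_shift_const hΔs x1 μ'
    have hW2 : eval x2 W = eval x1 W + μ' * eval x1 A := eval_shift_affine hA0 x1 μ'
    have hW3 : eval x2 W = - eval x W * eval x cc / eval x n2 ^ 2 := by
      rw [hW2, hW1', hA1', hμ', hMm]
      simp only [map_sub, map_mul, map_neg, map_pow]
      field_simp
      ring
    have hΔx : eval x Δ = eval x W ^ 2 := by
      rw [hΔdef, map_sub, map_mul, map_mul, map_pow, hx]; ring
    have hΔ1 : eval x1 Δ = eval x Δ + eval x d1 * t + eval x d2 * t ^ 2 + eval x d3 * t ^ 3 +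
        eval x d4 * t ^ 4 := eval_shift_four hps hΔsupp x t
    have hid : eval x2 W ^ 2 = eval x1 Δ := by
      have ht' : t = - 8 * eval x Δ * eval x n1 / eval x n2 := by
        rw [ht]
        simp only [map_mul, map_neg, map_ofNat]
        ring
      have e1 : eval x e = 4 * eval x Δ * eval x d2 - eval x d1 ^ 2 := by
        rw [he]; simp only [map_sub, map_mul, map_pow, map_ofNat]
      have e2 : eval x n1 = eval x d1 * eval x e - 8 * eval x Δ ^ 2 * eval x d3 := by
        conv_lhs => rw [hn1]
        simp only [map_sub, map_mul, map_pow, map_ofNat]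
      have e3 : eval x n2 = eval x e ^ 2 - 64 * eval x Δ ^ 3 * eval x d4 := by
        conv_lhs => rw [hn2]
        simp only [map_sub, map_mul, map_pow, map_ofNat]
      have e4 : eval x cc = eval x n2 ^ 2 - 4 * eval x d1 * eval x n1 * eval x n2 +
          8 * eval x e * eval x n1 ^ 2 := by
        rw [hcc]; simp only [map_sub, map_add, map_mul, map_pow, map_ofNat]
      rw [hW3, hΔ1, ht', div_pow, mul_pow, neg_sq, ← hΔx, e4]
      generalize eval x n2 = a2 at *
      generalize eval x n1 = a1 at *
      generalize eval x e = ae at *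
      generalize eval x d1 = b1 at *
      generalize eval x d2 = b2 at *
      generalize eval x d3 = b3 at *
      generalize eval x d4 = b4 at *
      generalize eval x Δ = b0 at *
      field_simp
      linear_combination (16 * a1 ^ 2 * a2 ^ 2 * b0) * e1 + (64 * a1 ^ 3 * a2 * b0) * e2 -
        (64 * a1 ^ 4 * b0) * e3
    have hfin : eval x2 W ^ 2 = eval x2 Δ + 2 * eval x2 F * eval x2 A := by
      rw [hΔdef]; simp only [map_sub, map_mul, map_pow, map_ofNat]; ring
    rw [hid, hΔ2, hA2] at hfin
    have h4 : (2 * eval x1 A) * eval x2 F = 0 := by linear_combination -hfin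
    exact (mul_eq_zero.mp h4).resolve_left (mul_ne_zero two_ne_zero hA1ne)
  · obtain ⟨x, hx1, hx2⟩ := exists_point hF hFall
    rw [map_mul, map_mul] at hx2
    have hxd := right_ne_zero_of_mul hx2
    have hxW := left_ne_zero_of_mul (left_ne_zero_of_mul hx2)
    have hxn1 := right_ne_zero_of_mul (left_ne_zero_of_mul hx2)
    refine ⟨x, hx1, hxd, fun h => ?_⟩
    rw [hpt x hxd] at h
    have h3 := congrFun h p
    rw [Function.update_of_ne hps, Function.update_self] at h3
    have h4 : eval x (Δ * (-8 * n1)) / eval x n2 = 0 := by linear_combination h3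
    rw [map_mul] at hxd
    have h5 := (div_eq_zero_iff.mp h4).resolve_right (left_ne_zero_of_mul hxd)
    have hΔx : eval x Δ = eval x W ^ 2 := by
      rw [hΔdef, map_sub, map_mul, map_mul, map_pow, hx1]; ring
    rw [map_mul, map_mul, hΔx] at h5
    have h6 : eval x (-8 : MvPolynomial (Fin N) S) ≠ 0 := by
      rw [map_neg, map_ofNat]; norm_num
    exact (mul_ne_zero (pow_ne_zero 2 hxW) (mul_ne_zero h6 hxn1)) h5
  · intro l hlp hls x
    rw [hnl l hlp hls, map_mul, eval_X]
  · -- the multiplier
    have hVΔ : eval r (V Δ) = 0 := by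
      have h3 : V 2 = 0 := by
        have : (2 : MvPolynomial (Fin N) S) = C 2 := (map_ofNat C 2).symm
        rw [this, ← algebraMap_eq, Derivation.map_algebraMap]
      rw [hΔdef, pow_two, map_sub, Derivation.leibniz, Derivation.leibniz, Derivation.leibniz,
        hVF, h3]
      simp only [smul_eq_mul, map_sub, map_add, map_mul, hWr, hr, map_zero]
      ring
    have hVΔZ : ∀ Z, eval r (V (Δ * Z)) = 0 := by
      intro Z
      rw [Derivation.leibniz]
      simp only [smul_eq_mul, map_add, map_mul, hVΔ, hΔr]
      ring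
    intro l
    rw [← hV]
    by_cases hlp : l = p
    · have h3 : valueAt V r l = 0 := by
        rw [valueAt, hlp, hV, planeField_p]; exact hrs
      have h4 : eval r (V (X p)) = 0 := by rw [hV, planeField_p]; exact hrs
      rw [h3, hlp, hnp, map_add, Derivation.leibniz, mul_assoc Δ, map_add, hVΔZ]
      simp only [smul_eq_mul, map_add, map_mul, eval_X, h4]
      ring
    · by_cases hls : l = s
      · have h3 : eval r (V (X s)) = - eval r (pderiv p F) := by
          rw [hV, planeField_s F hps, map_neg]
        have h4 : valueAt V r l = - eval r (pderiv p F) := by rw [valueAt, hls, h3]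
        have h5 : eval r (V Mm) = 2 * eval r (V W) * eval r n2 ^ (K + 2) := by
          have h6 : eval r (V Wh) = eval r (V W) * eval r n2 ^ (K + 2) := by
            rw [hWh, map_add, map_add, hVΔZ, Derivation.leibniz]
            simp only [smul_eq_mul, map_add, map_mul, map_pow, hWr]
            ring
          have h7 : eval r (V (- W * cc * n2 ^ K)) =
              - eval r (V W) * eval r cc * eval r n2 ^ K := by
            rw [Derivation.leibniz, Derivation.leibniz, map_neg]
            simp only [smul_eq_mul, map_add, map_mul, map_neg, map_pow, hWr]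
            ring
          have h8 : eval r cc = -3 * eval r n2 ^ 2 := by
            rw [hcc]
            simp only [map_sub, map_add, map_mul, map_pow, map_ofNat, hn1r, hn2r, her]
            ring
          rw [hMm, map_sub, map_sub, h6, h7, h8]
          ring
        have h9 : V (X s * (n2 * Ah) + Mm * n2) =
            X s * V (n2 * Ah) + (n2 * Ah) * V (X s) + (Mm * V n2 + n2 * V Mm) := by
          rw [map_add, Derivation.leibniz _ (X s), Derivation.leibniz _ Mm]
          simp only [smul_eq_mul]
        rw [h4, hls, hns, h9]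
        simp only [map_add, map_mul, eval_X, h3, h5, hMmr, hVWr, hAhr]
        ring
      · have h3 : V (X l) = 0 := planeField_ne F hlp hls
        rw [hnl l hlp hls, Derivation.leibniz, h3, valueAt, h3]
        simp only [smul_eq_mul, map_add, map_mul, eval_X, map_zero]
        ring
  · intro M hM
    have h3 : (∑ j ∈ Finset.range M, (3 : S) ^ j) * (3 - 1) = 3 ^ M - 1 := geom_sum_mul 3 M
    intro h4
    rw [h4, zero_mul] at h3
    have h5 : ((3 : ℕ) : S) ^ M = 1 := by
      push_cast
      linear_combination -h3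
    have h6 : (3 : ℕ) ^ M = 1 := by exact_mod_cast h5
    have := Nat.one_lt_pow (n := M) (by omega) (show 1 < 3 by norm_num)
    omega

end Pool.Agent.W572.G
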