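import Pool.Agent.W572.G.NearId

/-!
# Strict differentiability of rational functions over an ultrametric field
-/

set_option autoImplicit false

namespace Pool.Agent.W572.G

open MvPolynomial Matrix

variable {S : Type*} [NormedField S] {σ : Type*} [Fintype σ]

/-- The function `f` is strictly differentiable at `x` with gradient `a`. -/
def SD (f : (σ → S) → S) (a x : σ → S) : Prop :=
  ∀ η : ℝ, 0 < η → ∃ δ : ℝ, 0 < δ ∧ ∀ y z : σ → S, ‖y - x‖ < δ → ‖z - x‖ < δ →
    ‖f y - f z - a ⬝ᵥ (y - z)‖ ≤ η * ‖y - z‖

/-- there are arbitrarily small scalars -/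
def Small (S : Type*) [NormedField S] : Prop := ∃ c : S, c ≠ 0 ∧ ‖c‖ < 1

lemma SD_of_hasStrict (hS : Small S) (f : (σ → S) → S) (a x : σ → S)
    (h : letI : NontriviallyNormedField S := NontriviallyNormedField.ofNormNeOne
          (by obtain ⟨c, h1, h2⟩ := hS; exact ⟨c, h1, h2.ne⟩)
         HasStrictFDerivAt f (∑ j, a j • (ContinuousLinearMap.proj j : (σ → S) →L[S] S)) x) :
    SD f a x := by
  intro η hη
  letI : NontriviallyNormedField S := NontriviallyNormedField.ofNormNeOne
          (by obtain ⟨c, h1, h2⟩ := hS; exact ⟨c, h1, h2.ne⟩)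
  have h1 := (hasStrictFDerivAt_iff_isLittleO.mp h).def hη
  rw [nhds_prod_eq, Filter.eventually_iff_exists_mem] at h1
  obtain ⟨v, hv, hv2⟩ := h1
  obtain ⟨t, ht, u, hu, htu⟩ := Filter.mem_prod_iff.mp hv
  obtain ⟨δ₁, hδ₁, h3⟩ := Metric.mem_nhds_iff.mp ht
  obtain ⟨δ₂, hδ₂, h4⟩ := Metric.mem_nhds_iff.mp hu
  refine ⟨min δ₁ δ₂, lt_min hδ₁ hδ₂, fun y z hy hz => ?_⟩
  have h5 := hv2 (y, z) (htu ⟨h3 (by rw [Metric.mem_ball, dist_eq_norm]
                                     exact hy.trans_le (min_le_left _ _)),
    h4 (by rw [Metric.mem_ball, dist_eq_norm]; exact hz.trans_le (min_le_right _ _))⟩)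
  have h6 : (∑ j, a j • (ContinuousLinearMap.proj j : (σ → S) →L[S] S)) (y - z) =
      a ⬝ᵥ (y - z) := by
    rw [_root_.sum_apply]
    rfl
  have h7 : ‖f y - f z - (∑ j, a j • (ContinuousLinearMap.proj j : (σ → S) →L[S] S)) (y - z)‖ ≤
    η * ‖y - z‖ := h5
  rwa [h6] at h7

lemma strict_poly (S : Type*) [NontriviallyNormedField S] {σ : Type*} [Fintype σ]
    (P : MvPolynomial σ S) (x : σ → S) :
    HasStrictFDerivAt (fun y => eval y P)
      (∑ j, eval x (pderiv j P) • (ContinuousLinearMap.proj j : (σ → S) →L[S] S)) x := by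
  classical
  induction P using MvPolynomial.induction_on with
  | C a =>
    have h2 : (fun y : σ → S => eval y (C a : MvPolynomial σ S)) = fun _ => a := by
      funext y; simp
    rw [h2]
    refine (hasStrictFDerivAt_const (𝕜 := S) a x).congr_fderiv ?_
    ext w
    rw [_root_.sum_apply]
    simp [pderiv_C]
  | add p q hp hq =>
    have h := hp.add hq
    have h2 : (fun y : σ → S => eval y (p + q)) = (fun y => eval y p) + (fun y => eval y q) := by
      funext y; simp
    rw [h2]
    refine h.congr_fderiv ?_
    rw [← Finset.sum_add_distrib]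
    refine Finset.sum_congr rfl fun j _ => ?_
    ext w
    simp [add_mul]
  | mul_X p i hp =>
    have h := hp.mul (hasStrictFDerivAt_apply (𝕜 := S) i x)
    have h2 : (fun y : σ → S => eval y (p * X i)) = (fun y => eval y p) * (fun y => y i) := by
      funext y; simp
    rw [h2]
    refine h.congr_fderiv ?_
    ext w
    simp only [Derivation.leibniz, smul_eq_mul, pderiv_X, map_add, map_mul, eval_X,
      _root_.add_apply, _root_.smul_apply,
      ContinuousLinearMap.proj_apply, _root_.sum_apply, add_mul,
      Finset.sum_add_distrib]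
    congr 1
    · rw [Finset.sum_eq_single i]
      · simp
      · intro b _ hb
        simp [hb.symm]
      · simp
    · rw [Finset.mul_sum]
      exact Finset.sum_congr rfl fun j _ => by ring

/-- Polynomials are strictly differentiable. -/
theorem SD_poly (hS : Small S) (P : MvPolynomial σ S) (x : σ → S) :
    SD (fun y => eval y P) (fun j => eval x (pderiv j P)) x :=
  SD_of_hasStrict hS _ _ _ (by
    letI : NontriviallyNormedField S := NontriviallyNormedField.ofNormNeOne
          (by obtain ⟨c, h1, h2⟩ := hS; exact ⟨c, h1, h2.ne⟩)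
    exact strict_poly S P x)

/-- The gradient of the rational function `P/Q` at `x`. -/
noncomputable def gradRat (P Q : MvPolynomial σ S) (x : σ → S) : σ → S :=
  fun j => (eval x Q * eval x (pderiv j P) - eval x P * eval x (pderiv j Q)) / (eval x Q) ^ 2

/-- Rational functions are strictly differentiable. -/
theorem SD_rat (hS : Small S) (P Q : MvPolynomial σ S) (x : σ → S) (hQ : eval x Q ≠ 0) :
    SD (fun y => eval y P / eval y Q) (gradRat P Q x) x :=
  SD_of_hasStrict hS _ _ _ (by
    letI : NontriviallyNormedField S := NontriviallyNormedField.ofNormNeOne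
          (by obtain ⟨c, h1, h2⟩ := hS; exact ⟨c, h1, h2.ne⟩)
    have h1 := (strict_poly S P x).mul
      ((hasStrictDerivAt_inv hQ).comp_hasStrictFDerivAt x (strict_poly S Q x))
    have h2 : (fun y : σ → S => eval y P / eval y Q) =
        (fun y => eval y P) * ((fun y => y⁻¹) ∘ fun y => eval y Q) := by
      funext y; simp [div_eq_mul_inv]
    rw [h2]
    refine h1.congr_fderiv ?_
    ext w
    simp only [_root_.add_apply, _root_.smul_apply,
      ContinuousLinearMap.proj_apply, _root_.sum_apply, gradRat, smul_eq_mul,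
      Function.comp_apply, Finset.mul_sum]
    rw [← Finset.sum_add_distrib]
    refine Finset.sum_congr rfl fun j _ => ?_
    field_simp
    ring)

end Pool.Agent.W572.G
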